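import Pool.Agent.KS6_48.DCD.No
import Pool.Graph.R_seed8.R539.PS.GDefs

/-!
# From a decomposition to a Hamiltonian path
-/

namespace Pool.Agent.KS6_48.DCD

open Finset Pool.Agent.R539

section

open Classical

variable {c : ℕ → ℕ → Bool} {W H : ℕ} {U : Port × Port × Port × Port → Prop}

variable (c W H U) in
/-- Adjacency by used edges. -/
def AU (u v : ℕ × ℕ) : Prop :=
  (v.1 = u.1 + 1 ∧ v.2 = u.2 ∧ hE c W H U u.1 u.2) ∨
  (v.1 = u.1 ∧ v.2 = u.2 + 1 ∧ hV c W H U u.1 u.2) ∨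
  (u.1 = v.1 + 1 ∧ u.2 = v.2 ∧ hE c W H U v.1 v.2) ∨
  (u.1 = v.1 ∧ u.2 = v.2 + 1 ∧ hV c W H U v.1 v.2)

/-- The neighbour in the direction `j`. -/
def nb (u : ℕ × ℕ) (j : ℕ) : ℕ × ℕ :=
  if j = 0 then (u.1 + 1, u.2) else if j = 1 then (u.1, u.2 + 1) else
  if j = 2 then (u.1 - 1, u.2) else (u.1, u.2 - 1)

theorem AU_symm {u v : ℕ × ℕ} (h : AU c W H U u v) : AU c W H U v u := by
  rcases h with ⟨h1, h2, h3⟩ | ⟨h1, h2, h3⟩ | ⟨h1, h2, h3⟩ | ⟨h1, h2, h3⟩
  · exact Or.inr (Or.inr (Or.inl ⟨h1, h2, h3⟩))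
  · exact Or.inr (Or.inr (Or.inr ⟨h1, h2, h3⟩))
  · exact Or.inl ⟨h1, h2, h3⟩
  · exact Or.inr (Or.inl ⟨h1, h2, h3⟩)

theorem AU_irrefl (u : ℕ × ℕ) : ¬ AU c W H U u u := by
  rintro (⟨h1, h2, h3⟩ | ⟨h1, h2, h3⟩ | ⟨h1, h2, h3⟩ | ⟨h1, h2, h3⟩) <;> omega

theorem AU_iff {u v : ℕ × ℕ} : AU c W H U u v ↔ ∃ j, UD c W H U u.1 u.2 j ∧ v = nb u j := by
  obtain ⟨x, y⟩ := u
  obtain ⟨x', y'⟩ := v
  constructor
  · rintro (⟨h1, h2, h3⟩ | ⟨h1, h2, h3⟩ | ⟨h1, h2, h3⟩ | ⟨h1, h2, h3⟩) <;>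
      simp only at h1 h2 h3
    · exact ⟨0, Or.inl ⟨rfl, h3⟩, by simp [nb, h1, h2]⟩
    · exact ⟨1, Or.inr (Or.inl ⟨rfl, h3⟩), by simp [nb, h1, h2]⟩
    · subst h1 h2
      exact ⟨2, Or.inr (Or.inr (Or.inl ⟨rfl, x', rfl, h3⟩)), by simp [nb]⟩
    · subst h1 h2
      exact ⟨3, Or.inr (Or.inr (Or.inr ⟨rfl, y', rfl, h3⟩)), by simp [nb]⟩
  · rintro ⟨j, ⟨rfl, h⟩ | ⟨rfl, h⟩ | ⟨rfl, x'', hx, h⟩ | ⟨rfl, x'', hx, h⟩, hv⟩
    · simp only [nb, if_true, Prod.mk.injEq] at hv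
      exact Or.inl ⟨hv.1, hv.2, h⟩
    · simp only [nb, one_ne_zero, if_true, if_false, Prod.mk.injEq] at hv
      exact Or.inr (Or.inl ⟨hv.1, hv.2, h⟩)
    · simp only at hx
      subst hx
      simp only [nb, OfNat.ofNat_ne_zero, OfNat.ofNat_ne_one, if_true, if_false,
        Prod.mk.injEq, Nat.add_sub_cancel] at hv
      obtain ⟨rfl, rfl⟩ := hv
      exact Or.inr (Or.inr (Or.inl ⟨rfl, rfl, h⟩))
    · simp only at hx
      subst hx
      simp only [nb, OfNat.ofNat_ne_zero, OfNat.ofNat_ne_one, if_false,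
        Prod.mk.injEq, Nat.add_sub_cancel, Nat.reduceEqDiff] at hv
      obtain ⟨rfl, rfl⟩ := hv
      exact Or.inr (Or.inr (Or.inr ⟨rfl, rfl, h⟩))

theorem AU_mem {u v : ℕ × ℕ} (h : AU c W H U u v) : v ∈ cells c W H := by
  rw [mem_cells]
  rcases h with ⟨h1, h2, h3⟩ | ⟨h1, h2, h3⟩ | ⟨h1, h2, h3⟩ | ⟨h1, h2, h3⟩
  · rw [h1, h2]
    exact ⟨h3.1, h3.2.1, h3.2.2.2.1⟩
  · rw [h1, h2]
    exact ⟨h3.1, h3.2.1, h3.2.2.2.1⟩
  · exact ⟨h3.1.le, h3.2.1, h3.2.2.1⟩
  · exact ⟨h3.1, h3.2.1.le, h3.2.2.1⟩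

theorem ud_lt {x y j : ℕ} (h : UD c W H U x y j) : j < 4 := by
  rcases h with ⟨rfl, _⟩ | ⟨rfl, _⟩ | ⟨rfl, _⟩ | ⟨rfl, _⟩ <;> omega

theorem nb_inj {u : ℕ × ℕ} {j j' : ℕ} (h : UD c W H U u.1 u.2 j) (h' : UD c W H U u.1 u.2 j')
    (hn : nb u j = nb u j') : j = j' := by
  obtain ⟨x, y⟩ := u
  rcases h with ⟨rfl, h⟩ | ⟨rfl, h⟩ | ⟨rfl, x1, hx, h⟩ | ⟨rfl, x1, hx, h⟩ <;>
    rcases h' with ⟨rfl, h'⟩ | ⟨rfl, h'⟩ | ⟨rfl, x2, hx', h'⟩ | ⟨rfl, x2, hx', h'⟩ <;>
    first | rfl | (exfalso; simp [nb] at hn; try dsimp only at *; omega)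

theorem two_nbrs {u : ℕ × ℕ} (hd : deg c W H U u = 2) : ∃ v w, v ≠ w ∧ AU c W H U u v ∧
    AU c W H U u w ∧ ∀ x, AU c W H U u x → x = v ∨ x = w := by
  unfold deg at hd
  rw [card_eq_two] at hd
  obtain ⟨a, b, hab, hs⟩ := hd
  have ha : UD c W H U u.1 u.2 a := by
    have : a ∈ (range 4).filter fun j => UD c W H U u.1 u.2 j := by rw [hs]; simp
    exact (mem_filter.1 this).2
  have hb : UD c W H U u.1 u.2 b := by
    have : b ∈ (range 4).filter fun j => UD c W H U u.1 u.2 j := by rw [hs]; simp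
    exact (mem_filter.1 this).2
  refine ⟨nb u a, nb u b, fun h => hab (nb_inj ha hb h), AU_iff.2 ⟨a, ha, rfl⟩,
    AU_iff.2 ⟨b, hb, rfl⟩, ?_⟩
  intro x hx
  obtain ⟨j, hj, rfl⟩ := AU_iff.1 hx
  have : j ∈ (range 4).filter fun j => UD c W H U u.1 u.2 j := by
    rw [mem_filter, mem_range]
    exact ⟨ud_lt hj, hj⟩
  rw [hs, mem_insert, mem_singleton] at this
  rcases this with rfl | rfl
  · exact Or.inl rfl
  · exact Or.inr rfl

end

/-- The cells: the cells of `Q`, shifted by `(0, 2)`, and a path below and to the right of them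
from `(0, 1)` to `(w + 1, h + 2)`. -/
def cc (Q : List Cell) (w h : ℕ) (x y : ℕ) : Bool :=
  decide (y = 0) || (decide (x = w + 2) || (decide (x = 0 ∧ y = 1) ||
    (decide (x = w + 1 ∧ y = h + 2) || (decide (2 ≤ y) && decide ((x, y - 2) ∈ Q)))))

theorem cc_iff {Q : List Cell} {w h x y : ℕ} : cc Q w h x y = true ↔
    y = 0 ∨ x = w + 2 ∨ (x = 0 ∧ y = 1) ∨ (x = w + 1 ∧ y = h + 2) ∨
      (2 ≤ y ∧ (x, y - 2) ∈ Q) := by
  simp only [cc, Bool.or_eq_true, Bool.and_eq_true, decide_eq_true_eq]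

open Classical in
theorem hamPath_of_curves {Q : List Cell} {w h : ℕ} (hnd : Q.Nodup) (hw : 0 < w)
    (hbox : ∀ p ∈ Q, p.1 ≤ w ∧ p.2 ≤ h) (hs : ((0, 0) : Cell) ∈ Q) (ht : ((w, h) : Cell) ∈ Q)
    {U : Port × Port × Port × Port → Prop} {κ : Type} {l : Port → κ}
    (hC : Curves (gws (cc Q w h) (w + 2) (h + 2)) (ggs (cc Q w h) (w + 2) (h + 2)) U l)
    (hk : ((srcs (gws (cc Q w h) (w + 2) (h + 2))
      (ggs (cc Q w h) (w + 2) (h + 2))).toFinset.image l).card ≤ 2) :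
    HamPath Q (0, 0) (w, h) := by
  set c := cc Q w h with hc
  have hW : ∀ y ≤ h + 2, c (w + 2) y = true := fun y _ => by
    rw [hc, cc_iff]
    exact Or.inr (Or.inl rfl)
  have hdeg := deg_two hW (by omega) hC hk
  have hconn := conn_all hW (by omega) hC hk
  have hQc : ∀ p ∈ Q, (p.1, p.2 + 2) ∈ cells c (w + 2) (h + 2) := by
    intro p hp
    rw [mem_cells, hc, cc_iff]
    have := hbox p hp
    refine ⟨by simp only; omega, by simp only; omega, Or.inr (Or.inr (Or.inr (Or.inr ?_)))⟩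
    exact ⟨by simp only; omega, by simpa using hp⟩
  -- neighbours of the cells of `Q`
  have hnb : ∀ p ∈ Q, ∀ v, AU c (w + 2) (h + 2) U (p.1, p.2 + 2) v →
      (2 ≤ v.2 ∧ (v.1, v.2 - 2) ∈ Q) ∨ (p = (0, 0) ∧ v = (0, 1)) ∨
        (p = (w, h) ∧ v = (w + 1, h + 2)) := by
    intro p hp v hv
    have hvc := AU_mem hv
    rw [mem_cells, hc, cc_iff] at hvc
    have hb := hbox p hp
    obtain ⟨x, y⟩ := p
    obtain ⟨x', y'⟩ := v
    simp only at hb hvc
    have hadj : (x' = x + 1 ∧ y' = y + 2) ∨ (x' = x ∧ y' = y + 3) ∨ (x = x' + 1 ∧ y' = y + 2) ∨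
        (x' = x ∧ y' = y + 1) := by
      rcases hv with ⟨h1, h2, _⟩ | ⟨h1, h2, _⟩ | ⟨h1, h2, _⟩ | ⟨h1, h2, _⟩ <;>
        simp only at h1 h2 <;> omega
    simp only [Prod.mk.injEq]
    rcases hvc.2.2 with h1 | h1 | h1 | h1 | h1
    · omega
    · omega
    · right; left; omega
    · right; right; omega
    · exact Or.inl h1
  -- the two ends of the additional path
  have u1 : AU c (w + 2) (h + 2) U (0, 2) (0, 1) := by
    have hcell : ((0, 1) : ℕ × ℕ) ∈ cells c (w + 2) (h + 2) := by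
      rw [mem_cells, hc, cc_iff]
      exact ⟨by simp, by simp, by simp⟩
    obtain ⟨v, v', hne, h1, h2, _⟩ := two_nbrs (hdeg _ hcell)
    have key : ∀ v, AU c (w + 2) (h + 2) U (0, 1) v → v = (0, 0) ∨ v = (0, 2) := by
      intro v hv
      have hvc := AU_mem hv
      rw [mem_cells, hc, cc_iff] at hvc
      obtain ⟨x', y'⟩ := v
      simp only at hvc
      have hadj : (x' = 1 ∧ y' = 1) ∨ (x' = 0 ∧ y' = 2) ∨ (x' = 0 ∧ y' = 0) := by
        rcases hv with ⟨h1, h2, _⟩ | ⟨h1, h2, _⟩ | ⟨h1, h2, _⟩ | ⟨h1, h2, _⟩ <;>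
          simp only at h1 h2 <;> omega
      simp only [Prod.mk.injEq]
      omega
    rcases key v h1 with rfl | rfl
    · rcases key v' h2 with rfl | rfl
      · exact absurd rfl hne
      · exact AU_symm h2
    · exact AU_symm h1
  have u2 : AU c (w + 2) (h + 2) U (w, h + 2) (w + 1, h + 2) := by
    have hcell : ((w + 1, h + 2) : ℕ × ℕ) ∈ cells c (w + 2) (h + 2) := by
      rw [mem_cells, hc, cc_iff]
      exact ⟨by simp, by simp, by simp⟩
    obtain ⟨v, v', hne, h1, h2, _⟩ := two_nbrs (hdeg _ hcell)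
    have key : ∀ v, AU c (w + 2) (h + 2) U (w + 1, h + 2) v →
        v = (w + 2, h + 2) ∨ v = (w, h + 2) := by
      intro v hv
      have hvc := AU_mem hv
      rw [mem_cells, hc, cc_iff] at hvc
      obtain ⟨x', y'⟩ := v
      simp only at hvc
      have hadj : (x' = w + 2 ∧ y' = h + 2) ∨ (x' = w + 1 ∧ y' = h + 3) ∨
          (x' = w ∧ y' = h + 2) ∨ (x' = w + 1 ∧ y' = h + 1) := by
        rcases hv with ⟨h1, h2, _⟩ | ⟨h1, h2, _⟩ | ⟨h1, h2, _⟩ | ⟨h1, h2, _⟩ <;>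
          simp only at h1 h2 <;> omega
      simp only [Prod.mk.injEq]
      rcases hadj with h3 | h3 | h3 | h3
      · omega
      · omega
      · omega
      · exfalso
        rcases hvc.2.2 with h4 | h4 | h4 | h4 | h4
        · omega
        · omega
        · omega
        · omega
        · have := (hbox _ h4.2).1
          simp only at this
          omega
    rcases key v h1 with rfl | rfl
    · rcases key v' h2 with rfl | rfl
      · exact absurd rfl hne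
      · exact AU_symm h2
    · exact AU_symm h1
  -- the relation on `Q`
  let A : Cell → Cell → Prop := fun u v => AU c (w + 2) (h + 2) U (u.1, u.2 + 2) (v.1, v.2 + 2)
  have hst : ((0, 0) : Cell) ≠ (w, h) := by
    intro h'
    have := (Prod.mk.inj h').1
    omega
  have lift' : ∀ v : ℕ × ℕ, 2 ≤ v.2 → (v.1, v.2 - 2 + 2) = v := by
    intro v hv
    exact Prod.ext rfl (by simp only; omega)
  obtain ⟨L, L1, L2, L3, L4, L5⟩ := exists_path (s := ((0, 0) : Cell)) (t := ((w, h) : Cell))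
    Q.toFinset A (List.mem_toFinset.2 hs) hst (fun u v h' => AU_symm h')
    (fun u => AU_irrefl _)
    (by
      obtain ⟨v, v', hne, h1, h2, h3⟩ := two_nbrs (hdeg _ (hQc _ hs))
      have h4 := h3 (0, 1) u1
      -- the neighbour which is not `(0, 1)`
      obtain ⟨z, hz, hz1, hz2⟩ : ∃ z, z ≠ (0, 1) ∧ AU c (w + 2) (h + 2) U (0, 0 + 2) z ∧
          ∀ x, AU c (w + 2) (h + 2) U (0, 0 + 2) x → x = (0, 1) ∨ x = z := by
        rcases h4 with h4 | h4
        · exact ⟨v', fun h' => hne (h4.symm.trans h'.symm), h2, fun x hx => by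
            rw [h4]; exact h3 x hx⟩
        · exact ⟨v, fun h' => hne (h'.trans h4), h1, fun x hx => by
            rw [h4]; exact (h3 x hx).symm⟩
      rcases hnb _ hs z hz1 with h5 | h5 | h5
      · refine ⟨(z.1, z.2 - 2), List.mem_toFinset.2 h5.2, ?_, ?_⟩
        · change AU c (w + 2) (h + 2) U (0, 0 + 2) (z.1, z.2 - 2 + 2)
          rw [lift' z h5.1]
          exact hz1
        · intro x _ hx
          rcases hz2 _ hx with h6 | h6
          · have := (Prod.mk.inj h6).2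
            omega
          · rw [← h6]
            simp
      · exact absurd h5.2 hz
      · exact absurd h5.1 hst)
    (by
      obtain ⟨v, v', hne, h1, h2, h3⟩ := two_nbrs (hdeg _ (hQc _ ht))
      have h4 := h3 (w + 1, h + 2) u2
      obtain ⟨z, hz, hz1, hz2⟩ : ∃ z, z ≠ (w + 1, h + 2) ∧
          AU c (w + 2) (h + 2) U (w, h + 2) z ∧
          ∀ x, AU c (w + 2) (h + 2) U (w, h + 2) x → x = (w + 1, h + 2) ∨ x = z := by
        rcases h4 with h4 | h4
        · exact ⟨v', fun h' => hne (h4.symm.trans h'.symm), h2, fun x hx => by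
            rw [h4]; exact h3 x hx⟩
        · exact ⟨v, fun h' => hne (h'.trans h4), h1, fun x hx => by
            rw [h4]; exact (h3 x hx).symm⟩
      rcases hnb _ ht z hz1 with h5 | h5 | h5
      · refine ⟨(z.1, z.2 - 2), List.mem_toFinset.2 h5.2, ?_, ?_⟩
        · change AU c (w + 2) (h + 2) U (w, h + 2) (z.1, z.2 - 2 + 2)
          rw [lift' z h5.1]
          exact hz1
        · intro x hxQ hx
          rcases hz2 _ hx with h6 | h6
          · have h7 := (Prod.mk.inj h6).1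
            have h8 := (hbox x (List.mem_toFinset.1 hxQ)).1
            omega
          · rw [← h6]
            simp
      · exact absurd h5.1.symm hst
      · exact absurd h5.2 hz)
    (by
      intro u hu hus hut
      rw [List.mem_toFinset] at hu
      obtain ⟨v, v', hne, h1, h2, h3⟩ := two_nbrs (hdeg _ (hQc _ hu))
      have h5 : 2 ≤ v.2 ∧ (v.1, v.2 - 2) ∈ Q := by
        rcases hnb u hu v h1 with h5 | h5 | h5
        · exact h5
        · exact absurd h5.1 hus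
        · exact absurd h5.1 hut
      have h5' : 2 ≤ v'.2 ∧ (v'.1, v'.2 - 2) ∈ Q := by
        rcases hnb u hu v' h2 with h5 | h5 | h5
        · exact h5
        · exact absurd h5.1 hus
        · exact absurd h5.1 hut
      refine ⟨(v.1, v.2 - 2), List.mem_toFinset.2 h5.2, (v'.1, v'.2 - 2),
        List.mem_toFinset.2 h5'.2, ?_, ?_, ?_, ?_⟩
      · intro h'
        have := Prod.mk.inj h'
        exact hne (Prod.ext this.1 (by omega))
      · change AU c (w + 2) (h + 2) U (u.1, u.2 + 2) (v.1, v.2 - 2 + 2)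
        rw [lift' v h5.1]
        exact h1
      · change AU c (w + 2) (h + 2) U (u.1, u.2 + 2) (v'.1, v'.2 - 2 + 2)
        rw [lift' v' h5'.1]
        exact h2
      · intro x _ hx
        rcases h3 _ hx with h6 | h6
        · left
          rw [← h6]
          simp
        · right
          rw [← h6]
          simp)
    (by
      intro X hXs hXt hX u hu
      rw [List.mem_toFinset] at hu
      let Y : ℕ → ℕ → Prop := fun x y => (2 ≤ y ∧ (x, y - 2) ∈ Q) → X (x, y - 2)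
      have hYout : ∀ v : ℕ × ℕ, ¬ (2 ≤ v.2 ∧ (v.1, v.2 - 2) ∈ Q) → Y v.1 v.2 :=
        fun v hv h' => absurd h' hv
      have key : ∀ a b : ℕ × ℕ, AU c (w + 2) (h + 2) U a b → (Y a.1 a.2 → Y b.1 b.2) := by
        intro a b hab ha hb
        by_cases haQ : 2 ≤ a.2 ∧ (a.1, a.2 - 2) ∈ Q
        · refine (hX _ (List.mem_toFinset.2 haQ.2) _ (List.mem_toFinset.2 hb.2) ?_).1 (ha haQ)
          change AU c (w + 2) (h + 2) U (a.1, a.2 - 2 + 2) (b.1, b.2 - 2 + 2)
          rw [lift' a haQ.1, lift' b hb.1]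
          exact hab
        · have hba := AU_symm hab
          rw [← lift' b hb.1] at hba
          rcases hnb (b.1, b.2 - 2) hb.2 a hba with h5 | h5 | h5
          · exact absurd h5 haQ
          · rw [h5.1]
            exact hXs
          · rw [h5.1]
            exact hXt
      have := hconn Y (fun x y h' => ⟨key (x, y) (x + 1, y) (Or.inl ⟨rfl, rfl, h'⟩),
          key (x + 1, y) (x, y) (AU_symm (Or.inl ⟨rfl, rfl, h'⟩))⟩)
        (fun x y h' => ⟨key (x, y) (x, y + 1) (Or.inr (Or.inl ⟨rfl, rfl, h'⟩)),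
          key (x, y + 1) (x, y) (AU_symm (Or.inr (Or.inl ⟨rfl, rfl, h'⟩)))⟩)
        (hQc _ hs) (fun _ => hXs) (hQc u hu)
      have h6 := this ⟨by simp only; omega, by simpa using hu⟩
      simpa using h6)
  refine ⟨L, ?_, ?_, L4, L5⟩
  · rw [List.perm_ext_iff_of_nodup L1 hnd]
    intro a
    rw [L2 a, List.mem_toFinset]
  · refine L3.imp ?_
    intro a b hab
    rcases hab with ⟨h1, h2, _⟩ | ⟨h1, h2, _⟩ | ⟨h1, h2, _⟩ | ⟨h1, h2, _⟩ <;>
      simp only at h1 h2 <;> unfold UAdj <;> omega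

end Pool.Agent.KS6_48.DCD
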