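import Pool.Agent.KS6_48.DCD.Defs

/-!
# Renaming the vertices of a digraph
-/

namespace Pool.Agent.KS6_48.DCD

variable {α β : Type}

/-- The arcs after renaming. -/
def mapArcs (f : α → β) (E : List (α × α)) : List (β × β) := E.map fun e => (f e.1, f e.2)

theorem cycArcs_map (f : α → β) (l : List α) : cycArcs (l.map f) = mapArcs f (cycArcs l) := by
  unfold cycArcs mapArcs
  rw [← List.map_rotate, List.zip_map]
  rfl

theorem isDigraph_map {f : α → β} (hf : Function.Injective f) {V : List α} {E : List (α × α)}
    (h : IsDigraph V E) : IsDigraph (V.map f) (mapArcs f E) := by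
  refine ⟨h.1.map hf, ?_⟩
  intro e he
  unfold mapArcs at he
  rw [List.mem_map] at he
  obtain ⟨e', he', rfl⟩ := he
  obtain ⟨h1, h2, h3⟩ := h.2 e' he'
  exact ⟨List.mem_map_of_mem h1, List.mem_map_of_mem h2, fun h' => h3 (hf h')⟩

theorem eulerian_of_perm [DecidableEq α] {V : List α} {E : List (α × α)}
    (h : (E.map Prod.fst).Perm (E.map Prod.snd)) : Eulerian V E :=
  fun v _ => h.count_eq v

theorem perm_map {f : α → β} {E : List (α × α)}
    (h : (E.map Prod.fst).Perm (E.map Prod.snd)) :
    ((mapArcs f E).map Prod.fst).Perm ((mapArcs f E).map Prod.snd) := by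
  unfold mapArcs
  rw [List.map_map, List.map_map]
  have := h.map f
  rw [List.map_map, List.map_map] at this
  exact this

theorem planar_map [Nonempty α] {f : α → β} (hf : Function.Injective f) {V : List α}
    {E : List (α × α)} {p : α → ℝ × ℝ} (h : PlaneDrawing V E p) :
    PlaneDrawing (V.map f) (mapArcs f E) (fun b => p (Function.invFun f b)) := by
  have hinv : ∀ a, Function.invFun f (f a) = a := Function.leftInverse_invFun hf
  obtain ⟨h1, h2, h3⟩ := h
  refine ⟨?_, ?_, ?_⟩
  · intro u hu v hv huv
    obtain ⟨u', hu', rfl⟩ := List.mem_map.1 hu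
    obtain ⟨v', hv', rfl⟩ := List.mem_map.1 hv
    beta_reduce at huv
    rw [hinv, hinv] at huv
    rw [h1 u' hu' v' hv' huv]
  · intro e he w hw hz
    unfold mapArcs at he
    obtain ⟨e', he', rfl⟩ := List.mem_map.1 he
    obtain ⟨w', hw', rfl⟩ := List.mem_map.1 hw
    simp only [hinv] at hz ⊢
    rcases h2 e' he' w' hw' hz with rfl | rfl
    · exact Or.inl rfl
    · exact Or.inr rfl
  · intro e he g hg hne z hz hz'
    unfold mapArcs at he hg
    obtain ⟨e', he', rfl⟩ := List.mem_map.1 he
    obtain ⟨g', hg', rfl⟩ := List.mem_map.1 hg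
    simp only [hinv] at hz hz' hne ⊢
    obtain ⟨w, hw1, hw2, hw3⟩ := h3 e' he' g' hg' (by
      intro h
      apply hne
      rw [Sym2.eq_iff] at h ⊢
      rcases h with ⟨a, b⟩ | ⟨a, b⟩
      · exact Or.inl ⟨by rw [a], by rw [b]⟩
      · exact Or.inr ⟨by rw [a], by rw [b]⟩) z hz hz'
    refine ⟨f w, ?_, ?_, ?_⟩
    · rcases hw1 with rfl | rfl
      · exact Or.inl rfl
      · exact Or.inr rfl
    · rcases hw2 with rfl | rfl
      · exact Or.inl rfl
      · exact Or.inr rfl
    · rw [hinv]
      exact hw3

theorem decomp_map [Nonempty α] {f : α → β} (hf : Function.Injective f) {E : List (α × α)}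
    {k : ℕ} : Decomp (mapArcs f E) k ↔ Decomp E k := by
  have hinv : ∀ a, Function.invFun f (f a) = a := Function.leftInverse_invFun hf
  constructor
  · rintro ⟨cs, h1, h2, h3⟩
    have hrange : ∀ c ∈ cs, ∀ b ∈ c, ∃ a, f a = b := by
      intro l hl b hb
      obtain ⟨i, hi, rfl⟩ := List.mem_iff_getElem.1 hb
      have hmem : (cycArcs l)[i]'(by simp [cycArcs]; exact hi) ∈ mapArcs f E := by
        refine h3.mem_iff.1 ?_
        rw [List.mem_flatMap]
        exact ⟨l, hl, List.getElem_mem _⟩
      unfold mapArcs at hmem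
      obtain ⟨e, _, he⟩ := List.mem_map.1 hmem
      refine ⟨e.1, ?_⟩
      have := congrArg Prod.fst he
      simp only [cycArcs, List.getElem_zip] at this
      exact this
    refine ⟨cs.map (List.map (Function.invFun f)), by rw [List.length_map]; exact h1, ?_, ?_⟩
    · intro l' hl'
      obtain ⟨l, hl, rfl⟩ := List.mem_map.1 hl'
      refine ⟨by rw [List.length_map]; exact (h2 l hl).1, ?_⟩
      refine (h2 l hl).2.map_on ?_
      intro x hx y hy hxy
      obtain ⟨a, rfl⟩ := hrange l hl x hx
      obtain ⟨b, rfl⟩ := hrange l hl y hy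
      rw [hinv, hinv] at hxy
      rw [hxy]
    · have h4 : (cs.map (List.map (Function.invFun f))).flatMap cycArcs =
          mapArcs (Function.invFun f) (cs.flatMap cycArcs) := by
        rw [List.flatMap_map]
        simp only [cycArcs_map]
        unfold mapArcs
        rw [List.map_flatMap]
      rw [h4]
      have h5 := h3.map (fun e : β × β => (Function.invFun f e.1, Function.invFun f e.2))
      refine h5.trans ?_
      unfold mapArcs
      rw [List.map_map]
      have : ((fun e : β × β => (Function.invFun f e.1, Function.invFun f e.2)) ∘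
          fun e : α × α => (f e.1, f e.2)) = id := by
        funext e
        simp only [Function.comp, hinv]
        rfl
      rw [this, List.map_id]
  · rintro ⟨cs, h1, h2, h3⟩
    refine ⟨cs.map (List.map f), by rw [List.length_map]; exact h1, ?_, ?_⟩
    · intro l' hl'
      obtain ⟨l, hl, rfl⟩ := List.mem_map.1 hl'
      exact ⟨by rw [List.length_map]; exact (h2 l hl).1, (h2 l hl).2.map hf⟩
    · have h4 : (cs.map (List.map f)).flatMap cycArcs = mapArcs f (cs.flatMap cycArcs) := by
        rw [List.flatMap_map]
        simp only [cycArcs_map]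
        unfold mapArcs
        rw [List.map_flatMap]
      rw [h4]
      exact h3.map _

end Pool.Agent.KS6_48.DCD
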