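import Pool.Agent.KS6_48.DCD.Plan
import Pool.Agent.KS6_48.DCD.No2
import Pool.Agent.KS6_48.DCD.Relabel
import Pool.Graph.R_seed8.R539.PS.T6a

/-!
# The reduction is computable in polynomial time
-/

namespace Pool.Agent.NPC.KS6_48

open Pool.Agent.R539 Pool.Agent.KS6_48.DCD

section

variable {α : Type} [TEnc α]

/-- Numbers for the vertices. -/
def code (v : Vx Port) : ℕ := Nat.pair (Nat.pair v.1.1 v.1.2.1) (Nat.pair v.1.2.2 v.2)

theorem code_inj : Function.Injective code := by
  rintro ⟨⟨x, y, i⟩, k⟩ ⟨⟨x', y', i'⟩, k'⟩ h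
  simp only [code, Nat.pair_eq_pair] at h
  obtain ⟨⟨rfl, rfl⟩, rfl, rfl⟩ := h
  rfl

theorem poly_natPair {a b : α → ℕ} (ha : Poly a) (hb : Poly b) :
    Poly (fun x => Nat.pair (a x) (b x)) := by
  unfold Nat.pair
  exact Poly.ite (Poly.decide_lt ha hb) (Poly.add (Poly.mul hb hb) ha)
    (Poly.add (Poly.add (Poly.mul ha ha) ha) hb)

theorem poly_code {v : α → Vx Port} (hv : Poly v) : Poly (fun x => code (v x)) :=
  poly_natPair
    (poly_natPair (Poly.fst (Poly.fst hv)) (Poly.fst (Poly.snd (Poly.fst hv))))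
    (poly_natPair (Poly.snd (Poly.snd (Poly.fst hv))) (Poly.snd hv))

theorem poly_rect {m n : α → ℕ} (hm : UPoly m) (hn : UPoly n) :
    Poly (fun a => rect (m a) (n a)) := by
  refine Poly.flatMap (F := fun a x => (List.range (n a)).map fun y => (x, y)) hm.range ?_
  refine Poly.map (F := fun (p : α × ℕ) y => (p.2, y)) (hn.range.comp (Poly.fst Poly.id)) ?_
  exact Poly.pair (Poly.snd (Poly.fst Poly.id)) (Poly.snd Poly.id)

theorem poly_port {x y i : α → ℕ} (hx : Poly x) (hy : Poly y) (hi : Poly i) :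
    Poly (fun a => ((x a, y a, i a) : Port)) := Poly.pair hx (Poly.pair hy hi)

theorem poly_list1 {β : Type} [TEnc β] {f : α → β} (hf : Poly f) : Poly (fun a => [f a]) :=
  Poly.cons hf (Poly.const [])

theorem poly_list2 {β : Type} [TEnc β] {f g : α → β} (hf : Poly f) (hg : Poly g) :
    Poly (fun a => [f a, g a]) := Poly.cons hf (poly_list1 hg)

variable {Q : α → List Cell} {w h : α → ℕ}

theorem poly_cc (hQ : Poly Q) (hw : Poly w) (hh : Poly h) {x y : α → ℕ} (hx : Poly x)
    (hy : Poly y) : Poly (fun a => cc (Q a) (w a) (h a) (x a) (y a)) := by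
  unfold cc
  have d1 := Poly.decide_eq hy (Poly.const 0)
  have d2 := Poly.decide_eq hx (Poly.add hw (Poly.const 2))
  have d3 := Poly.decide_and (Poly.decide_eq hx (Poly.const 0)) (Poly.decide_eq hy (Poly.const 1))
  have d4 := Poly.decide_and (Poly.decide_eq hx (Poly.add hw (Poly.const 1)))
    (Poly.decide_eq hy (Poly.add hh (Poly.const 2)))
  have d5 := Poly.decide_le (Poly.const 2) hy
  have d6 : Poly (fun a => decide (((x a, y a - 2) : Cell) ∈ Q a)) :=
    (Poly.decide_mem (Poly.pair hx (Poly.sub hy (Poly.const 2))) hQ).congr fun a => by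
      rw [decide_eq_decide]
  exact Poly.or d1 (Poly.or d2 (Poly.or d3 (Poly.or d4 (Poly.and d5 d6))))

/-- All wires. -/
theorem poly_gws (hQ : Poly Q) (hw : UPoly w) (hh : UPoly h) :
    Poly (fun a => gws (cc (Q a) (w a) (h a)) (w a + 2) (h a + 2)) := by
  have hW : UPoly (fun a => w a + 2) := UPoly.add hw (UPoly.const 2)
  have hH : UPoly (fun a => h a + 2) := UPoly.add hh (UPoly.const 2)
  have hW1 : UPoly (fun a => w a + 2 + 1) := UPoly.add hW (UPoly.const 1)
  have hH1 : UPoly (fun a => h a + 2 + 1) := UPoly.add hH (UPoly.const 1)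
  unfold gws
  refine Poly.append (Poly.append (Poly.append ?_ ?_) ?_) ?_
  · refine Poly.flatMap (F := fun a p => wE (cc (Q a) (w a) (h a)) p) (poly_rect hW hH1) ?_
    have h0 : Poly (fun t : α × ℕ × ℕ => t.1) := Poly.fst Poly.id
    have hx : Poly (fun t : α × ℕ × ℕ => t.2.1) := Poly.fst (Poly.snd Poly.id)
    have hy : Poly (fun t : α × ℕ × ℕ => t.2.2) := Poly.snd (Poly.snd Poly.id)
    have hx1 := Poly.succ hx
    have c1 := poly_cc (hQ.comp h0) (hw.toPoly.comp h0) (hh.toPoly.comp h0) hx hy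
    have c2 := poly_cc (hQ.comp h0) (hw.toPoly.comp h0) (hh.toPoly.comp h0) hx1 hy
    unfold wE
    refine Poly.ite (Poly.decide_bool c1) (Poly.ite (Poly.decide_bool c2) (Poly.const [])
      (poly_list2 ?_ ?_)) (poly_list2 ?_ ?_)
    · exact Poly.pair (poly_port hx hy (Poly.const 3)) (poly_port hx hy (Poly.const 0))
    · exact Poly.pair (poly_port hx1 hy (Poly.const 1)) (poly_port hx1 hy (Poly.const 2))
    · exact Poly.pair (poly_port hx hy (Poly.const 3)) (poly_port hx1 hy (Poly.const 2))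
    · exact Poly.pair (poly_port hx1 hy (Poly.const 1)) (poly_port hx hy (Poly.const 0))
  · refine Poly.flatMap (F := fun a p => wN (cc (Q a) (w a) (h a)) p) (poly_rect hW1 hH) ?_
    have h0 : Poly (fun t : α × ℕ × ℕ => t.1) := Poly.fst Poly.id
    have hx : Poly (fun t : α × ℕ × ℕ => t.2.1) := Poly.fst (Poly.snd Poly.id)
    have hy : Poly (fun t : α × ℕ × ℕ => t.2.2) := Poly.snd (Poly.snd Poly.id)
    have hy1 := Poly.succ hy
    have c1 := poly_cc (hQ.comp h0) (hw.toPoly.comp h0) (hh.toPoly.comp h0) hx hy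
    have c2 := poly_cc (hQ.comp h0) (hw.toPoly.comp h0) (hh.toPoly.comp h0) hx hy1
    unfold wN
    refine Poly.ite (Poly.decide_bool (Poly.and c1 c2)) (Poly.const []) (poly_list2 ?_ ?_)
    · exact Poly.pair (poly_port hx hy (Poly.const 0)) (poly_port hx hy (Poly.const 1))
    · exact Poly.pair (poly_port hx hy1 (Poly.const 2)) (poly_port hx hy1 (Poly.const 3))
  · refine Poly.flatMap (F := fun a y => wB (w a + 2) y) hH1.range ?_
    have h0 : Poly (fun t : α × ℕ => t.1) := Poly.fst Poly.id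
    have hy : Poly (fun t : α × ℕ => t.2) := Poly.snd Poly.id
    have hw' : Poly (fun t : α × ℕ => w t.1 + 2) := hW.toPoly.comp h0
    unfold wB
    exact poly_list2 (Poly.pair (poly_port hw' hy (Poly.const 3)) (poly_port hw' hy (Poly.const 0)))
      (Poly.pair (poly_port (Poly.const 0) hy (Poly.const 1))
        (poly_port (Poly.const 0) hy (Poly.const 2)))
  · refine Poly.flatMap (F := fun a y => wC (h a + 2) y) hW1.range ?_
    have h0 : Poly (fun t : α × ℕ => t.1) := Poly.fst Poly.id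
    have hy : Poly (fun t : α × ℕ => t.2) := Poly.snd Poly.id
    have hh' : Poly (fun t : α × ℕ => h t.1 + 2) := hH.toPoly.comp h0
    unfold wC
    exact poly_list2 (Poly.pair (poly_port hy hh' (Poly.const 0)) (poly_port hy hh' (Poly.const 1)))
      (Poly.pair (poly_port hy (Poly.const 0) (Poly.const 2))
        (poly_port hy (Poly.const 0) (Poly.const 3)))

/-- All gadgets. -/
theorem poly_ggs (hQ : Poly Q) (hw : UPoly w) (hh : UPoly h) :
    Poly (fun a => ggs (cc (Q a) (w a) (h a)) (w a + 2) (h a + 2)) := by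
  have hW : UPoly (fun a => w a + 2) := UPoly.add hw (UPoly.const 2)
  have hH : UPoly (fun a => h a + 2) := UPoly.add hh (UPoly.const 2)
  have hW1 : UPoly (fun a => w a + 2 + 1) := UPoly.add hW (UPoly.const 1)
  have hH1 : UPoly (fun a => h a + 2 + 1) := UPoly.add hH (UPoly.const 1)
  unfold ggs
  refine Poly.append ?_ ?_
  · refine Poly.flatMap (F := fun a p => gE (cc (Q a) (w a) (h a)) p) (poly_rect hW hH1) ?_
    have h0 : Poly (fun t : α × ℕ × ℕ => t.1) := Poly.fst Poly.id
    have hx : Poly (fun t : α × ℕ × ℕ => t.2.1) := Poly.fst (Poly.snd Poly.id)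
    have hy : Poly (fun t : α × ℕ × ℕ => t.2.2) := Poly.snd (Poly.snd Poly.id)
    have hx1 := Poly.succ hx
    have c1 := poly_cc (hQ.comp h0) (hw.toPoly.comp h0) (hh.toPoly.comp h0) hx hy
    have c2 := poly_cc (hQ.comp h0) (hw.toPoly.comp h0) (hh.toPoly.comp h0) hx1 hy
    unfold gE
    refine Poly.ite (Poly.decide_bool (Poly.and c1 c2)) (poly_list1 ?_) (Poly.const [])
    exact Poly.pair (poly_port hx hy (Poly.const 3)) (Poly.pair (poly_port hx hy (Poly.const 0))
      (Poly.pair (poly_port hx1 hy (Poly.const 1)) (poly_port hx1 hy (Poly.const 2))))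
  · refine Poly.flatMap (F := fun a p => gN (cc (Q a) (w a) (h a)) p) (poly_rect hW1 hH) ?_
    have h0 : Poly (fun t : α × ℕ × ℕ => t.1) := Poly.fst Poly.id
    have hx : Poly (fun t : α × ℕ × ℕ => t.2.1) := Poly.fst (Poly.snd Poly.id)
    have hy : Poly (fun t : α × ℕ × ℕ => t.2.2) := Poly.snd (Poly.snd Poly.id)
    have hy1 := Poly.succ hy
    have c1 := poly_cc (hQ.comp h0) (hw.toPoly.comp h0) (hh.toPoly.comp h0) hx hy
    have c2 := poly_cc (hQ.comp h0) (hw.toPoly.comp h0) (hh.toPoly.comp h0) hx hy1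
    unfold gN
    refine Poly.ite (Poly.decide_bool (Poly.and c1 c2)) (poly_list1 ?_) (Poly.const [])
    exact Poly.pair (poly_port hx hy (Poly.const 0)) (Poly.pair (poly_port hx hy (Poly.const 1))
      (Poly.pair (poly_port hx hy1 (Poly.const 2)) (poly_port hx hy1 (Poly.const 3))))

theorem poly_netArcs {ws : α → List (Port × Port)} {gs : α → List (Port × Port × Port × Port)}
    (hws : Poly ws) (hgs : Poly gs) : Poly (fun a => mapArcs code (netArcs (ws a) (gs a))) := by
  unfold mapArcs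
  refine Poly.map (F := fun _ (e : Vx Port × Vx Port) => (code e.1, code e.2)) ?_
    (Poly.pair (poly_code (Poly.fst (Poly.snd Poly.id))) (poly_code (Poly.snd (Poly.snd Poly.id))))
  unfold netArcs
  have v : ∀ {β : Type} [TEnc β] {f : β → Port} (k : ℕ), Poly f →
      Poly (fun t => ((f t, k) : Vx Port)) := fun k hf => Poly.pair hf (Poly.const k)
  refine Poly.append ?_ ?_
  · refine Poly.flatMap (F := fun _ (w : Port × Port) => wireArcs w) hws ?_
    have h1 : Poly (fun t : α × Port × Port => t.2.1) := Poly.fst (Poly.snd Poly.id)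
    have h2 : Poly (fun t : α × Port × Port => t.2.2) := Poly.snd (Poly.snd Poly.id)
    unfold wireArcs
    exact poly_list2 (Poly.pair (v 0 h1) (v 5 h1)) (Poly.pair (v 5 h1) (v 0 h2))
  · refine Poly.flatMap (F := fun _ (g : Port × Port × Port × Port) => gadArcs g) hgs ?_
    have hs : Poly (fun t : α × Port × Port × Port × Port => t.2.1) :=
      Poly.fst (Poly.snd Poly.id)
    have hr : Poly (fun t : α × Port × Port × Port × Port => t.2.2.1) :=
      Poly.fst (Poly.snd (Poly.snd Poly.id))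
    have hp : Poly (fun t : α × Port × Port × Port × Port => t.2.2.2.1) :=
      Poly.fst (Poly.snd (Poly.snd (Poly.snd Poly.id)))
    have hq : Poly (fun t : α × Port × Port × Port × Port => t.2.2.2.2) :=
      Poly.snd (Poly.snd (Poly.snd (Poly.snd Poly.id)))
    unfold gadArcs
    exact Poly.cons (Poly.pair (v 0 hs) (v 2 hs)) (Poly.cons (Poly.pair (v 2 hs) (v 4 hs))
      (Poly.cons (Poly.pair (v 4 hs) (v 1 hs)) (Poly.cons (Poly.pair (v 1 hs) (v 2 hs))
      (Poly.cons (Poly.pair (v 2 hs) (v 3 hs)) (Poly.cons (Poly.pair (v 3 hs) (v 1 hs))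
      (Poly.cons (Poly.pair (v 1 hs) (v 0 hr)) (poly_list2 (Poly.pair (v 0 hp) (v 3 hs))
        (Poly.pair (v 3 hs) (v 0 hq)))))))))

theorem poly_verts {ws : α → List (Port × Port)} {gs : α → List (Port × Port × Port × Port)}
    (hws : Poly ws) (hgs : Poly gs) : Poly (fun a => (verts (ws a) (gs a)).map code) := by
  refine Poly.map (F := fun _ (v : Vx Port) => code v) ?_ (poly_code (Poly.snd Poly.id))
  unfold verts
  have v : ∀ {β : Type} [TEnc β] {f : β → Port} (k : ℕ), Poly f →
      Poly (fun t => ((f t, k) : Vx Port)) := fun k hf => Poly.pair hf (Poly.const k)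
  refine Poly.append ?_ ?_
  · refine Poly.flatMap (F := fun _ (w : Port × Port) => [((w.1, 0) : Vx Port), (w.1, 5)]) hws ?_
    have h1 : Poly (fun t : α × Port × Port => t.2.1) := Poly.fst (Poly.snd Poly.id)
    exact poly_list2 (v 0 h1) (v 5 h1)
  · refine Poly.flatMap (F := fun _ (g : Port × Port × Port × Port) =>
      [((g.1, 0) : Vx Port), (g.1, 1), (g.1, 2), (g.1, 3), (g.1, 4), (g.2.2.1, 0)]) hgs ?_
    have hs : Poly (fun t : α × Port × Port × Port × Port => t.2.1) :=
      Poly.fst (Poly.snd Poly.id)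
    have hp : Poly (fun t : α × Port × Port × Port × Port => t.2.2.2.1) :=
      Poly.fst (Poly.snd (Poly.snd (Poly.snd Poly.id)))
    exact Poly.cons (v 0 hs) (Poly.cons (v 1 hs) (Poly.cons (v 2 hs) (Poly.cons (v 3 hs)
      (poly_list2 (v 4 hs) (v 0 hp)))))

end

/-- The instance for a set of cells in a box. -/
def inst (w h : ℕ) (Q : List Cell) : (List ℕ × List (ℕ × ℕ)) × ℕ :=
  (((verts (gws (cc Q w h) (w + 2) (h + 2)) (ggs (cc Q w h) (w + 2) (h + 2))).map code,
    mapArcs code (netArcs (gws (cc Q w h) (w + 2) (h + 2)) (ggs (cc Q w h) (w + 2) (h + 2)))),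
    (ggs (cc Q w h) (w + 2) (h + 2)).length + 2)

theorem poly_inst {α : Type} [TEnc α] {Q : α → List Cell} {w h : α → ℕ} (hQ : Poly Q)
    (hw : UPoly w) (hh : UPoly h) : Poly (fun a => inst (w a) (h a) (Q a)) := by
  have h1 := poly_gws hQ hw hh
  have h2 := poly_ggs hQ hw hh
  unfold inst
  exact Poly.pair (Poly.pair (poly_verts h1 h2) (poly_netArcs h1 h2))
    (Poly.add (Poly.length h2) (Poly.const 2))

end Pool.Agent.NPC.KS6_48
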