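import Pool.Agent.KS6_48.DCD.Deg

/-!
# Counting used edges
-/

namespace Pool.Agent.KS6_48.DCD

open Finset

section

open Classical

variable (c : ℕ → ℕ → Bool) (W H : ℕ) (U : Port × Port × Port × Port → Prop)

/-- The cells. -/
noncomputable def cells : Finset (ℕ × ℕ) :=
  (rect (W + 1) (H + 1)).toFinset.filter fun p => c p.1 p.2 = true

/-- The number of used horizontal edges. -/
noncomputable def eE : ℕ := ((rect W (H + 1)).toFinset.filter fun p => hE c W H U p.1 p.2).card

/-- The number of used vertical edges. -/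
noncomputable def eV : ℕ := ((rect (W + 1) H).toFinset.filter fun p => hV c W H U p.1 p.2).card

/-- The number of used darts at a cell. -/
noncomputable def deg (p : ℕ × ℕ) : ℕ := ((range 4).filter fun j => UD c W H U p.1 p.2 j).card

variable {c W H U}

theorem mem_cells {p : ℕ × ℕ} : p ∈ cells c W H ↔ p.1 ≤ W ∧ p.2 ≤ H ∧ c p.1 p.2 = true := by
  unfold cells
  rw [mem_filter, List.mem_toFinset, mem_rect]
  constructor
  · rintro ⟨⟨h1, h2⟩, h3⟩
    exact ⟨by omega, by omega, h3⟩
  · rintro ⟨h1, h2, h3⟩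
    exact ⟨⟨by omega, by omega⟩, h3⟩

theorem edge_count (hW : ∀ y ≤ H, c W y = true) {κ : Type} {l : Port → κ}
    (huniv : ∀ f : Port → Prop, Resp (gws c W H) (ggs c W H) U f →
      ∀ x ∈ srcs (gws c W H) (ggs c W H), ∀ y ∈ srcs (gws c W H) (ggs c W H), l x = l y →
      (f x ↔ f y)) :
    eE c W H U + eV c W H U + 2 ≤ (cells c W H).card +
      ((srcs (gws c W H) (ggs c W H)).toFinset.image l).card := by
  have h1 := face_count (c := c) (W := W) (H := H) (U := U) huniv
  have hE' : ((rect W (H + 1)).toFinset.filter fun p => joinE c U p.1 p.2).card =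
      ((rect W (H + 1)).toFinset.filter fun p => ¬ c p.1 p.2 = true).card + eE c W H U := by
    unfold eE
    rw [← card_union_of_disjoint]
    · congr 1
      ext p
      simp only [mem_filter, List.mem_toFinset, mem_rect, mem_union]
      simp only [joinE, hE]
      constructor
      · rintro ⟨⟨g1, g2⟩, g3 | ⟨g3, g4⟩⟩
        · exact Or.inl ⟨⟨g1, g2⟩, by simp [g3]⟩
        · by_cases g5 : c p.1 p.2 = true
          · exact Or.inr ⟨⟨g1, g2⟩, g1, by omega, g5, g3, g4⟩
          · exact Or.inl ⟨⟨g1, g2⟩, g5⟩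
      · rintro (⟨g1, g2⟩ | ⟨g1, g2⟩)
        · exact ⟨g1, Or.inl (by simpa using g2)⟩
        · exact ⟨g1, Or.inr g2.2.2.2⟩
    · rw [disjoint_left]
      intro p hp hp'
      rw [mem_filter] at hp hp'
      exact hp.2 hp'.2.2.2.1
  have hN' : ((rect (W + 1) H).toFinset.filter fun p => joinN c U p.1 p.2).card =
      eV c W H U := by
    unfold eV
    congr 1
    ext p
    simp only [mem_filter, List.mem_toFinset, mem_rect]
    simp only [joinN, hV]
    constructor
    · rintro ⟨⟨g1, g2⟩, g3⟩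
      exact ⟨⟨g1, g2⟩, by omega, g2, g3⟩
    · rintro ⟨g1, g2⟩
      exact ⟨g1, g2.2.2⟩
  have hC : (cells c W H).card +
      ((rect W (H + 1)).toFinset.filter fun p => ¬ c p.1 p.2 = true).card =
      (W + 1) * (H + 1) := by
    have h2 : ((rect W (H + 1)).toFinset.filter fun p => ¬ c p.1 p.2 = true) =
        ((rect (W + 1) (H + 1)).toFinset.filter fun p => ¬ c p.1 p.2 = true) := by
      ext p
      simp only [mem_filter, List.mem_toFinset, mem_rect]
      constructor
      · rintro ⟨⟨g1, g2⟩, g3⟩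
        exact ⟨⟨by omega, g2⟩, g3⟩
      · rintro ⟨⟨g1, g2⟩, g3⟩
        refine ⟨⟨?_, g2⟩, g3⟩
        rcases Nat.lt_or_ge p.1 W with h | h
        · exact h
        · have : p.1 = W := by omega
          exact absurd (by rw [this]; exact hW p.2 (by omega)) g3
    rw [h2]
    unfold cells
    rw [card_filter_add_card_filter_not, List.toFinset_card_of_nodup (rect_nodup _ _)]
    simp [rect]
  have e1 : (W + 1) * (H + 1) = W * H + W + H + 1 := by ring
  have e2 : W * (H + 1) = W * H + W := by ring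
  have e3 : (W + 1) * H = W * H + H := by ring
  omega

theorem deg_sum : ∑ p ∈ cells c W H, deg c W H U p = 2 * (eE c W H U + eV c W H U) := by
  have h1 : ∑ p ∈ cells c W H, deg c W H U p =
      ∑ j ∈ range 4, ((cells c W H).filter fun p => UD c W H U p.1 p.2 j).card := by
    simp only [deg, card_filter]
    exact sum_comm
  rw [h1]
  simp only [sum_range_succ, sum_range_zero, zero_add]
  have a0 : ((cells c W H).filter fun p => UD c W H U p.1 p.2 0).card = eE c W H U := by
    unfold eE
    congr 1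
    ext p
    have hU0 : UD c W H U p.1 p.2 0 ↔ hE c W H U p.1 p.2 := by simp [UD]
    simp only [mem_filter, mem_cells, List.mem_toFinset, mem_rect, hU0]
    constructor
    · rintro ⟨_, h⟩
      exact ⟨⟨h.1, by have := h.2.1; omega⟩, h⟩
    · rintro ⟨⟨g1, g2⟩, h⟩
      exact ⟨⟨by omega, by omega, h.2.2.1⟩, h⟩
  have a1 : ((cells c W H).filter fun p => UD c W H U p.1 p.2 1).card = eV c W H U := by
    unfold eV
    congr 1
    ext p
    have hU0 : UD c W H U p.1 p.2 1 ↔ hV c W H U p.1 p.2 := by simp [UD]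
    simp only [mem_filter, mem_cells, List.mem_toFinset, mem_rect, hU0]
    constructor
    · rintro ⟨_, h⟩
      exact ⟨⟨by have := h.1; omega, h.2.1⟩, h⟩
    · rintro ⟨⟨g1, g2⟩, h⟩
      exact ⟨⟨by omega, by omega, h.2.2.1⟩, h⟩
  have a2 : ((cells c W H).filter fun p => UD c W H U p.1 p.2 2).card = eE c W H U := by
    unfold eE
    symm
    refine card_bij (fun p _ => (p.1 + 1, p.2)) ?_ ?_ ?_
    · intro p hp
      rw [mem_filter] at hp
      obtain ⟨_, h⟩ := hp
      rw [mem_filter, mem_cells]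
      exact ⟨⟨by have := h.1; simp only; omega, h.2.1, h.2.2.2.1⟩,
        Or.inr (Or.inr (Or.inl ⟨rfl, p.1, rfl, h⟩))⟩
    · intro p _ p' _ h
      simp only [Prod.mk.injEq, Nat.add_right_cancel_iff] at h
      exact Prod.ext h.1 h.2
    · intro p hp
      rw [mem_filter] at hp
      obtain ⟨hp1, h⟩ := hp
      unfold UD at h
      simp only [OfNat.ofNat_ne_zero, OfNat.ofNat_ne_one, false_and, false_or, true_and,
        Nat.reduceEqDiff, or_false] at h
      obtain ⟨x', hx', h⟩ := h
      refine ⟨(x', p.2), ?_, ?_⟩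
      · rw [mem_filter, List.mem_toFinset, mem_rect]
        exact ⟨⟨h.1, by have := h.2.1; simp only; omega⟩, h⟩
      · exact Prod.ext hx'.symm rfl
  have a3 : ((cells c W H).filter fun p => UD c W H U p.1 p.2 3).card = eV c W H U := by
    unfold eV
    symm
    refine card_bij (fun p _ => (p.1, p.2 + 1)) ?_ ?_ ?_
    · intro p hp
      rw [mem_filter] at hp
      obtain ⟨_, h⟩ := hp
      rw [mem_filter, mem_cells]
      exact ⟨⟨h.1, by have := h.2.1; simp only; omega, h.2.2.2.1⟩,
        Or.inr (Or.inr (Or.inr ⟨rfl, p.2, rfl, h⟩))⟩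
    · intro p _ p' _ h
      simp only [Prod.mk.injEq, Nat.add_right_cancel_iff] at h
      exact Prod.ext h.1 h.2
    · intro p hp
      rw [mem_filter] at hp
      obtain ⟨hp1, h⟩ := hp
      unfold UD at h
      simp only [OfNat.ofNat_ne_zero, OfNat.ofNat_ne_one, false_and, false_or, true_and,
        Nat.reduceEqDiff] at h
      obtain ⟨x', hx', h⟩ := h
      refine ⟨(p.1, x'), ?_, ?_⟩
      · rw [mem_filter, List.mem_toFinset, mem_rect]
        exact ⟨⟨by have := h.1; simp only; omega, h.2.1⟩, h⟩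
      · exact Prod.ext rfl hx'.symm
  rw [a0, a1, a2, a3]
  ring

/-- The two sides of a used dart have different labels. -/
theorem used_ne {κ : Type} {l : Port → κ} (hC : Curves (gws c W H) (ggs c W H) U l)
    {x y j : ℕ} (h : UD c W H U x y j) : l (x, y, (j + 3) % 4) ≠ l (x, y, j) := by
  rcases h with ⟨rfl, h⟩ | ⟨rfl, h⟩ | ⟨rfl, x', rfl, h⟩ | ⟨rfl, y', rfl, h⟩
  · have h1 := hC.sides _ (mem_ggs.2 (Or.inl ⟨x, y, h.1, h.2.1, h.2.2.1, h.2.2.2.1, rfl⟩))
      h.2.2.2.2
    have h2 := resp_used_E hC.resp h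
    simp only at h1
    rw [h2.2] at h1
    exact h1
  · have h1 := hC.sides _ (mem_ggs.2 (Or.inr ⟨x, y, h.1, h.2.1, h.2.2.1, h.2.2.2.1, rfl⟩))
      h.2.2.2.2
    have h2 := resp_used_N hC.resp h
    simp only at h1
    rw [h2.2] at h1
    exact h1
  · have h1 := hC.sides _ (mem_ggs.2 (Or.inl ⟨x', y, h.1, h.2.1, h.2.2.1, h.2.2.2.1, rfl⟩))
      h.2.2.2.2
    have h2 := resp_used_E hC.resp h
    simp only at h1
    rw [h2.1] at h1
    exact h1.symm
  · have h1 := hC.sides _ (mem_ggs.2 (Or.inr ⟨x, y', h.1, h.2.1, h.2.2.1, h.2.2.2.1, rfl⟩))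
      h.2.2.2.2
    have h2 := resp_used_N hC.resp h
    simp only at h1
    rw [h2.1] at h1
    exact h1.symm

end

end Pool.Agent.KS6_48.DCD
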