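import Mathlib

/-!
# Directed cycle decompositions of digraphs given by lists of arcs
-/

namespace Pool.Agent.KS6_48.DCD

variable {α : Type}

/-- The arcs of the closed directed walk through the vertices of the list `c`, in this order. -/
def cycArcs (c : List α) : List (α × α) := c.zip (c.rotate 1)

/-- The arcs listed in `E` (with multiplicities) can be partitioned into the arc sets of at most
`k` directed cycles: closed directed walks of length at least two without repeated vertices. -/
def Decomp (E : List (α × α)) (k : ℕ) : Prop :=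
  ∃ cs : List (List α), cs.length ≤ k ∧ (∀ c ∈ cs, 2 ≤ c.length ∧ c.Nodup) ∧
    (cs.flatMap cycArcs).Perm E

/-- `p` is a plane straight-line drawing of the underlying graph of the digraph with vertices
listed in `V` and arcs listed in `E`: distinct vertices get distinct points, an edge contains no
vertex other than its ends, and edges with different pairs of ends meet in common ends only. -/
def PlaneDrawing (V : List α) (E : List (α × α)) (p : α → ℝ × ℝ) : Prop :=
  (∀ u ∈ V, ∀ v ∈ V, p u = p v → u = v) ∧
  (∀ e ∈ E, ∀ w ∈ V, p w ∈ segment ℝ (p e.1) (p e.2) → w = e.1 ∨ w = e.2) ∧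
  (∀ e ∈ E, ∀ f ∈ E, s(e.1, e.2) ≠ s(f.1, f.2) →
    ∀ z ∈ segment ℝ (p e.1) (p e.2), z ∈ segment ℝ (p f.1) (p f.2) →
      ∃ w, (w = e.1 ∨ w = e.2) ∧ (w = f.1 ∨ w = f.2) ∧ z = p w)

/-- The digraph is planar. -/
def Planar (V : List α) (E : List (α × α)) : Prop := ∃ p : α → ℝ × ℝ, PlaneDrawing V E p

/-- `V` lists the vertices of a digraph without repetition, and `E` its arcs: a loopless digraph
in which parallel arcs are allowed. -/
def IsDigraph (V : List α) (E : List (α × α)) : Prop :=
  V.Nodup ∧ ∀ e ∈ E, e.1 ∈ V ∧ e.2 ∈ V ∧ e.1 ≠ e.2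

/-- Every vertex has as many incoming as outgoing arcs. -/
def Eulerian [DecidableEq α] (V : List α) (E : List (α × α)) : Prop :=
  ∀ v ∈ V, (E.map Prod.fst).count v = (E.map Prod.snd).count v

end Pool.Agent.KS6_48.DCD
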