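import Pool.Agent.KS6_48.DCD.Faces

/-!
# Used edges, degrees and regions
-/

namespace Pool.Agent.KS6_48.DCD

open Finset

variable (c : ℕ → ℕ → Bool) (W H : ℕ) (U : Port × Port × Port × Port → Prop)

/-- Used horizontal edges. -/
def hE (x y : ℕ) : Prop :=
  x < W ∧ y ≤ H ∧ c x y = true ∧ c (x + 1) y = true ∧
    U ((x, y, 3), (x, y, 0), (x + 1, y, 1), (x + 1, y, 2))

/-- Used vertical edges. -/
def hV (x y : ℕ) : Prop :=
  x ≤ W ∧ y < H ∧ c x y = true ∧ c x (y + 1) = true ∧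
    U ((x, y, 0), (x, y, 1), (x, y + 1, 2), (x, y + 1, 3))

/-- Used darts. -/
def UD (x y j : ℕ) : Prop :=
  (j = 0 ∧ hE c W H U x y) ∨ (j = 1 ∧ hV c W H U x y) ∨
    (j = 2 ∧ ∃ x', x = x' + 1 ∧ hE c W H U x' y) ∨ (j = 3 ∧ ∃ y', y = y' + 1 ∧ hV c W H U x y')

variable {c W H U}

section resp

variable {T : Type} {f : Port → T} (hf : Resp (gws c W H) (ggs c W H) U f)

include hf

theorem resp_used_E {x y : ℕ} (h : hE c W H U x y) :
    f (x, y, 3) = f (x + 1, y, 2) ∧ f (x + 1, y, 1) = f (x, y, 0) :=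
  hf.2.1 _ (mem_ggs.2 (Or.inl ⟨x, y, h.1, h.2.1, h.2.2.1, h.2.2.2.1, rfl⟩)) h.2.2.2.2

theorem resp_used_N {x y : ℕ} (h : hV c W H U x y) :
    f (x, y, 0) = f (x, y + 1, 3) ∧ f (x, y + 1, 2) = f (x, y, 1) :=
  hf.2.1 _ (mem_ggs.2 (Or.inr ⟨x, y, h.1, h.2.1, h.2.2.1, h.2.2.2.1, rfl⟩)) h.2.2.2.2

theorem resp_E {x y : ℕ} (hx : x ≤ W) (hy : y ≤ H) (hc : c x y = true)
    (h : ¬ hE c W H U x y) : f (x, y, 3) = f (x, y, 0) := by
  by_cases h1 : x = W
  · subst h1
    exact hf.1 ((x, y, 3), (x, y, 0)) (mem_gws.2 (Or.inr (Or.inr (Or.inr (Or.inl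
      ⟨y, hy, Or.inl rfl⟩)))))
  · by_cases h2 : c (x + 1) y = true
    · exact (hf.2.2 _ (mem_ggs.2 (Or.inl ⟨x, y, by omega, hy, hc, h2, rfl⟩))
        (fun hu => h ⟨by omega, hy, hc, h2, hu⟩)).1
    · exact hf.1 ((x, y, 3), (x, y, 0)) (mem_gws.2 (Or.inl
        ⟨x, y, by omega, hy, hc, by simpa using h2, Or.inl rfl⟩))

theorem resp_N {x y : ℕ} (hx : x ≤ W) (hy : y ≤ H)
    (h : ¬ hV c W H U x y) : f (x, y, 0) = f (x, y, 1) := by
  by_cases h1 : y = H
  · subst h1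
    exact hf.1 ((x, y, 0), (x, y, 1)) (mem_gws.2 (Or.inr (Or.inr (Or.inr (Or.inr
      ⟨x, hx, Or.inl rfl⟩)))))
  · by_cases h2 : (c x y && c x (y + 1)) = true
    · rw [Bool.and_eq_true] at h2
      exact (hf.2.2 _ (mem_ggs.2 (Or.inr ⟨x, y, hx, by omega, h2.1, h2.2, rfl⟩))
        (fun hu => h ⟨hx, by omega, h2.1, h2.2, hu⟩)).1
    · exact hf.1 ((x, y, 0), (x, y, 1)) (mem_gws.2 (Or.inr (Or.inr (Or.inl
        ⟨x, y, hx, by omega, by simpa using h2, Or.inl rfl⟩))))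

theorem resp_S {x y : ℕ} (hx : x ≤ W) (hy : y ≤ H)
    (h : ∀ y', y = y' + 1 → ¬ hV c W H U x y') : f (x, y, 2) = f (x, y, 3) := by
  cases y with
  | zero =>
    exact hf.1 ((x, 0, 2), (x, 0, 3)) (mem_gws.2 (Or.inr (Or.inr (Or.inr (Or.inr
      ⟨x, hx, Or.inr rfl⟩)))))
  | succ y =>
    by_cases h2 : (c x y && c x (y + 1)) = true
    · rw [Bool.and_eq_true] at h2
      exact (hf.2.2 _ (mem_ggs.2 (Or.inr ⟨x, y, hx, by omega, h2.1, h2.2, rfl⟩))
        (fun hu => h y rfl ⟨hx, by omega, h2.1, h2.2, hu⟩)).2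
    · exact hf.1 ((x, y + 1, 2), (x, y + 1, 3)) (mem_gws.2 (Or.inr (Or.inr (Or.inl
        ⟨x, y, hx, by omega, by simpa using h2, Or.inr rfl⟩))))

theorem resp_W_aux {y : ℕ} (hy : y ≤ H) : ∀ x ≤ W,
    ((∀ x', x = x' + 1 → ¬ hE c W H U x' y) → f (x, y, 1) = f (x, y, 2)) ∧
    (c x y = false → f (x, y, 0) = f (x, y, 3)) := by
  intro x
  induction x with
  | zero =>
    intro hx
    have h1 : f (0, y, 1) = f (0, y, 2) := hf.1 ((0, y, 1), (0, y, 2)) (mem_gws.2
      (Or.inr (Or.inr (Or.inr (Or.inl ⟨y, hy, Or.inr rfl⟩)))))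
    refine ⟨fun _ => h1, fun hc => ?_⟩
    rw [resp_N hf hx hy (fun h => absurd h.2.2.1 (by simp [hc])), h1]
    exact resp_S hf hx hy (fun y' hy' h => by
      subst hy'
      exact absurd h.2.2.2.1 (by simp [hc]))
  | succ x ih =>
    intro hx
    have ih := ih (by omega)
    have h1 : (∀ x', x + 1 = x' + 1 → ¬ hE c W H U x' y) →
        f (x + 1, y, 1) = f (x + 1, y, 2) := by
      intro h
      by_cases h2 : c x y = true
      · by_cases h3 : c (x + 1) y = true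
        · exact (hf.2.2 _ (mem_ggs.2 (Or.inl ⟨x, y, by omega, hy, h2, h3, rfl⟩))
            (fun hu => h x rfl ⟨by omega, hy, h2, h3, hu⟩)).2
        · exact hf.1 ((x + 1, y, 1), (x + 1, y, 2)) (mem_gws.2 (Or.inl
            ⟨x, y, by omega, hy, h2, by simpa using h3, Or.inr rfl⟩))
      · have h2' : c x y = false := by simpa using h2
        have h3 : f (x + 1, y, 1) = f (x, y, 0) := hf.1 ((x + 1, y, 1), (x, y, 0))
          (mem_gws.2 (Or.inr (Or.inl ⟨x, y, by omega, hy, h2', Or.inr rfl⟩)))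
        have h4 : f (x, y, 3) = f (x + 1, y, 2) := hf.1 ((x, y, 3), (x + 1, y, 2))
          (mem_gws.2 (Or.inr (Or.inl ⟨x, y, by omega, hy, h2', Or.inl rfl⟩)))
        rw [h3, ← h4]
        exact ih.2 h2'
    refine ⟨h1, fun hc => ?_⟩
    rw [resp_N hf hx hy (fun h => absurd h.2.2.1 (by simp [hc])), h1 (fun x' hx' h => by
      have : x' = x := by omega
      subst this
      exact absurd h.2.2.2.1 (by simp [hc]))]
    exact resp_S hf hx hy (fun y' hy' h => by
      subst hy'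
      exact absurd h.2.2.2.1 (by simp [hc]))

theorem resp_W {x y : ℕ} (hx : x ≤ W) (hy : y ≤ H)
    (h : ∀ x', x = x' + 1 → ¬ hE c W H U x' y) : f (x, y, 1) = f (x, y, 2) :=
  (resp_W_aux hf hy x hx).1 h

/-- Passing a dart that is not used. -/
theorem resp_unused {x y j : ℕ} (hx : x ≤ W) (hy : y ≤ H) (hc : c x y = true) (hj : j < 4)
    (h : ¬ UD c W H U x y j) : f (x, y, (j + 3) % 4) = f (x, y, j) := by
  have hj' : j = 0 ∨ j = 1 ∨ j = 2 ∨ j = 3 := by omega
  rcases hj' with rfl | rfl | rfl | rfl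
  · exact resp_E hf hx hy hc (fun h' => h (Or.inl ⟨rfl, h'⟩))
  · exact resp_N hf hx hy (fun h' => h (Or.inr (Or.inl ⟨rfl, h'⟩)))
  · exact resp_W hf hx hy (fun x' hx' h' => h (Or.inr (Or.inr (Or.inl ⟨rfl, x', hx', h'⟩))))
  · exact resp_S hf hx hy (fun x' hx' h' => h (Or.inr (Or.inr (Or.inr ⟨rfl, x', hx', h'⟩))))

end resp

/-- The regions: a function that does not depend on the quadrant and is constant on the regions
respects the curves if it is constant along used edges. -/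
theorem resp_region {T : Type} {F : ℕ → ℕ → T} (h1 : ∀ x y, x < W → y ≤ H → c x y = false →
      F x y = F (x + 1) y)
    (h2 : ∀ x y, hE c W H U x y → F x y = F (x + 1) y)
    (h3 : ∀ x y, hV c W H U x y → F x y = F x (y + 1)) :
    Resp (gws c W H) (ggs c W H) U (fun p : Port => F p.1 p.2.1) := by
  refine ⟨?_, ?_, ?_⟩
  · intro w hw
    rw [mem_gws] at hw
    rcases hw with ⟨x, y, g1, g2, g3, g4, rfl | rfl⟩ | ⟨x, y, g1, g2, g3, rfl | rfl⟩ |
      ⟨x, y, g1, g2, g3, rfl | rfl⟩ | ⟨y, g1, rfl | rfl⟩ | ⟨x, g1, rfl | rfl⟩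
    · rfl
    · rfl
    · exact h1 x y g1 g2 g3
    · exact (h1 x y g1 g2 g3).symm
    · rfl
    · rfl
    · rfl
    · rfl
    · rfl
    · rfl
  · intro g hg hu
    rw [mem_ggs] at hg
    rcases hg with ⟨x, y, g1, g2, g3, g4, rfl⟩ | ⟨x, y, g1, g2, g3, g4, rfl⟩
    · have := h2 x y ⟨g1, g2, g3, g4, hu⟩
      exact ⟨this, this.symm⟩
    · have := h3 x y ⟨g1, g2, g3, g4, hu⟩
      exact ⟨this, this.symm⟩
  · intro g hg _
    rw [mem_ggs] at hg
    rcases hg with ⟨x, y, g1, g2, g3, g4, rfl⟩ | ⟨x, y, g1, g2, g3, g4, rfl⟩ <;>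
      exact ⟨rfl, rfl⟩

variable (c W) in
/-- The first cell to the right of `(x, y)`. -/
def rho (x y : ℕ) : ℕ → ℕ
  | 0 => W
  | n + 1 => if c x y then x else rho (x + 1) y n

variable (c W) in
/-- The cell of the region of `(x, y)`. -/
def reg (x y : ℕ) : ℕ := rho c W x y (W - x)

theorem reg_cell {x y : ℕ} (hx : x ≤ W) (hc : c x y = true) : reg c W x y = x := by
  unfold reg
  rcases Nat.eq_or_lt_of_le hx with rfl | h
  · simp [rho]
  · obtain ⟨n, hn⟩ : ∃ n, W - x = n + 1 := ⟨W - x - 1, by omega⟩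
    rw [hn, rho, if_pos hc]

theorem reg_noncell {x y : ℕ} (hx : x < W) (hc : c x y = false) :
    reg c W x y = reg c W (x + 1) y := by
  unfold reg
  obtain ⟨n, hn⟩ : ∃ n, W - x = n + 1 := ⟨W - x - 1, by omega⟩
  have hn2 : W - (x + 1) = n := by omega
  rw [hn, rho, if_neg (by simp [hc]), hn2]

theorem reg_spec {y : ℕ} (hW : c W y = true) : ∀ n x, x + n = W →
    c (reg c W x y) y = true ∧ reg c W x y ≤ W := by
  intro n
  induction n with
  | zero =>
    intro x hx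
    have : x = W := by omega
    subst this
    rw [reg_cell le_rfl hW]
    exact ⟨hW, le_rfl⟩
  | succ n ih =>
    intro x hx
    by_cases hc : c x y = true
    · rw [reg_cell (by omega) hc]
      exact ⟨hc, by omega⟩
    · rw [reg_noncell (by omega) (by simpa using hc)]
      exact ih (x + 1) (by omega)

/-- Sets of cells closed under used edges are separated by the labels. -/
theorem separate {κ : Type} {l : Port → κ}
    (huniv : ∀ f : Port → Prop, Resp (gws c W H) (ggs c W H) U f →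
      ∀ x ∈ srcs (gws c W H) (ggs c W H), ∀ y ∈ srcs (gws c W H) (ggs c W H), l x = l y →
      (f x ↔ f y))
    (X : ℕ → ℕ → Prop)
    (h2 : ∀ x y, hE c W H U x y → (X x y ↔ X (x + 1) y))
    (h3 : ∀ x y, hV c W H U x y → (X x y ↔ X x (y + 1)))
    {x y i x' y' i' : ℕ} (hx : x ≤ W) (hy : y ≤ H) (hi : i < 4) (hx' : x' ≤ W) (hy' : y' ≤ H)
    (hi' : i' < 4) (hc : c x y = true) (hc' : c x' y' = true)
    (hl : l (x, y, i) = l (x', y', i')) : X x y ↔ X x' y' := by
  have hR : Resp (gws c W H) (ggs c W H) U (fun p : Port => X (reg c W p.1 p.2.1) p.2.1) := by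
    refine resp_region (F := fun x y => X (reg c W x y) y) ?_ ?_ ?_
    · intro x y g1 g2 g3
      simp only [reg_noncell g1 g3]
    · intro x y h
      apply propext
      simp only [reg_cell h.1.le h.2.2.1, reg_cell (show x + 1 ≤ W by have := h.1; omega)
        h.2.2.2.1]
      exact h2 x y h
    · intro x y h
      apply propext
      simp only [reg_cell h.1 h.2.2.1, reg_cell h.1 h.2.2.2.1]
      exact h3 x y h
  have := huniv _ hR _ (mem_gsrcs hx hy hi) _ (mem_gsrcs hx' hy' hi') hl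
  simpa only [reg_cell hx hc, reg_cell hx' hc'] using this

end Pool.Agent.KS6_48.DCD
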