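import Pool.Agent.KS6_48.DCD.Plan

/-!
# The drawing of the network
-/

namespace Pool.Agent.KS6_48.DCD

/-- The position of a vertex. -/
def pos (c : ℕ → ℕ → Bool) (v : Vx Port) : ℕ × ℕ :=
  if v.2 = 0 then
    (if v.1.2.2 = 0 then (8 * v.1.1 + 6, 8 * v.1.2.1 + 6)
    else if v.1.2.2 = 1 then (8 * v.1.1 + 2, 8 * v.1.2.1 + 6)
    else if v.1.2.2 = 2 then (8 * v.1.1 + 2, 8 * v.1.2.1 + 2)
    else (8 * v.1.1 + 6, 8 * v.1.2.1 + 2))
  else if v.2 = 5 then
    (if v.1.2.2 = 0 then (8 * v.1.1 + 4, 8 * v.1.2.1 + 7)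
    else if v.1.2.2 = 1 then
      (if 0 < v.1.1 ∧ c (v.1.1 - 1) v.1.2.1 = false then (8 * v.1.1 + 0, 8 * v.1.2.1 + 6)
      else (8 * v.1.1 + 1, 8 * v.1.2.1 + 4))
    else if v.1.2.2 = 2 then (8 * v.1.1 + 4, 8 * v.1.2.1 + 1)
    else (if c v.1.1 v.1.2.1 = false then (8 * v.1.1 + 8, 8 * v.1.2.1 + 2)
      else (8 * v.1.1 + 7, 8 * v.1.2.1 + 4)))
  else if v.1.2.2 = 3 then
    (if v.2 = 1 then (8 * v.1.1 + 7, 8 * v.1.2.1 + 5)
    else if v.2 = 2 then (8 * v.1.1 + 7, 8 * v.1.2.1 + 3)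
    else if v.2 = 3 then (8 * v.1.1 + 8, 8 * v.1.2.1 + 4)
    else (8 * v.1.1 + 6, 8 * v.1.2.1 + 4))
  else
    (if v.2 = 1 then (8 * v.1.1 + 3, 8 * v.1.2.1 + 7)
    else if v.2 = 2 then (8 * v.1.1 + 5, 8 * v.1.2.1 + 7)
    else if v.2 = 3 then (8 * v.1.1 + 4, 8 * v.1.2.1 + 8)
    else (8 * v.1.1 + 4, 8 * v.1.2.1 + 6))

/-- The kinds of vertices with their offsets. -/
def tab : List ((ℕ × ℕ) × (ℕ × ℕ)) :=
  [((0, 0), (6, 6)), ((1, 0), (2, 6)), ((2, 0), (2, 2)), ((3, 0), (6, 2)),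
    ((0, 5), (4, 7)), ((1, 5), (0, 6)), ((1, 5), (1, 4)), ((2, 5), (4, 1)), ((3, 5), (8, 2)),
    ((3, 5), (7, 4)), ((3, 1), (7, 5)), ((3, 2), (7, 3)), ((3, 3), (8, 4)), ((3, 4), (6, 4)),
    ((0, 1), (3, 7)), ((0, 2), (5, 7)), ((0, 3), (4, 8)), ((0, 4), (4, 6))]

theorem tab_inj : ∀ r ∈ tab, ∀ r' ∈ tab, r.2.1 % 8 = r'.2.1 % 8 → r.2.2 % 8 = r'.2.2 % 8 →
    r = r' := by decide +kernel

theorem pos_tab {c : ℕ → ℕ → Bool} {W H : ℕ} {v : Vx Port}
    (hv : v ∈ verts (gws c W H) (ggs c W H)) :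
    ∃ r ∈ tab, v.1.2.2 = r.1.1 ∧ v.2 = r.1.2 ∧
      pos c v = (8 * v.1.1 + r.2.1, 8 * v.1.2.1 + r.2.2) := by
  obtain ⟨⟨x, y, i⟩, k⟩ := v
  rw [mem_verts] at hv
  simp only at hv
  rcases hv with ⟨rfl, h⟩ | ⟨rfl, w, hw, h⟩ | ⟨hk, g, hg, h⟩
  · have hb := gsrcs_box h
    have hi : i = 0 ∨ i = 1 ∨ i = 2 ∨ i = 3 := by have := hb.2.2; simp only at this; omega
    rcases hi with rfl | rfl | rfl | rfl
    · exact ⟨((0, 0), (6, 6)), by simp [tab], rfl, rfl, rfl⟩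
    · exact ⟨((1, 0), (2, 6)), by simp [tab], rfl, rfl, rfl⟩
    · exact ⟨((2, 0), (2, 2)), by simp [tab], rfl, rfl, rfl⟩
    · exact ⟨((3, 0), (6, 2)), by simp [tab], rfl, rfl, rfl⟩
  · have hb := gsrcs_box (mem_srcs.2 (Or.inl ⟨w, hw, h⟩))
    have hi : i = 0 ∨ i = 1 ∨ i = 2 ∨ i = 3 := by have := hb.2.2; simp only at this; omega
    rcases hi with rfl | rfl | rfl | rfl
    · exact ⟨((0, 5), (4, 7)), by simp [tab], rfl, rfl, rfl⟩
    · by_cases h1 : 0 < x ∧ c (x - 1) y = false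
      · exact ⟨((1, 5), (0, 6)), by simp [tab], rfl, rfl, by simp [pos, h1]⟩
      · exact ⟨((1, 5), (1, 4)), by simp [tab], rfl, rfl, by
          unfold pos
          simp only [OfNat.ofNat_ne_zero, one_ne_zero, if_true, if_false, h1]⟩
    · exact ⟨((2, 5), (4, 1)), by simp [tab], rfl, rfl, rfl⟩
    · by_cases h1 : c x y = false
      · exact ⟨((3, 5), (8, 2)), by simp [tab], rfl, rfl, by simp [pos, h1]⟩
      · exact ⟨((3, 5), (7, 4)), by simp [tab], rfl, rfl, by simp [pos, h1]⟩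
  · rw [mem_ggs] at hg
    have hi : i = 3 ∨ i = 0 := by
      rcases hg with ⟨x', y', _, _, _, _, rfl⟩ | ⟨x', y', _, _, _, _, rfl⟩
      · left
        exact (Prod.mk.inj (Prod.mk.inj h).2).2.symm
      · right
        exact (Prod.mk.inj (Prod.mk.inj h).2).2.symm
    rcases hi with rfl | rfl <;> rcases hk with rfl | rfl | rfl | rfl
    · exact ⟨((3, 1), (7, 5)), by simp [tab], rfl, rfl, rfl⟩
    · exact ⟨((3, 2), (7, 3)), by simp [tab], rfl, rfl, rfl⟩
    · exact ⟨((3, 3), (8, 4)), by simp [tab], rfl, rfl, rfl⟩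
    · exact ⟨((3, 4), (6, 4)), by simp [tab], rfl, rfl, rfl⟩
    · exact ⟨((0, 1), (3, 7)), by simp [tab], rfl, rfl, rfl⟩
    · exact ⟨((0, 2), (5, 7)), by simp [tab], rfl, rfl, rfl⟩
    · exact ⟨((0, 3), (4, 8)), by simp [tab], rfl, rfl, rfl⟩
    · exact ⟨((0, 4), (4, 6)), by simp [tab], rfl, rfl, rfl⟩

theorem pos_inj {c : ℕ → ℕ → Bool} {W H : ℕ} {u v : Vx Port}
    (hu : u ∈ verts (gws c W H) (ggs c W H)) (hv : v ∈ verts (gws c W H) (ggs c W H))
    (h : pos c u = pos c v) : u = v := by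
  obtain ⟨r, hr, h1, h2, h3⟩ := pos_tab hu
  obtain ⟨r', hr', h1', h2', h3'⟩ := pos_tab hv
  rw [h3, h3'] at h
  have e1 := (Prod.mk.inj h).1
  have e2 := (Prod.mk.inj h).2
  have e3 : r = r' := tab_inj r hr r' hr' (by omega) (by omega)
  subst e3
  obtain ⟨⟨x, y, i⟩, k⟩ := u
  obtain ⟨⟨x', y', i'⟩, k'⟩ := v
  simp only at h1 h1' h2 h2' e1 e2
  have e4 : x = x' := by omega
  have e5 : y = y' := by omega
  subst e4 e5 h1 h1' h2 h2'
  rfl

/-- The type of the dart `j` at the point `(x, y)`. -/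
def ty (c : ℕ → ℕ → Bool) (W H x y j : ℕ) : ℕ :=
  if j = 0 then (if x < W then (if c x y = false then 2 else
    if c (x + 1) y = true then 1 else 0) else 0)
  else if j = 1 then (if y < H ∧ c x y = true ∧ c x (y + 1) = true then 1 else 0)
  else if j = 2 then (if 0 < x then (if c (x - 1) y = false then 2 else
    if c x y = true then 1 else 0) else 0)
  else (if 0 < y ∧ c x (y - 1) = true ∧ c x y = true then 1 else 0)

theorem ty_lt (c : ℕ → ℕ → Bool) (W H x y j : ℕ) : ty c W H x y j < 3 := by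
  unfold ty
  split_ifs <;> omega

/-- Every arc has a shape in some tile. -/
theorem arc_shape {c : ℕ → ℕ → Bool} {W H : ℕ} (hW : ∀ y ≤ H, c W y = true)
    {e : Vx Port × Vx Port} (he : e ∈ netArcs (gws c W H) (ggs c W H)) :
    ∃ X Y j, j < 4 ∧ ∃ s ∈ shp j (ty c W H X Y j),
      pos c e.1 = (8 * X + s.1.1, 8 * Y + s.1.2) ∧
      pos c e.2 = (8 * X + s.2.1, 8 * Y + s.2.2) := by
  rw [mem_netArcs] at he
  rcases he with ⟨w, hw, h⟩ | ⟨g, hg, h⟩
  · simp only [wireArcs, List.mem_cons, List.not_mem_nil, or_false] at h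
    rw [mem_gws] at hw
    rcases hw with ⟨x, y, h1, h2, h3, h4, rfl | rfl⟩ | ⟨x, y, h1, h2, h3, rfl | rfl⟩ |
      ⟨x, y, h1, h2, h3, rfl | rfl⟩ | ⟨y, h1, rfl | rfl⟩ | ⟨x, h1, rfl | rfl⟩
    · -- E, plain
      have t : ty c W H x y 0 = 0 := by simp [ty, h1, h3, h4]
      rcases h with rfl | rfl
      · exact ⟨x, y, 0, by omega, ((6, 2), (7, 4)), by rw [t]; simp [shp], rfl,
          by simp [pos, h3]⟩
      · exact ⟨x, y, 0, by omega, ((7, 4), (6, 6)), by rw [t]; simp [shp], by simp [pos, h3],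
          rfl⟩
    · -- W, plain
      have t : ty c W H (x + 1) y 2 = 0 := by simp [ty, h3, h4]
      rcases h with rfl | rfl
      · exact ⟨x + 1, y, 2, by omega, ((2, 6), (1, 4)), by rw [t]; simp [shp], rfl,
          by simp [pos, h3]⟩
      · exact ⟨x + 1, y, 2, by omega, ((1, 4), (2, 2)), by rw [t]; simp [shp],
          by simp [pos, h3], rfl⟩
    · -- contracted, lower
      have t : ty c W H x y 0 = 2 := by simp [ty, h1, h3]
      have t' : ty c W H (x + 1) y 2 = 2 := by simp [ty, h3]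
      rcases h with rfl | rfl
      · exact ⟨x, y, 0, by omega, ((6, 2), (8, 2)), by rw [t]; simp [shp], rfl,
          by simp [pos, h3]⟩
      · exact ⟨x + 1, y, 2, by omega, ((0, 2), (2, 2)), by rw [t']; simp [shp],
          by simp [pos, h3]; omega, rfl⟩
    · -- contracted, upper
      have t : ty c W H x y 0 = 2 := by simp [ty, h1, h3]
      have t' : ty c W H (x + 1) y 2 = 2 := by simp [ty, h3]
      rcases h with rfl | rfl
      · exact ⟨x + 1, y, 2, by omega, ((2, 6), (0, 6)), by rw [t']; simp [shp], rfl,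
          by simp [pos, h3]⟩
      · exact ⟨x, y, 0, by omega, ((8, 6), (6, 6)), by rw [t]; simp [shp],
          by simp [pos, h3]; omega, rfl⟩
    · -- N, plain
      have t : ty c W H x y 1 = 0 := by
        unfold ty
        simp only [one_ne_zero, if_true, if_false]
        rw [if_neg]
        rintro ⟨_, h4, h5⟩
        simp [h4, h5] at h3
      rcases h with rfl | rfl
      · exact ⟨x, y, 1, by omega, ((6, 6), (4, 7)), by rw [t]; simp [shp], rfl, rfl⟩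
      · exact ⟨x, y, 1, by omega, ((4, 7), (2, 6)), by rw [t]; simp [shp], rfl, rfl⟩
    · -- S, plain
      have t : ty c W H x (y + 1) 3 = 0 := by
        unfold ty
        simp only [OfNat.ofNat_ne_zero, OfNat.ofNat_ne_one, Nat.reduceEqDiff, if_false]
        rw [if_neg]
        rintro ⟨_, h4, h5⟩
        rw [Nat.add_sub_cancel] at h4
        simp [h4, h5] at h3
      rcases h with rfl | rfl
      · exact ⟨x, y + 1, 3, by omega, ((2, 2), (4, 1)), by rw [t]; simp [shp], rfl, rfl⟩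
      · exact ⟨x, y + 1, 3, by omega, ((4, 1), (6, 2)), by rw [t]; simp [shp], rfl, rfl⟩
    · have t : ty c W H W y 0 = 0 := by simp [ty]
      have h3 := hW y h1
      rcases h with rfl | rfl
      · exact ⟨W, y, 0, by omega, ((6, 2), (7, 4)), by rw [t]; simp [shp], rfl,
          by simp [pos, h3]⟩
      · exact ⟨W, y, 0, by omega, ((7, 4), (6, 6)), by rw [t]; simp [shp], by simp [pos, h3],
          rfl⟩
    · have t : ty c W H 0 y 2 = 0 := by simp [ty]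
      rcases h with rfl | rfl
      · exact ⟨0, y, 2, by omega, ((2, 6), (1, 4)), by rw [t]; simp [shp], rfl,
          by simp [pos]⟩
      · exact ⟨0, y, 2, by omega, ((1, 4), (2, 2)), by rw [t]; simp [shp],
          by simp [pos], rfl⟩
    · have t : ty c W H x H 1 = 0 := by simp [ty]
      rcases h with rfl | rfl
      · exact ⟨x, H, 1, by omega, ((6, 6), (4, 7)), by rw [t]; simp [shp], rfl, rfl⟩
      · exact ⟨x, H, 1, by omega, ((4, 7), (2, 6)), by rw [t]; simp [shp], rfl, rfl⟩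
    · have t : ty c W H x 0 3 = 0 := by simp [ty]
      rcases h with rfl | rfl
      · exact ⟨x, 0, 3, by omega, ((2, 2), (4, 1)), by rw [t]; simp [shp], rfl, rfl⟩
      · exact ⟨x, 0, 3, by omega, ((4, 1), (6, 2)), by rw [t]; simp [shp], rfl, rfl⟩
  · simp only [gadArcs, List.mem_cons, List.not_mem_nil, or_false] at h
    rw [mem_ggs] at hg
    rcases hg with ⟨x, y, h1, h2, h3, h4, rfl⟩ | ⟨x, y, h1, h2, h3, h4, rfl⟩
    · have t : ty c W H x y 0 = 1 := by simp [ty, h1, h3, h4]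
      have t' : ty c W H (x + 1) y 2 = 1 := by simp [ty, h3, h4]
      rcases h with rfl | rfl | rfl | rfl | rfl | rfl | rfl | rfl | rfl
      · exact ⟨x, y, 0, by omega, ((6, 2), (7, 3)), by rw [t]; simp [shp], rfl, rfl⟩
      · exact ⟨x, y, 0, by omega, ((7, 3), (6, 4)), by rw [t]; simp [shp], rfl, rfl⟩
      · exact ⟨x, y, 0, by omega, ((6, 4), (7, 5)), by rw [t]; simp [shp], rfl, rfl⟩
      · exact ⟨x, y, 0, by omega, ((7, 5), (7, 3)), by rw [t]; simp [shp], rfl, rfl⟩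
      · exact ⟨x, y, 0, by omega, ((7, 3), (8, 4)), by rw [t]; simp [shp], rfl, rfl⟩
      · exact ⟨x, y, 0, by omega, ((8, 4), (7, 5)), by rw [t]; simp [shp], rfl, rfl⟩
      · exact ⟨x, y, 0, by omega, ((7, 5), (6, 6)), by rw [t]; simp [shp], rfl, rfl⟩
      · exact ⟨x + 1, y, 2, by omega, ((2, 6), (0, 4)), by rw [t']; simp [shp], rfl,
          by simp [pos]; omega⟩
      · exact ⟨x + 1, y, 2, by omega, ((0, 4), (2, 2)), by rw [t']; simp [shp],
          by simp [pos]; omega, rfl⟩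
    · have t : ty c W H x y 1 = 1 := by simp [ty, h2, h3, h4]
      have t' : ty c W H x (y + 1) 3 = 1 := by simp [ty, h3, h4]
      rcases h with rfl | rfl | rfl | rfl | rfl | rfl | rfl | rfl | rfl
      · exact ⟨x, y, 1, by omega, ((6, 6), (5, 7)), by rw [t]; simp [shp], rfl, rfl⟩
      · exact ⟨x, y, 1, by omega, ((5, 7), (4, 6)), by rw [t]; simp [shp], rfl, rfl⟩
      · exact ⟨x, y, 1, by omega, ((4, 6), (3, 7)), by rw [t]; simp [shp], rfl, rfl⟩
      · exact ⟨x, y, 1, by omega, ((3, 7), (5, 7)), by rw [t]; simp [shp], rfl, rfl⟩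
      · exact ⟨x, y, 1, by omega, ((5, 7), (4, 8)), by rw [t]; simp [shp], rfl, rfl⟩
      · exact ⟨x, y, 1, by omega, ((4, 8), (3, 7)), by rw [t]; simp [shp], rfl, rfl⟩
      · exact ⟨x, y, 1, by omega, ((3, 7), (2, 6)), by rw [t]; simp [shp], rfl, rfl⟩
      · exact ⟨x, y + 1, 3, by omega, ((2, 2), (4, 0)), by rw [t']; simp [shp], rfl,
          by simp [pos]; omega⟩
      · exact ⟨x, y + 1, 3, by omega, ((4, 0), (6, 2)), by rw [t']; simp [shp],
          by simp [pos]; omega, rfl⟩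

/-- The position as a real point. -/
noncomputable def rpos (c : ℕ → ℕ → Bool) (v : Vx Port) : ℝ × ℝ :=
  (((pos c v).1 : ℝ), ((pos c v).2 : ℝ))

theorem rpos_eq {c : ℕ → ℕ → Bool} {v : Vx Port} {X Y : ℕ} {p : ℕ × ℕ}
    (h : pos c v = (8 * X + p.1, 8 * Y + p.2)) : rpos c v = pt X Y p := by
  unfold rpos pt
  rw [h]

/-- The functional bounds for a segment in a tile. -/
theorem tile_bd {X Y : ℕ} {a b : ℕ × ℕ} {z : ℝ × ℝ}
    (hz : z ∈ segment ℝ (pt X Y a) (pt X Y b)) (a1 : a.1 ≤ 8) (a2 : a.2 ≤ 8) (b1 : b.1 ≤ 8)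
    (b2 : b.2 ≤ 8) (l1 : 0 < a.1 ∨ 0 < b.1) (l2 : 0 < a.2 ∨ 0 < b.2) (u1 : a.1 < 8 ∨ b.1 < 8)
    (u2 : a.2 < 8 ∨ b.2 < 8) :
    (z = pt X Y a ∨ z = pt X Y b ∨ (8 * (X : ℝ) < z.1 ∧ z.1 < 8 * X + 8 ∧ 8 * (Y : ℝ) < z.2 ∧
      z.2 < 8 * Y + 8)) ∧ 8 * (X : ℝ) ≤ z.1 ∧ z.1 ≤ 8 * X + 8 ∧ 8 * (Y : ℝ) ≤ z.2 ∧
      z.2 ≤ 8 * Y + 8 := by
  have hz' := hz
  obtain ⟨s, t, hs, ht, hst, h1, _⟩ := seg_fun hz 0 0
  have A1 : (0 : ℝ) ≤ a.1 ∧ (a.1 : ℝ) ≤ 8 := ⟨by positivity, by exact_mod_cast a1⟩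
  have A2 : (0 : ℝ) ≤ a.2 ∧ (a.2 : ℝ) ≤ 8 := ⟨by positivity, by exact_mod_cast a2⟩
  have B1 : (0 : ℝ) ≤ b.1 ∧ (b.1 : ℝ) ≤ 8 := ⟨by positivity, by exact_mod_cast b1⟩
  have B2 : (0 : ℝ) ≤ b.2 ∧ (b.2 : ℝ) ≤ 8 := ⟨by positivity, by exact_mod_cast b2⟩
  have z1 : z.1 = 8 * X + (s * a.1 + t * b.1) := by
    rw [h1]
    simp only [pt]
    push_cast
    have : s * (8 * (X : ℝ)) + t * (8 * X) = 8 * X := by rw [← add_mul, hst, one_mul]
    linarith
  have z2 : z.2 = 8 * Y + (s * a.2 + t * b.2) := by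
    rw [h1]
    simp only [pt]
    push_cast
    have : s * (8 * (Y : ℝ)) + t * (8 * Y) = 8 * Y := by rw [← add_mul, hst, one_mul]
    linarith
  have hs8 : s * 8 + t * 8 = 8 := by rw [← add_mul, hst, one_mul]
  have m1 : 0 ≤ s * (a.1 : ℝ) := mul_nonneg hs A1.1
  have m2 : 0 ≤ s * (a.2 : ℝ) := mul_nonneg hs A2.1
  have m3 : 0 ≤ t * (b.1 : ℝ) := mul_nonneg ht B1.1
  have m4 : 0 ≤ t * (b.2 : ℝ) := mul_nonneg ht B2.1
  have n1 := mul_le_mul_of_nonneg_left A1.2 hs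
  have n2 := mul_le_mul_of_nonneg_left A2.2 hs
  have n3 := mul_le_mul_of_nonneg_left B1.2 ht
  have n4 := mul_le_mul_of_nonneg_left B2.2 ht
  refine ⟨?_, by linarith, by linarith, by linarith, by linarith⟩
  rcases eq_or_lt_of_le hs with h0 | h0
  · right; left
    have : t = 1 := by linarith
    subst this
    rw [h1, ← h0]
    simp
  · rcases eq_or_lt_of_le ht with h0' | h0'
    · left
      have : s = 1 := by linarith
      subst this
      rw [h1, ← h0']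
      simp
    · right; right
      refine ⟨?_, ?_, ?_, ?_⟩
      · rcases l1 with h | h
        · have := mul_pos h0 (show (0 : ℝ) < a.1 by exact_mod_cast h)
          linarith
        · have := mul_pos h0' (show (0 : ℝ) < b.1 by exact_mod_cast h)
          linarith
      · rcases u1 with h | h
        · have := mul_lt_mul_of_pos_left (show (a.1 : ℝ) < 8 by exact_mod_cast h) h0
          linarith
        · have := mul_lt_mul_of_pos_left (show (b.1 : ℝ) < 8 by exact_mod_cast h) h0'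
          linarith
      · rcases l2 with h | h
        · have := mul_pos h0 (show (0 : ℝ) < a.2 by exact_mod_cast h)
          linarith
        · have := mul_pos h0' (show (0 : ℝ) < b.2 by exact_mod_cast h)
          linarith
      · rcases u2 with h | h
        · have := mul_lt_mul_of_pos_left (show (a.2 : ℝ) < 8 by exact_mod_cast h) h0
          linarith
        · have := mul_lt_mul_of_pos_left (show (b.2 : ℝ) < 8 by exact_mod_cast h) h0'
          linarith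

/-- Interiors of different tiles are disjoint. -/
theorem tile_disj {X Y X' Y' : ℕ} {z : ℝ × ℝ} (hne : ¬ (X = X' ∧ Y = Y'))
    (h : 8 * (X : ℝ) < z.1 ∧ z.1 < 8 * X + 8 ∧ 8 * (Y : ℝ) < z.2 ∧ z.2 < 8 * Y + 8)
    (h' : 8 * (X' : ℝ) ≤ z.1 ∧ z.1 ≤ 8 * X' + 8 ∧ 8 * (Y' : ℝ) ≤ z.2 ∧ z.2 ≤ 8 * Y' + 8) :
    False := by
  obtain ⟨h1, h2, h3, h4⟩ := h
  obtain ⟨h5, h6, h7, h8⟩ := h'
  apply hne
  constructor
  · have e1 : (X : ℝ) < X' + 1 := by linarith
    have e2 : (X' : ℝ) < X + 1 := by linarith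
    have e1' : X < X' + 1 := by exact_mod_cast e1
    have e2' : X' < X + 1 := by exact_mod_cast e2
    omega
  · have e1 : (Y : ℝ) < Y' + 1 := by linarith
    have e2 : (Y' : ℝ) < Y + 1 := by linarith
    have e1' : Y < Y' + 1 := by exact_mod_cast e1
    have e2' : Y' < Y + 1 := by exact_mod_cast e2
    omega

theorem rpos_inj {c : ℕ → ℕ → Bool} {W H : ℕ} {u v : Vx Port}
    (hu : u ∈ verts (gws c W H) (ggs c W H)) (hv : v ∈ verts (gws c W H) (ggs c W H))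
    (h : rpos c u = rpos c v) : u = v := by
  refine pos_inj hu hv ?_
  unfold rpos at h
  have h1 := (Prod.mk.inj h).1
  have h2 := (Prod.mk.inj h).2
  exact Prod.ext (by exact_mod_cast h1) (by exact_mod_cast h2)

/-- Two arcs meet in common ends only. -/
theorem arcs_meet {c : ℕ → ℕ → Bool} {W H : ℕ} (hW : ∀ y ≤ H, c W y = true)
    {e f : Vx Port × Vx Port} (he : e ∈ netArcs (gws c W H) (ggs c W H))
    (hf : f ∈ netArcs (gws c W H) (ggs c W H)) (hne : s(e.1, e.2) ≠ s(f.1, f.2))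
    {z : ℝ × ℝ} (hz : z ∈ segment ℝ (rpos c e.1) (rpos c e.2))
    (hz' : z ∈ segment ℝ (rpos c f.1) (rpos c f.2)) :
    ∃ w, (w = e.1 ∨ w = e.2) ∧ (w = f.1 ∨ w = f.2) ∧ z = rpos c w := by
  have ve := ends_mem gnet he
  have vf := ends_mem gnet hf
  -- it is enough that `z` is an end of both
  have key : (z = rpos c e.1 ∨ z = rpos c e.2) → (z = rpos c f.1 ∨ z = rpos c f.2) →
      ∃ w, (w = e.1 ∨ w = e.2) ∧ (w = f.1 ∨ w = f.2) ∧ z = rpos c w := by
    rintro (h1 | h1) (h2 | h2)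
    · exact ⟨e.1, Or.inl rfl, Or.inl (rpos_inj ve.1 vf.1 (h1.symm.trans h2)), h1⟩
    · exact ⟨e.1, Or.inl rfl, Or.inr (rpos_inj ve.1 vf.2 (h1.symm.trans h2)), h1⟩
    · exact ⟨e.2, Or.inr rfl, Or.inl (rpos_inj ve.2 vf.1 (h1.symm.trans h2)), h1⟩
    · exact ⟨e.2, Or.inr rfl, Or.inr (rpos_inj ve.2 vf.2 (h1.symm.trans h2)), h1⟩
  obtain ⟨X, Y, j, hj, s, hs, s1, s2⟩ := arc_shape hW he
  obtain ⟨X', Y', j', hj', s', hs', s1', s2'⟩ := arc_shape hW hf
  have r1 := rpos_eq s1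
  have r2 := rpos_eq s2
  have r1' := rpos_eq s1'
  have r2' := rpos_eq s2'
  rw [r1, r2] at hz key
  rw [r1', r2'] at hz' key
  by_cases hXY : X = X' ∧ Y = Y'
  · obtain ⟨rfl, rfl⟩ := hXY
    rcases shp_sep hj (ty_lt _ _ _ _ _ _) hj' (ty_lt _ _ _ _ _ _) (fun h => by rw [h]) hs hs'
      with h | ⟨d, h⟩
    · exfalso
      subst h
      have e1 : e.1 = f.1 := rpos_inj ve.1 vf.1 (r1.trans r1'.symm)
      have e2 : e.2 = f.2 := rpos_inj ve.2 vf.2 (r2.trans r2'.symm)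
      exact hne (by rw [e1, e2])
    · obtain ⟨w, h1, h2, h3⟩ := sep_spec h hz hz'
      refine key ?_ ?_
      · rcases h1 with rfl | rfl
        · exact Or.inl h3
        · exact Or.inr h3
      · rcases h2 with rfl | rfl
        · exact Or.inl h3
        · exact Or.inr h3
  · obtain ⟨a1, a2, a3, a4, a5, a6, a7, a8⟩ := shp_in hj (ty_lt _ _ _ _ _ _) hs
    obtain ⟨b1, b2, b3, b4, b5, b6, b7, b8⟩ := shp_in hj' (ty_lt _ _ _ _ _ _) hs'
    obtain ⟨t1, t2⟩ := tile_bd hz a1 a2 a3 a4 a5 a6 a7 a8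
    obtain ⟨t1', t2'⟩ := tile_bd hz' b1 b2 b3 b4 b5 b6 b7 b8
    have h1 : z = pt X Y s.1 ∨ z = pt X Y s.2 := by
      rcases t1 with h | h | h
      · exact Or.inl h
      · exact Or.inr h
      · exact absurd (tile_disj hXY h t2') id
    have h2 : z = pt X' Y' s'.1 ∨ z = pt X' Y' s'.2 := by
      rcases t1' with h | h | h
      · exact Or.inl h
      · exact Or.inr h
      · exact absurd (tile_disj (fun h' => hXY ⟨h'.1.symm, h'.2.symm⟩) h t2) id
    exact key h1 h2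

/-- Every vertex is an end of some arc. -/
theorem vert_end {c : ℕ → ℕ → Bool} {W H : ℕ} {v : Vx Port}
    (hv : v ∈ verts (gws c W H) (ggs c W H)) :
    ∃ e ∈ netArcs (gws c W H) (ggs c W H), v = e.1 := by
  rw [mem_verts] at hv
  obtain ⟨p, k⟩ := v
  simp only at hv
  rcases hv with ⟨rfl, h⟩ | ⟨rfl, w, hw, rfl⟩ | ⟨hk, g, hg, rfl⟩
  · exact ⟨outA (gO c W H) p, outA_mem gnet h, rfl⟩
  · exact ⟨((w.1, 5), (w.2, 0)), wire_mem hw (by simp [wireArcs]), rfl⟩
  · rcases hk with rfl | rfl | rfl | rfl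
    · exact ⟨((g.1, 1), (g.1, 2)), gad_mem hg (by simp [gadArcs]), rfl⟩
    · exact ⟨((g.1, 2), (g.1, 4)), gad_mem hg (by simp [gadArcs]), rfl⟩
    · exact ⟨((g.1, 3), (g.1, 1)), gad_mem hg (by simp [gadArcs]), rfl⟩
    · exact ⟨((g.1, 4), (g.1, 1)), gad_mem hg (by simp [gadArcs]), rfl⟩

/-- The network is planar. -/
theorem net_planar {c : ℕ → ℕ → Bool} {W H : ℕ} (hW : ∀ y ≤ H, c W y = true) :
    PlaneDrawing (verts (gws c W H) (ggs c W H)) (netArcs (gws c W H) (ggs c W H))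
      (rpos c) := by
  refine ⟨fun u hu v hv h => rpos_inj hu hv h, ?_, ?_⟩
  · intro e he w hw hz
    obtain ⟨f, hf, rfl⟩ := vert_end hw
    by_cases hne : s(e.1, e.2) = s(f.1, f.2)
    · rw [Sym2.eq_iff] at hne
      rcases hne with ⟨h1, _⟩ | ⟨_, h2⟩
      · exact Or.inl h1.symm
      · exact Or.inr h2.symm
    · obtain ⟨w, h1, h2, h3⟩ := arcs_meet hW he hf hne hz (left_mem_segment ℝ _ _)
      have : f.1 = w := rpos_inj hw (by
        rcases h1 with rfl | rfl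
        · exact (ends_mem gnet he).1
        · exact (ends_mem gnet he).2) h3
      rw [this]
      exact h1
  · intro e he f hf hne z hz hz'
    exact arcs_meet hW he hf hne hz hz'

end Pool.Agent.KS6_48.DCD
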