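import Pool.Agent.KS6_48.DCD.Grid

/-!
# Counting faces
-/

namespace Pool.Agent.KS6_48.DCD

open Finset

/-- Merging along a list of pairs loses at most one value per pair. -/
theorem exists_merge {V : Type} [Fintype V] [DecidableEq V] (L : List (V × V)) :
    ∃ g : V → V, (∀ p ∈ L, g p.1 = g p.2) ∧
      Fintype.card V ≤ (univ.image g).card + L.length := by
  induction L with
  | nil => exact ⟨id, by simp, by simp⟩
  | cons p L ih =>
    obtain ⟨g, h1, h2⟩ := ih
    let g' : V → V := fun v => if g v = g p.1 then g p.2 else g v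
    refine ⟨g', ?_, ?_⟩
    · intro q hq
      rw [List.mem_cons] at hq
      rcases hq with rfl | hq
      · simp only [g', if_true]
        split_ifs <;> rfl
      · simp only [g', h1 q hq]
    · have h3 : (univ.image g) ⊆ insert (g p.1) (univ.image g') := by
        intro v hv
        rw [mem_image] at hv
        obtain ⟨w, -, rfl⟩ := hv
        rw [mem_insert]
        by_cases h : g w = g p.1
        · exact Or.inl h
        · right
          rw [mem_image]
          exact ⟨w, mem_univ _, by simp only [g', h, if_false]⟩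
      have h4 := (card_le_card h3).trans (card_insert_le _ _)
      rw [List.length_cons]
      omega

/-- The face with number `(x, y)`: the unit squares in the rectangle, and the outer face. -/
def nrm (W H : ℕ) (x y : ℕ) : Option (Fin W × Fin H) :=
  if h : (1 ≤ x ∧ x ≤ W) ∧ (1 ≤ y ∧ y ≤ H) then
    some (⟨x - 1, by omega⟩, ⟨y - 1, by omega⟩) else none

/-- The face at a quadrant. -/
def face (W H : ℕ) (p : Port) : Option (Fin W × Fin H) :=
  if p.2.2 = 0 then nrm W H (p.1 + 1) (p.2.1 + 1)
  else if p.2.2 = 1 then nrm W H p.1 (p.2.1 + 1)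
  else if p.2.2 = 2 then nrm W H p.1 p.2.1
  else nrm W H (p.1 + 1) p.2.1

theorem nrm_zero_left (W H y : ℕ) : nrm W H 0 y = none := by simp [nrm]
theorem nrm_zero_right (W H x : ℕ) : nrm W H x 0 = none := by simp [nrm]
theorem nrm_left (W H y : ℕ) : nrm W H (W + 1) y = none := by simp [nrm]
theorem nrm_right (W H x : ℕ) : nrm W H x (H + 1) = none := by simp [nrm]

theorem face_surj (W H : ℕ) (v : Option (Fin W × Fin H)) :
    ∃ x ≤ W, ∃ y ≤ H, ∃ i < 4, face W H (x, y, i) = v := by
  cases v with
  | none => exact ⟨0, by omega, 0, by omega, 2, by omega, by simp [face, nrm]⟩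
  | some v =>
    obtain ⟨⟨x, hx⟩, ⟨y, hy⟩⟩ := v
    refine ⟨x, by omega, y, by omega, 0, by omega, ?_⟩
    have h : (1 ≤ x + 1 ∧ x + 1 ≤ W) ∧ (1 ≤ y + 1 ∧ y + 1 ≤ H) := by omega
    simp only [face, nrm, if_true, dif_pos h]
    rfl

/-- Joined horizontal edges: edges leaving a point that is not a cell, and used edges. -/
def joinE (c : ℕ → ℕ → Bool) (U : Port × Port × Port × Port → Prop) (x y : ℕ) : Prop :=
  c x y = false ∨
    (c (x + 1) y = true ∧ U ((x, y, 3), (x, y, 0), (x + 1, y, 1), (x + 1, y, 2)))

/-- Joined vertical edges. -/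
def joinN (c : ℕ → ℕ → Bool) (U : Port × Port × Port × Port → Prop) (x y : ℕ) : Prop :=
  c x y = true ∧ c x (y + 1) = true ∧
    U ((x, y, 0), (x, y, 1), (x, y + 1, 2), (x, y + 1, 3))

open Classical in
/-- The count of the labels of the curves by means of the faces. -/
theorem face_count {c : ℕ → ℕ → Bool} {W H : ℕ} {U : Port × Port × Port × Port → Prop}
    {κ : Type} {l : Port → κ}
    (huniv : ∀ f : Port → Prop, Resp (gws c W H) (ggs c W H) U f →
      ∀ x ∈ srcs (gws c W H) (ggs c W H), ∀ y ∈ srcs (gws c W H) (ggs c W H), l x = l y →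
      (f x ↔ f y)) :
    ((rect W (H + 1)).toFinset.filter fun p => joinE c U p.1 p.2).card +
      ((rect (W + 1) H).toFinset.filter fun p => joinN c U p.1 p.2).card + W * H + 1 ≤
      W * (H + 1) + (W + 1) * H +
        ((srcs (gws c W H) (ggs c W H)).toFinset.image l).card := by
  let LE : List (Option (Fin W × Fin H) × Option (Fin W × Fin H)) :=
    ((rect W (H + 1)).filter fun p => decide (¬ joinE c U p.1 p.2)).map fun p =>
      (nrm W H (p.1 + 1) p.2, nrm W H (p.1 + 1) (p.2 + 1))
  let LN : List (Option (Fin W × Fin H) × Option (Fin W × Fin H)) :=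
    ((rect (W + 1) H).filter fun p => decide (¬ joinN c U p.1 p.2)).map fun p =>
      (nrm W H (p.1 + 1) (p.2 + 1), nrm W H p.1 (p.2 + 1))
  obtain ⟨g, hg1, hg2⟩ := exists_merge (LE ++ LN)
  have hE : ∀ x y, x < W → y ≤ H → ¬ joinE c U x y →
      g (nrm W H (x + 1) y) = g (nrm W H (x + 1) (y + 1)) := by
    intro x y h1 h2 h3
    refine hg1 (nrm W H (x + 1) y, nrm W H (x + 1) (y + 1)) (List.mem_append_left _ ?_)
    rw [List.mem_map]
    refine ⟨(x, y), ?_, rfl⟩
    rw [List.mem_filter, mem_rect]
    exact ⟨⟨h1, by omega⟩, decide_eq_true h3⟩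
  have hN : ∀ x y, x ≤ W → y < H → ¬ joinN c U x y →
      g (nrm W H (x + 1) (y + 1)) = g (nrm W H x (y + 1)) := by
    intro x y h1 h2 h3
    refine hg1 (nrm W H (x + 1) (y + 1), nrm W H x (y + 1)) (List.mem_append_right _ ?_)
    rw [List.mem_map]
    refine ⟨(x, y), ?_, rfl⟩
    rw [List.mem_filter, mem_rect]
    exact ⟨⟨by simp only; omega, h2⟩, decide_eq_true h3⟩
  have hR : ∀ v, Resp (gws c W H) (ggs c W H) U (fun p => g (face W H p) = v) := by
    intro v
    refine ⟨?_, ?_, ?_⟩
    · intro w hw
      rw [mem_gws] at hw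
      apply congrArg (fun z => z = v)
      rcases hw with ⟨x, y, h1, h2, h3, h4, rfl | rfl⟩ | ⟨x, y, h1, h2, h3, rfl | rfl⟩ |
        ⟨x, y, h1, h2, h3, rfl | rfl⟩ | ⟨y, h1, rfl | rfl⟩ | ⟨x, h1, rfl | rfl⟩
      · simpa [face] using hE x y h1 h2 (by simp [joinE, h3, h4])
      · simpa [face] using (hE x y h1 h2 (by simp [joinE, h3, h4])).symm
      · simp [face]
      · simp [face]
      · have h4 : ¬ joinN c U x y := by
          intro h
          simp [h.1, h.2.1] at h3
        simpa [face] using hN x y h1 h2 h4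
      · have h4 : ¬ joinN c U x y := by
          intro h
          simp [h.1, h.2.1] at h3
        simpa [face] using (hN x y h1 h2 h4).symm
      · simp [face, nrm_left]
      · simp [face, nrm_zero_left]
      · simp [face, nrm_right]
      · simp [face, nrm_zero_right]
    · intro w hw _
      rw [mem_ggs] at hw
      rcases hw with ⟨x, y, h1, h2, h3, h4, rfl⟩ | ⟨x, y, h1, h2, h3, h4, rfl⟩ <;>
        simp [face]
    · intro w hw hU
      rw [mem_ggs] at hw
      rcases hw with ⟨x, y, h1, h2, h3, h4, rfl⟩ | ⟨x, y, h1, h2, h3, h4, rfl⟩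
      · have h5 := hE x y h1 h2 (by simp only [joinE, h3, h4]; simp; exact hU)
        simp [face, h5]
      · have h5 := hN x y h1 h2 (by simp only [joinN, h3, h4]; simp; exact hU)
        simp [face, h5]
  -- the values of `g` inject into the labels
  have hcard : (univ.image g).card ≤
      ((srcs (gws c W H) (ggs c W H)).toFinset.image l).card := by
    have hch : ∀ v, ∃ p ∈ srcs (gws c W H) (ggs c W H), face W H p = v := by
      intro v
      obtain ⟨x, hx, y, hy, i, hi, h⟩ := face_surj W H v
      exact ⟨(x, y, i), mem_gsrcs hx hy hi, h⟩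
    choose φ hφ1 hφ2 using hch
    have hch2 : ∀ v, ∃ w, v ∈ univ.image g → g w = v := by
      intro v
      by_cases hv : v ∈ univ.image g
      · rw [mem_image] at hv
        obtain ⟨w, -, rfl⟩ := hv
        exact ⟨w, fun _ => rfl⟩
      · exact ⟨v, fun h => absurd h hv⟩
    choose ψ hψ using hch2
    refine card_le_card_of_injOn (fun v => l (φ (ψ v))) ?_ ?_
    · intro v hv
      exact mem_image_of_mem _ (List.mem_toFinset.2 (hφ1 _))
    · intro v hv v' hv' h
      have h1 := huniv _ (hR v) _ (hφ1 (ψ v)) _ (hφ1 (ψ v')) h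
      rw [hφ2, hφ2, hψ v hv, hψ v' hv'] at h1
      exact (h1.1 rfl).symm
  have hfc : Fintype.card (Option (Fin W × Fin H)) = W * H + 1 := by simp
  rw [hfc, List.length_append] at hg2
  have hlE : LE.length + ((rect W (H + 1)).toFinset.filter
      fun p => joinE c U p.1 p.2).card = W * (H + 1) := by
    have h1 : LE.length = ((rect W (H + 1)).toFinset.filter
        fun p => ¬ joinE c U p.1 p.2).card := by
      simp only [LE, List.length_map]
      rw [← List.toFinset_card_of_nodup ((rect_nodup _ _).filter _), List.toFinset_filter]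
      congr 1
      ext p
      simp
    rw [h1, add_comm, card_filter_add_card_filter_not,
      List.toFinset_card_of_nodup (rect_nodup _ _)]
    simp [rect]
  have hlN : LN.length + ((rect (W + 1) H).toFinset.filter
      fun p => joinN c U p.1 p.2).card = (W + 1) * H := by
    have h1 : LN.length = ((rect (W + 1) H).toFinset.filter
        fun p => ¬ joinN c U p.1 p.2).card := by
      simp only [LN, List.length_map]
      rw [← List.toFinset_card_of_nodup ((rect_nodup _ _).filter _), List.toFinset_filter]
      congr 1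
      ext p
      simp
    rw [h1, add_comm, card_filter_add_card_filter_not,
      List.toFinset_card_of_nodup (rect_nodup _ _)]
    simp [rect]
  omega

end Pool.Agent.KS6_48.DCD
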