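import Pool.Agent.KS6_48.DCD.Yes2
import Pool.Agent.KS6_48.DCD.Draw
import Pool.Agent.KS6_48.DCD.Comp
import Pool.Graph.R_seed8.R539.PS.Fin0
import Pool.Graph.R_seed8.R539.PS.T1
import Pool.Graph.R_seed8.H243R3.PCP.Raw

/-!
# Hardness of minimum directed cycle decompositions of planar digraphs
-/

namespace Pool.Agent.NPC.KS6_48

open Pool.Agent.R539 Pool.Agent.KS6_48.DCD

/-- The promise for the instances. -/
def Good (I : (List ℕ × List (ℕ × ℕ)) × ℕ) : Prop :=
  IsDigraph I.1.1 I.1.2 ∧ Eulerian I.1.1 I.1.2 ∧ Planar I.1.1 I.1.2 ∧ ∃ k, Decomp I.1.2 k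

theorem net_exists_decomp {P : Type} [DecidableEq P] {ws : List (P × P)}
    {gs : List (P × P × P × P)} {O : P → ℕ × P × P × P} {I : P → ℕ × P}
    (N : Net ws gs O I) : ∃ k, Decomp (netArcs ws gs) k := by
  classical
  let S : Setoid P := ⟨fun p q => ∀ f : P → Prop, Resp ws gs (fun _ => False) f → (f p ↔ f q),
    ⟨fun _ _ _ => Iff.rfl, fun h f hf => (h f hf).symm,
    fun h1 h2 f hf => (h1 f hf).trans (h2 f hf)⟩⟩
  have hC : Curves ws gs (fun _ => False) (Quotient.mk S) := by
    refine ⟨⟨?_, ?_, ?_⟩, ?_, ?_⟩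
    · intro w hw
      exact Quotient.sound (s := S) (fun f hf => by rw [hf.1 w hw])
    · intro g hg hu
      exact hu.elim
    · intro g hg hu
      exact ⟨Quotient.sound (s := S) (fun f hf => by rw [(hf.2.2 g hg hu).1]),
        Quotient.sound (s := S) (fun f hf => by rw [(hf.2.2 g hg hu).2])⟩
    · intro f hf x _ y _ hxy
      have : S.r x y := Quotient.exact hxy
      exact this f hf
    · intro g hg hu
      exact hu.elim
  exact ⟨_, decomp_of_curves N hC le_rfl⟩

theorem inst_good (w h : ℕ) (Q : List Cell) : Good (inst w h Q) := by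
  have hW : ∀ y ≤ h + 2, cc Q w h (w + 2) y = true := fun y _ => by
    rw [cc_iff]
    exact Or.inr (Or.inl rfl)
  refine ⟨isDigraph_map code_inj (net_isDigraph gnet),
    eulerian_of_perm (perm_map (net_perm gnet)), ⟨_, planar_map code_inj (net_planar hW)⟩, ?_⟩
  obtain ⟨k, hk⟩ := net_exists_decomp (gnet (c := cc Q w h) (W := w + 2) (H := h + 2))
  exact ⟨k, (decomp_map code_inj).2 hk⟩

theorem hardPr_decomp : HardPr Good (fun I => Decomp I.1.2 I.2) := by
  refine hardPr_SAT3b.trans (f := fun φ =>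
    inst (8 * φ.length + 10) (78 * φ.length + 12) (cellsOf φ)) ?_ ?_ ?_
  · have hm : UPoly (fun φ : List (Lit ℕ × Lit ℕ × Lit ℕ) => φ.length) :=
      UPoly.length Poly.id
    exact poly_inst R539PS.poly_cellsOf (UPoly.add (UPoly.mul (UPoly.const 8) hm) (UPoly.const 10))
      (UPoly.add (UPoly.mul (UPoly.const 78) hm) (UPoly.const 12))
  · intro φ _
    exact inst_good _ _ _
  · rintro φ ⟨hd, hb, hne⟩
    have hm : 0 < φ.length := List.length_pos_iff.2 hne
    have hn : 6 * φ.length + 1 = 2 * (3 * φ.length) + 1 := by ring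
    have hcells : cellsOf φ = gridC φ.length (2 * (3 * φ.length) + 1) (litJ φ) := by
      rw [cellsOf, hn]
    have hnd : (cellsOf φ).Nodup := gridC_nodup _ _ _
    have hbox : ∀ p ∈ cellsOf φ, p.1 ≤ 8 * φ.length + 10 ∧ p.2 ≤ 78 * φ.length + 12 := by
      intro p hp
      have := gridC_box φ.length (6 * φ.length + 1) (litJ φ) (by omega) p hp
      omega
    have hs : ((0, 0) : Cell) ∈ cellsOf φ := gridC_s _ _ _
    have ht : ((8 * φ.length + 10, 78 * φ.length + 12) : Cell) ∈ cellsOf φ := by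
      rw [hcells, show 78 * φ.length + 12 = 26 * (3 * φ.length) + 12 by ring]
      exact gridC_t _ _ _
    have h1 : SAT3 φ ↔ HamPath (cellsOf φ) (0, 0) (8 * φ.length + 10, 78 * φ.length + 12) := by
      rw [lit_sat φ hd hb, hn, hcells,
        show 78 * φ.length + 12 = 26 * (3 * φ.length) + 12 by ring]
      constructor
      · rintro ⟨x, hx⟩
        exact grid_if hm (litJ φ) x hx
      · intro h
        exact grid_onlyif hm (litJ φ) (by rw [← hcells]; exact hnd) h
    rw [h1, net_iff (by omega) hnd hbox hs ht]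
    exact (decomp_map code_inj).symm

/-- The minimum number of cycles of a directed cycle decomposition. -/
noncomputable def minCycles (E : List (ℕ × ℕ)) : ℕ := sInf {k | Decomp E k}

theorem decomp_mono {α : Type} {E : List (α × α)} {k k' : ℕ} (h : Decomp E k) (hk : k ≤ k') :
    Decomp E k' := by
  obtain ⟨cs, h1, h2, h3⟩ := h
  exact ⟨cs, h1.trans hk, h2, h3⟩

theorem decomp_iff_min {E : List (ℕ × ℕ)} (h : ∃ k, Decomp E k) (k : ℕ) :
    Decomp E k ↔ minCycles E ≤ k := by
  constructor
  · intro h'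
    exact Nat.sInf_le h'
  · intro h'
    have : minCycles E ∈ {k | Decomp E k} := Nat.sInf_mem h
    exact decomp_mono this h'

theorem collapse {F : List Bool → List Bool} (hF : PolyTime F)
    (hFc : ∀ (V : List ℕ) (E : List (ℕ × ℕ)), IsDigraph V E → Eulerian V E → Planar V E →
      F (bits (V, E)) = bits (minCycles E)) : ∀ L, InNP L → InP L := by
  -- the decision function
  let d : (List ℕ × List (ℕ × ℕ)) × ℕ → Bool := fun I =>
    match unbits ℕ (F (bits I.1)) with
    | none => false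
    | some m => decide (m ≤ I.2)
  have hd : Poly d := by
    have h1 : PC (bits : (List ℕ × List (ℕ × ℕ)) × ℕ → List Bool) (fun x : List Bool => x)
        (fun I => bits I.1) := by
      obtain ⟨c, p, h⟩ := (Poly.fst Poly.id :
        Poly (fun I : (List ℕ × List (ℕ × ℕ)) × ℕ => I.1))
      exact ⟨c, p, h⟩
    have h2 : PC (bits : (List ℕ × List (ℕ × ℕ)) × ℕ → List Bool)
        (bits : List Bool → List Bool) (fun I => bits I.1) :=
      PC.comp (g := fun x => x) (f := fun I : (List ℕ × List (ℕ × ℕ)) × ℕ => bits I.1)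
        PC.rawIn h1
    have h3 : Poly (fun I : (List ℕ × List (ℕ × ℕ)) × ℕ => F (bits I.1)) :=
      Poly.comp (g := F) (Pool.Agent.NPC.DP.poly_raw hF) h2
    refine (Poly.optCases (o := fun I : (List ℕ × List (ℕ × ℕ)) × ℕ => unbits ℕ (F (bits I.1)))
      (h := fun I m => decide (m ≤ I.2)) (poly_unbits.comp h3) (Poly.const false)
      (Poly.decide_le (Poly.snd Poly.id) (Poly.snd (Poly.fst Poly.id)))).congr fun I => ?_
    simp only [d]
    cases unbits ℕ (F (bits I.1)) <;> rfl
  refine hardPr_decomp.collapse hd ?_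
  rintro I ⟨h1, h2, h3, h4⟩
  rw [decomp_iff_min h4]
  have h5 : unbits ℕ (F (bits I.1)) = some (minCycles I.1.2) := by
    rw [show I.1 = (I.1.1, I.1.2) from rfl, hFc _ _ h1 h2 h3, unbits_bits]
  simp only [d, h5, decide_eq_true_eq]

end Pool.Agent.NPC.KS6_48
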