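import Pool.Agent.KS6_48.DCD.Grid

/-!
# Straight-line drawings: separation of segments
-/

namespace Pool.Agent.KS6_48.DCD

/-- A point on a segment and a linear functional. -/
theorem seg_fun {p q z : ℝ × ℝ} (hz : z ∈ segment ℝ p q) (α β : ℝ) :
    ∃ a b : ℝ, 0 ≤ a ∧ 0 ≤ b ∧ a + b = 1 ∧ z = (a * p.1 + b * q.1, a * p.2 + b * q.2) ∧
      α * z.1 + β * z.2 = a * (α * p.1 + β * p.2) + b * (α * q.1 + β * q.2) := by
  obtain ⟨a, b, ha, hb, hab, rfl⟩ := hz
  refine ⟨a, b, ha, hb, hab, ?_, ?_⟩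
  · simp [Prod.ext_iff]
  · simp
    ring

theorem seg_lt {p q z : ℝ × ℝ} (hz : z ∈ segment ℝ p q) {α β m : ℝ}
    (hp : α * p.1 + β * p.2 < m) (hq : α * q.1 + β * q.2 ≤ m) :
    α * z.1 + β * z.2 < m ∨ (z = q ∧ α * q.1 + β * q.2 = m) := by
  obtain ⟨a, b, ha, hb, hab, h1, h2⟩ := seg_fun hz α β
  rcases eq_or_lt_of_le ha with h0 | h0
  · have hb1 : b = 1 := by linarith
    subst hb1
    have hzq : z = q := by
      rw [h1, ← h0]
      simp
    rcases eq_or_lt_of_le hq with h3 | h3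
    · exact Or.inr ⟨hzq, h3⟩
    · left
      rw [hzq]
      exact h3
  · left
    rw [h2]
    have e1 := mul_lt_mul_of_pos_left hp h0
    have e2 := mul_le_mul_of_nonneg_left hq hb
    have e3 : a * m + b * m = m := by rw [← add_mul, hab, one_mul]
    linarith

theorem seg_ends {p q r s z : ℝ × ℝ} {α β : ℝ} (hz : z ∈ segment ℝ p q)
    (hz' : z ∈ segment ℝ r s) (hqr : q = r) (h1 : α * p.1 + β * p.2 < α * q.1 + β * q.2)
    (h2 : α * r.1 + β * r.2 < α * s.1 + β * s.2) : z = q := by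
  rcases seg_lt hz h1 le_rfl with h3 | h3
  · have h4 : (-α) * s.1 + (-β) * s.2 < (-α) * r.1 + (-β) * r.2 := by linarith
    rw [segment_symm] at hz'
    rcases seg_lt hz' h4 le_rfl with h5 | h5
    · rw [hqr] at h3
      linarith
    · rw [hqr]
      exact h5.1
  · exact h3.1

theorem seg_disj {p q r s z : ℝ × ℝ} {α β m : ℝ} (hz : z ∈ segment ℝ p q)
    (hz' : z ∈ segment ℝ r s) (h1 : α * p.1 + β * p.2 ≤ m) (h2 : α * q.1 + β * q.2 ≤ m)
    (h3 : m < α * r.1 + β * r.2) (h4 : m < α * s.1 + β * s.2) : False := by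
  obtain ⟨a, b, ha, hb, hab, _, h5⟩ := seg_fun hz α β
  obtain ⟨a', b', ha', hb', hab', _, h6⟩ := seg_fun hz' α β
  have h7 : α * z.1 + β * z.2 ≤ m := by
    rw [h5]
    have e1 := mul_le_mul_of_nonneg_left h1 ha
    have e2 := mul_le_mul_of_nonneg_left h2 hb
    have e3 : a * m + b * m = m := by rw [← add_mul, hab, one_mul]
    linarith
  have h8 : m < α * z.1 + β * z.2 := by
    rw [h6]
    rcases eq_or_lt_of_le ha' with h0 | h0
    · have : b' = 1 := by linarith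
      subst this
      rw [← h0]
      linarith
    · have e1 := mul_lt_mul_of_pos_left h3 h0
      have e2 := mul_le_mul_of_nonneg_left h4.le hb'
      have e3 : a' * m + b' * m = m := by rw [← add_mul, hab', one_mul]
      linarith
  linarith

/-- The value of a functional at an offset. -/
def lf (d : ℤ × ℤ) (p : ℕ × ℕ) : ℤ := d.1 * p.1 + d.2 * p.2

/-- The segments touch at `q = r` only. -/
def touch (d : ℤ × ℤ) (p q r s : ℕ × ℕ) : Bool :=
  decide (q = r) && (decide (lf d p < lf d q) && decide (lf d r < lf d s))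

/-- The segments are separated by the functional. -/
def strictS (d : ℤ × ℤ) (p q r s : ℕ × ℕ) : Bool :=
  decide (lf d p < lf d r) && (decide (lf d p < lf d s) && (decide (lf d q < lf d r) &&
    decide (lf d q < lf d s)))

/-- Separation of the segments `p q` and `r s` up to a common end. -/
def sepD (d : ℤ × ℤ) (p q r s : ℕ × ℕ) : Bool :=
  strictS d p q r s || (touch d p q r s || (touch d q p r s || (touch d p q s r ||
    touch d q p s r)))

/-- The point with offset `p` in the tile `(X, Y)`. -/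
def pt (X Y : ℕ) (p : ℕ × ℕ) : ℝ × ℝ := (((8 * X + p.1 : ℕ) : ℝ), ((8 * Y + p.2 : ℕ) : ℝ))

theorem lf_pt (X Y : ℕ) (d : ℤ × ℤ) (p : ℕ × ℕ) :
    (d.1 : ℝ) * (pt X Y p).1 + (d.2 : ℝ) * (pt X Y p).2 =
      ((d.1 : ℝ) * (8 * X) + (d.2 : ℝ) * (8 * Y)) + ((lf d p : ℤ) : ℝ) := by
  simp only [pt, lf]
  push_cast
  ring

theorem lf_lt {X Y : ℕ} {d : ℤ × ℤ} {p q : ℕ × ℕ} (h : lf d p < lf d q) :
    (d.1 : ℝ) * (pt X Y p).1 + (d.2 : ℝ) * (pt X Y p).2 <
      (d.1 : ℝ) * (pt X Y q).1 + (d.2 : ℝ) * (pt X Y q).2 := by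
  rw [lf_pt, lf_pt]
  have : ((lf d p : ℤ) : ℝ) < ((lf d q : ℤ) : ℝ) := by exact_mod_cast h
  linarith

theorem sep_spec {X Y : ℕ} {d : ℤ × ℤ} {p q r s : ℕ × ℕ} (h : sepD d p q r s = true)
    {z : ℝ × ℝ} (hz : z ∈ segment ℝ (pt X Y p) (pt X Y q))
    (hz' : z ∈ segment ℝ (pt X Y r) (pt X Y s)) :
    ∃ w, (w = p ∨ w = q) ∧ (w = r ∨ w = s) ∧ z = pt X Y w := by
  simp only [sepD, strictS, touch, Bool.or_eq_true, Bool.and_eq_true, decide_eq_true_eq] at h
  rcases h with ⟨h1, h2, h3, h4⟩ | ⟨h1, h2, h3⟩ | ⟨h1, h2, h3⟩ | ⟨h1, h2, h3⟩ | ⟨h1, h2, h3⟩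
  · exfalso
    have e1 := lf_lt (X := X) (Y := Y) h1
    have e2 := lf_lt (X := X) (Y := Y) h2
    have e3 := lf_lt (X := X) (Y := Y) h3
    have e4 := lf_lt (X := X) (Y := Y) h4
    refine seg_disj (α := d.1) (β := d.2)
      (m := max ((d.1 : ℝ) * (pt X Y p).1 + (d.2 : ℝ) * (pt X Y p).2)
        ((d.1 : ℝ) * (pt X Y q).1 + (d.2 : ℝ) * (pt X Y q).2)) hz hz'
      (le_max_left _ _) (le_max_right _ _) (max_lt e1 e3) (max_lt e2 e4)
  · subst h1
    exact ⟨q, Or.inr rfl, Or.inl rfl, seg_ends hz hz' rfl (lf_lt h2) (lf_lt h3)⟩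
  · subst h1
    rw [segment_symm] at hz
    exact ⟨p, Or.inl rfl, Or.inl rfl, seg_ends hz hz' rfl (lf_lt h2) (lf_lt h3)⟩
  · subst h1
    rw [segment_symm ℝ (pt X Y r)] at hz'
    exact ⟨q, Or.inr rfl, Or.inr rfl, seg_ends hz hz' rfl (lf_lt h2) (lf_lt h3)⟩
  · subst h1
    rw [segment_symm] at hz
    rw [segment_symm ℝ (pt X Y r)] at hz'
    exact ⟨p, Or.inl rfl, Or.inr rfl, seg_ends hz hz' rfl (lf_lt h2) (lf_lt h3)⟩

/-- The shapes of the arcs in a tile at the dart `j` of type `t`. -/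
def shp (j t : ℕ) : List ((ℕ × ℕ) × (ℕ × ℕ)) :=
  if j = 0 then
    (if t = 0 then [((6, 2), (7, 4)), ((7, 4), (6, 6))]
    else if t = 1 then [((6, 2), (7, 3)), ((7, 3), (6, 4)), ((6, 4), (7, 5)), ((7, 5), (7, 3)),
      ((7, 3), (8, 4)), ((8, 4), (7, 5)), ((7, 5), (6, 6))]
    else [((6, 2), (8, 2)), ((8, 6), (6, 6))])
  else if j = 1 then
    (if t = 0 then [((6, 6), (4, 7)), ((4, 7), (2, 6))]
    else [((6, 6), (5, 7)), ((5, 7), (4, 6)), ((4, 6), (3, 7)), ((3, 7), (5, 7)),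
      ((5, 7), (4, 8)), ((4, 8), (3, 7)), ((3, 7), (2, 6))])
  else if j = 2 then
    (if t = 0 then [((2, 6), (1, 4)), ((1, 4), (2, 2))]
    else if t = 1 then [((2, 6), (0, 4)), ((0, 4), (2, 2))]
    else [((2, 6), (0, 6)), ((0, 2), (2, 2))])
  else
    (if t = 0 then [((2, 2), (4, 1)), ((4, 1), (6, 2))]
    else [((2, 2), (4, 0)), ((4, 0), (6, 2))])

/-- The directions used for the separation. -/
def dirsL : List (ℤ × ℤ) :=
  [(1, 0), (-1, 0), (0, 1), (0, -1), (1, 1), (1, -1), (-1, 1), (-1, -1),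
    (2, 1), (2, -1), (-2, 1), (-2, -1), (1, 2), (1, -2), (-1, 2), (-1, -2),
    (3, 1), (3, -1), (-3, 1), (-3, -1), (1, 3), (1, -3), (-1, 3), (-1, -3),
    (3, 2), (3, -2), (-3, 2), (-3, -2), (2, 3), (2, -3), (-2, 3), (-2, -3)]

/-- The test of a pair of shapes. -/
def okPair (s t : (ℕ × ℕ) × (ℕ × ℕ)) : Bool :=
  decide (s = t) || dirsL.any fun d => sepD d s.1 s.2 t.1 t.2

/-- The test of all pairs. -/
def allOk : Bool :=
  (List.range 4).all fun j => (List.range 3).all fun a => (List.range 4).all fun j' =>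
    (List.range 3).all fun a' => (decide (j = j') && decide (a ≠ a')) ||
      (shp j a).all fun s => (shp j' a').all fun t => okPair s t

theorem allOk_true : allOk = true := by decide +kernel

theorem shp_sep {j a j' a' : ℕ} (hj : j < 4) (ha : a < 3) (hj' : j' < 4) (ha' : a' < 3)
    (hc : j = j' → a = a') {s t : (ℕ × ℕ) × (ℕ × ℕ)} (hs : s ∈ shp j a) (ht : t ∈ shp j' a') :
    s = t ∨ ∃ d, sepD d s.1 s.2 t.1 t.2 = true := by
  have h := allOk_true
  unfold allOk at h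
  rw [List.all_eq_true] at h
  have h := h j (List.mem_range.2 hj)
  rw [List.all_eq_true] at h
  have h := h a (List.mem_range.2 ha)
  rw [List.all_eq_true] at h
  have h := h j' (List.mem_range.2 hj')
  rw [List.all_eq_true] at h
  have h := h a' (List.mem_range.2 ha')
  rw [Bool.or_eq_true] at h
  rcases h with h | h
  · exfalso
    simp only [Bool.and_eq_true, decide_eq_true_eq] at h
    exact h.2 (hc h.1)
  · rw [List.all_eq_true] at h
    have h := h s hs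
    rw [List.all_eq_true] at h
    have h := h t ht
    simp only [okPair, Bool.or_eq_true, decide_eq_true_eq, List.any_eq_true] at h
    rcases h with h | ⟨d, _, h⟩
    · exact Or.inl h
    · exact Or.inr ⟨d, h⟩

/-- The test that a shape lies in the tile and meets its sides in ends only. -/
def inTile (s : (ℕ × ℕ) × (ℕ × ℕ)) : Bool :=
  decide (s.1.1 ≤ 8) && (decide (s.1.2 ≤ 8) && (decide (s.2.1 ≤ 8) && (decide (s.2.2 ≤ 8) &&
    (decide (0 < s.1.1 ∨ 0 < s.2.1) && (decide (0 < s.1.2 ∨ 0 < s.2.2) &&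
    (decide (s.1.1 < 8 ∨ s.2.1 < 8) && decide (s.1.2 < 8 ∨ s.2.2 < 8)))))))

theorem shp_in {j a : ℕ} (hj : j < 4) (ha : a < 3) {s : (ℕ × ℕ) × (ℕ × ℕ)}
    (hs : s ∈ shp j a) :
    s.1.1 ≤ 8 ∧ s.1.2 ≤ 8 ∧ s.2.1 ≤ 8 ∧ s.2.2 ≤ 8 ∧ (0 < s.1.1 ∨ 0 < s.2.1) ∧
      (0 < s.1.2 ∨ 0 < s.2.2) ∧ (s.1.1 < 8 ∨ s.2.1 < 8) ∧ (s.1.2 < 8 ∨ s.2.2 < 8) := by
  have h : ((List.range 4).all fun j => (List.range 3).all fun a =>
      (shp j a).all inTile) = true := by decide +kernel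
  rw [List.all_eq_true] at h
  have h := h j (List.mem_range.2 hj)
  rw [List.all_eq_true] at h
  have h := h a (List.mem_range.2 ha)
  rw [List.all_eq_true] at h
  have h := h s hs
  simpa only [inTile, Bool.and_eq_true, decide_eq_true_eq] using h

end Pool.Agent.KS6_48.DCD
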