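import Pool.Agent.KS6_48.DCD.NetB

/-!
# The network of a set of grid cells
-/

namespace Pool.Agent.KS6_48.DCD

/-- The pairs `(x, y)` with `x < a`, `y < b`. -/
def rect (a b : ℕ) : List (ℕ × ℕ) :=
  (List.range a).flatMap fun x => (List.range b).map fun y => (x, y)

theorem mem_rect {a b : ℕ} {p : ℕ × ℕ} : p ∈ rect a b ↔ p.1 < a ∧ p.2 < b := by
  obtain ⟨x, y⟩ := p
  simp [rect]

theorem rect_nodup (a b : ℕ) : (rect a b).Nodup := by
  unfold rect
  rw [List.nodup_flatMap]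
  refine ⟨fun x _ => (List.nodup_range).map (fun y y' h => (Prod.mk.inj h).2), ?_⟩
  refine List.Pairwise.imp ?_ (List.nodup_range (n := a))
  intro x x' hne p hp hp'
  rw [List.mem_map] at hp hp'
  obtain ⟨y, _, rfl⟩ := hp
  obtain ⟨y', _, h⟩ := hp'
  exact hne (Prod.mk.inj h).1.symm

/-- Ports: `(x, y, i)` is the quadrant `i` at the lattice point `(x, y)`. -/
abbrev Port := ℕ × ℕ × ℕ

variable (c : ℕ → ℕ → Bool) (W H : ℕ)

/-- The wires at the horizontal edge from `(x, y)` to `(x + 1, y)`. -/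
def wE (p : ℕ × ℕ) : List (Port × Port) :=
  if c p.1 p.2 then
    (if c (p.1 + 1) p.2 then [] else
      [((p.1, p.2, 3), (p.1, p.2, 0)), ((p.1 + 1, p.2, 1), (p.1 + 1, p.2, 2))])
  else [((p.1, p.2, 3), (p.1 + 1, p.2, 2)), ((p.1 + 1, p.2, 1), (p.1, p.2, 0))]

/-- The wires at the vertical edge from `(x, y)` to `(x, y + 1)`. -/
def wN (p : ℕ × ℕ) : List (Port × Port) :=
  if c p.1 p.2 && c p.1 (p.2 + 1) then [] else
    [((p.1, p.2, 0), (p.1, p.2, 1)), ((p.1, p.2 + 1, 2), (p.1, p.2 + 1, 3))]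

/-- The wires at the left and right boundary. -/
def wB (y : ℕ) : List (Port × Port) := [((W, y, 3), (W, y, 0)), ((0, y, 1), (0, y, 2))]

/-- The wires at the upper and lower boundary. -/
def wC (x : ℕ) : List (Port × Port) := [((x, H, 0), (x, H, 1)), ((x, 0, 2), (x, 0, 3))]

/-- The gadgets at horizontal edges. -/
def gE (p : ℕ × ℕ) : List (Port × Port × Port × Port) :=
  if c p.1 p.2 && c (p.1 + 1) p.2 then
    [((p.1, p.2, 3), (p.1, p.2, 0), (p.1 + 1, p.2, 1), (p.1 + 1, p.2, 2))] else []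

/-- The gadgets at vertical edges. -/
def gN (p : ℕ × ℕ) : List (Port × Port × Port × Port) :=
  if c p.1 p.2 && c p.1 (p.2 + 1) then
    [((p.1, p.2, 0), (p.1, p.2, 1), (p.1, p.2 + 1, 2), (p.1, p.2 + 1, 3))] else []

/-- All wires. -/
def gws : List (Port × Port) :=
  (rect W (H + 1)).flatMap (wE c) ++ (rect (W + 1) H).flatMap (wN c) ++
    (List.range (H + 1)).flatMap (wB W) ++ (List.range (W + 1)).flatMap (wC H)

/-- All gadgets. -/
def ggs : List (Port × Port × Port × Port) :=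
  (rect W (H + 1)).flatMap (gE c) ++ (rect (W + 1) H).flatMap (gN c)

/-- What follows a port. -/
def gO (p : Port) : ℕ × Port × Port × Port :=
  if p.2.2 = 3 then
    (if p.1 = W then (0, (p.1, p.2.1, 0), (p.1, p.2.1, 0), (p.1, p.2.1, 0)) else
      if c p.1 p.2.1 then
        (if c (p.1 + 1) p.2.1 then
          (1, (p.1, p.2.1, 0), (p.1 + 1, p.2.1, 1), (p.1 + 1, p.2.1, 2))
        else (0, (p.1, p.2.1, 0), (p.1, p.2.1, 0), (p.1, p.2.1, 0)))
      else (0, (p.1 + 1, p.2.1, 2), (p.1 + 1, p.2.1, 2), (p.1 + 1, p.2.1, 2)))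
  else if p.2.2 = 0 then
    (if p.2.1 = H then (0, (p.1, p.2.1, 1), (p.1, p.2.1, 1), (p.1, p.2.1, 1)) else
      if c p.1 p.2.1 && c p.1 (p.2.1 + 1) then
        (1, (p.1, p.2.1, 1), (p.1, p.2.1 + 1, 2), (p.1, p.2.1 + 1, 3))
      else (0, (p.1, p.2.1, 1), (p.1, p.2.1, 1), (p.1, p.2.1, 1)))
  else if p.2.2 = 1 then
    (if p.1 = 0 then (0, (p.1, p.2.1, 2), (p.1, p.2.1, 2), (p.1, p.2.1, 2)) else
      if c (p.1 - 1) p.2.1 then
        (if c p.1 p.2.1 then (2, (p.1 - 1, p.2.1, 3), (p.1 - 1, p.2.1, 3), (p.1 - 1, p.2.1, 3))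
        else (0, (p.1, p.2.1, 2), (p.1, p.2.1, 2), (p.1, p.2.1, 2)))
      else (0, (p.1 - 1, p.2.1, 0), (p.1 - 1, p.2.1, 0), (p.1 - 1, p.2.1, 0)))
  else
    (if p.2.1 = 0 then (0, (p.1, p.2.1, 3), (p.1, p.2.1, 3), (p.1, p.2.1, 3)) else
      if c p.1 (p.2.1 - 1) && c p.1 p.2.1 then
        (2, (p.1, p.2.1 - 1, 0), (p.1, p.2.1 - 1, 0), (p.1, p.2.1 - 1, 0))
      else (0, (p.1, p.2.1, 3), (p.1, p.2.1, 3), (p.1, p.2.1, 3)))

/-- What precedes a port. -/
def gI (p : Port) : ℕ × Port :=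
  if p.2.2 = 0 then
    (if p.1 = W then (0, (p.1, p.2.1, 3)) else
      if c p.1 p.2.1 then
        (if c (p.1 + 1) p.2.1 then (1, (p.1, p.2.1, 3)) else (0, (p.1, p.2.1, 3)))
      else (0, (p.1 + 1, p.2.1, 1)))
  else if p.2.2 = 1 then
    (if p.2.1 = H then (0, (p.1, p.2.1, 0)) else
      if c p.1 p.2.1 && c p.1 (p.2.1 + 1) then (1, (p.1, p.2.1, 0))
      else (0, (p.1, p.2.1, 0)))
  else if p.2.2 = 2 then
    (if p.1 = 0 then (0, (p.1, p.2.1, 1)) else
      if c (p.1 - 1) p.2.1 then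
        (if c p.1 p.2.1 then (2, (p.1 - 1, p.2.1, 3)) else (0, (p.1, p.2.1, 1)))
      else (0, (p.1 - 1, p.2.1, 3)))
  else
    (if p.2.1 = 0 then (0, (p.1, p.2.1, 2)) else
      if c p.1 (p.2.1 - 1) && c p.1 p.2.1 then (2, (p.1, p.2.1 - 1, 0))
      else (0, (p.1, p.2.1, 2)))

variable {c W H}

theorem mem_gws {w : Port × Port} : w ∈ gws c W H ↔
    (∃ x y, x < W ∧ y ≤ H ∧ c x y = true ∧ c (x + 1) y = false ∧
      (w = ((x, y, 3), (x, y, 0)) ∨ w = ((x + 1, y, 1), (x + 1, y, 2)))) ∨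
    (∃ x y, x < W ∧ y ≤ H ∧ c x y = false ∧
      (w = ((x, y, 3), (x + 1, y, 2)) ∨ w = ((x + 1, y, 1), (x, y, 0)))) ∨
    (∃ x y, x ≤ W ∧ y < H ∧ (c x y && c x (y + 1)) = false ∧
      (w = ((x, y, 0), (x, y, 1)) ∨ w = ((x, y + 1, 2), (x, y + 1, 3)))) ∨
    (∃ y, y ≤ H ∧ (w = ((W, y, 3), (W, y, 0)) ∨ w = ((0, y, 1), (0, y, 2)))) ∨
    (∃ x, x ≤ W ∧ (w = ((x, H, 0), (x, H, 1)) ∨ w = ((x, 0, 2), (x, 0, 3)))) := by
  unfold gws
  simp only [List.mem_append, List.mem_flatMap, mem_rect, List.mem_range]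
  constructor
  · rintro (((⟨p, ⟨h1, h2⟩, h3⟩ | ⟨p, ⟨h1, h2⟩, h3⟩) | ⟨y, h1, h3⟩) | ⟨x, h1, h3⟩)
    · unfold wE at h3
      split_ifs at h3 with h4 h5
      · simp at h3
      · left
        exact ⟨p.1, p.2, h1, by omega, h4, by simpa using h5, by simpa using h3⟩
      · right; left
        exact ⟨p.1, p.2, h1, by omega, by simpa using h4, by simpa using h3⟩
    · unfold wN at h3
      split_ifs at h3 with h4
      · simp at h3
      · right; right; left
        exact ⟨p.1, p.2, by omega, h2, by simpa using h4, by simpa using h3⟩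
    · right; right; right; left
      exact ⟨y, by omega, by simpa [wB] using h3⟩
    · right; right; right; right
      exact ⟨x, by omega, by simpa [wC] using h3⟩
  · rintro (⟨x, y, h1, h2, h3, h4, h5⟩ | ⟨x, y, h1, h2, h3, h5⟩ | ⟨x, y, h1, h2, h3, h5⟩ |
      ⟨y, h1, h5⟩ | ⟨x, h1, h5⟩)
    · left; left; left
      exact ⟨(x, y), ⟨h1, by omega⟩, by simp [wE, h3, h4, h5]⟩
    · left; left; left
      exact ⟨(x, y), ⟨h1, by omega⟩, by simp [wE, h3, h5]⟩
    · left; left; right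
      refine ⟨(x, y), ⟨by simp only; omega, h2⟩, ?_⟩
      unfold wN
      simp only [h3]
      simpa using h5
    · left; right
      exact ⟨y, by omega, by simpa [wB] using h5⟩
    · right
      exact ⟨x, by omega, by simpa [wC] using h5⟩

theorem mem_ggs {g : Port × Port × Port × Port} : g ∈ ggs c W H ↔
    (∃ x y, x < W ∧ y ≤ H ∧ c x y = true ∧ c (x + 1) y = true ∧
      g = ((x, y, 3), (x, y, 0), (x + 1, y, 1), (x + 1, y, 2))) ∨
    (∃ x y, x ≤ W ∧ y < H ∧ c x y = true ∧ c x (y + 1) = true ∧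
      g = ((x, y, 0), (x, y, 1), (x, y + 1, 2), (x, y + 1, 3))) := by
  unfold ggs
  simp only [List.mem_append, List.mem_flatMap, mem_rect]
  constructor
  · rintro (⟨p, ⟨h1, h2⟩, h3⟩ | ⟨p, ⟨h1, h2⟩, h3⟩)
    · unfold gE at h3
      split_ifs at h3 with h4
      · rw [Bool.and_eq_true] at h4
        left
        exact ⟨p.1, p.2, h1, by omega, h4.1, h4.2, by simpa using h3⟩
      · simp at h3
    · unfold gN at h3
      split_ifs at h3 with h4
      · rw [Bool.and_eq_true] at h4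
        right
        exact ⟨p.1, p.2, by omega, h2, h4.1, h4.2, by simpa using h3⟩
      · simp at h3
  · rintro (⟨x, y, h1, h2, h3, h4, h5⟩ | ⟨x, y, h1, h2, h3, h4, h5⟩)
    · left
      exact ⟨(x, y), ⟨h1, by omega⟩, by simp [gE, h3, h4, h5]⟩
    · right
      exact ⟨(x, y), ⟨by simp only; omega, h2⟩, by simp [gN, h3, h4, h5]⟩

/-- Every quadrant at a lattice point of the rectangle is a source. -/
theorem mem_gsrcs {x y i : ℕ} (hx : x ≤ W) (hy : y ≤ H) (hi : i < 4) :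
    (x, y, i) ∈ srcs (gws c W H) (ggs c W H) := by
  rw [mem_srcs]
  have hi' : i = 0 ∨ i = 1 ∨ i = 2 ∨ i = 3 := by omega
  rcases hi' with rfl | rfl | rfl | rfl
  · -- to the north
    by_cases h1 : y = H
    · subst h1
      left
      exact ⟨((x, y, 0), (x, y, 1)), mem_gws.2 (Or.inr (Or.inr (Or.inr (Or.inr
        ⟨x, hx, Or.inl rfl⟩)))), rfl⟩
    · by_cases h2 : (c x y && c x (y + 1)) = true
      · rw [Bool.and_eq_true] at h2
        right; left
        exact ⟨_, mem_ggs.2 (Or.inr ⟨x, y, hx, by omega, h2.1, h2.2, rfl⟩), rfl⟩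
      · left
        exact ⟨((x, y, 0), (x, y, 1)), mem_gws.2 (Or.inr (Or.inr (Or.inl
          ⟨x, y, hx, by omega, by simpa using h2, Or.inl rfl⟩))), rfl⟩
  · -- to the west
    by_cases h1 : x = 0
    · subst h1
      left
      exact ⟨((0, y, 1), (0, y, 2)), mem_gws.2 (Or.inr (Or.inr (Or.inr (Or.inl
        ⟨y, hy, Or.inr rfl⟩)))), rfl⟩
    · obtain ⟨x', rfl⟩ : ∃ x', x = x' + 1 := ⟨x - 1, by omega⟩
      by_cases h2 : c x' y = true
      · by_cases h3 : c (x' + 1) y = true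
        · right; right
          exact ⟨_, mem_ggs.2 (Or.inl ⟨x', y, by omega, hy, h2, h3, rfl⟩), rfl⟩
        · left
          exact ⟨((x' + 1, y, 1), (x' + 1, y, 2)), mem_gws.2 (Or.inl
            ⟨x', y, by omega, hy, h2, by simpa using h3, Or.inr rfl⟩), rfl⟩
      · left
        exact ⟨((x' + 1, y, 1), (x', y, 0)), mem_gws.2 (Or.inr (Or.inl
          ⟨x', y, by omega, hy, by simpa using h2, Or.inr rfl⟩)), rfl⟩
  · -- to the south
    by_cases h1 : y = 0
    · subst h1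
      left
      exact ⟨((x, 0, 2), (x, 0, 3)), mem_gws.2 (Or.inr (Or.inr (Or.inr (Or.inr
        ⟨x, hx, Or.inr rfl⟩)))), rfl⟩
    · obtain ⟨y', rfl⟩ : ∃ y', y = y' + 1 := ⟨y - 1, by omega⟩
      by_cases h2 : (c x y' && c x (y' + 1)) = true
      · rw [Bool.and_eq_true] at h2
        right; right
        exact ⟨_, mem_ggs.2 (Or.inr ⟨x, y', hx, by omega, h2.1, h2.2, rfl⟩), rfl⟩
      · left
        exact ⟨((x, y' + 1, 2), (x, y' + 1, 3)), mem_gws.2 (Or.inr (Or.inr (Or.inl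
          ⟨x, y', hx, by omega, by simpa using h2, Or.inr rfl⟩))), rfl⟩
  · -- to the east
    by_cases h1 : x = W
    · subst h1
      left
      exact ⟨((x, y, 3), (x, y, 0)), mem_gws.2 (Or.inr (Or.inr (Or.inr (Or.inl
        ⟨y, hy, Or.inl rfl⟩)))), rfl⟩
    · by_cases h2 : c x y = true
      · by_cases h3 : c (x + 1) y = true
        · right; left
          exact ⟨_, mem_ggs.2 (Or.inl ⟨x, y, by omega, hy, h2, h3, rfl⟩), rfl⟩
        · left
          exact ⟨((x, y, 3), (x, y, 0)), mem_gws.2 (Or.inl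
            ⟨x, y, by omega, hy, h2, by simpa using h3, Or.inl rfl⟩), rfl⟩
      · left
        exact ⟨((x, y, 3), (x + 1, y, 2)), mem_gws.2 (Or.inr (Or.inl
          ⟨x, y, by omega, hy, by simpa using h2, Or.inl rfl⟩)), rfl⟩

theorem gsrcs_box {p : Port} (hp : p ∈ srcs (gws c W H) (ggs c W H)) :
    p.1 ≤ W ∧ p.2.1 ≤ H ∧ p.2.2 < 4 := by
  rw [mem_srcs] at hp
  rcases hp with ⟨w, hw, rfl⟩ | ⟨g, hg, rfl⟩ | ⟨g, hg, rfl⟩
  · rw [mem_gws] at hw
    rcases hw with ⟨x, y, h1, h2, h3, h4, rfl | rfl⟩ | ⟨x, y, h1, h2, h3, rfl | rfl⟩ |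
      ⟨x, y, h1, h2, h3, rfl | rfl⟩ | ⟨y, h1, rfl | rfl⟩ | ⟨x, h1, rfl | rfl⟩ <;>
      simp only <;> omega
  · rw [mem_ggs] at hg
    rcases hg with ⟨x, y, h1, h2, h3, h4, rfl⟩ | ⟨x, y, h1, h2, h3, h4, rfl⟩ <;>
      simp only <;> omega
  · rw [mem_ggs] at hg
    rcases hg with ⟨x, y, h1, h2, h3, h4, rfl⟩ | ⟨x, y, h1, h2, h3, h4, rfl⟩ <;>
      simp only <;> omega

theorem gws_nodup : (gws c W H).Nodup := by
  have key : ∀ {β : Type} (l : List β) (F : β → List (Port × Port)), l.Nodup →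
      (∀ b ∈ l, (F b).Nodup) →
      (∀ b ∈ l, ∀ b' ∈ l, ∀ w ∈ F b, w ∈ F b' → b = b') → (l.flatMap F).Nodup := by
    intro β l F hl h1 h2
    rw [List.nodup_flatMap]
    refine ⟨h1, List.Pairwise.imp_of_mem ?_ hl⟩
    intro b b' hb hb' hne w hw hw'
    exact hne (h2 b hb b' hb' w hw hw')
  have e1 : ∀ p : ℕ × ℕ, ∀ w ∈ wE c p, w.1 = (p.1, p.2, 3) ∨ w.1 = (p.1 + 1, p.2, 1) := by
    intro p w hw
    unfold wE at hw
    split_ifs at hw <;> simp at hw <;> rcases hw with rfl | rfl <;> simp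
  have e2 : ∀ p : ℕ × ℕ, ∀ w ∈ wN c p, w.1 = (p.1, p.2, 0) ∨ w.1 = (p.1, p.2 + 1, 2) := by
    intro p w hw
    unfold wN at hw
    split_ifs at hw <;> simp at hw <;> rcases hw with rfl | rfl <;> simp
  have e3 : ∀ y : ℕ, ∀ w ∈ wB W y, w.1 = (W, y, 3) ∨ w.1 = (0, y, 1) := by
    intro y w hw
    simp only [wB, List.mem_cons, List.not_mem_nil, or_false] at hw
    rcases hw with rfl | rfl <;> simp
  have e4 : ∀ x : ℕ, ∀ w ∈ wC H x, w.1 = (x, H, 0) ∨ w.1 = (x, 0, 2) := by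
    intro y w hw
    simp only [wC, List.mem_cons, List.not_mem_nil, or_false] at hw
    rcases hw with rfl | rfl <;> simp
  unfold gws
  rw [List.nodup_append', List.nodup_append', List.nodup_append']
  refine ⟨⟨⟨?_, ?_, ?_⟩, ?_, ?_⟩, ?_, ?_⟩
  · refine key _ _ (rect_nodup _ _) ?_ ?_
    · intro p _
      unfold wE
      split_ifs <;> simp
    · intro p _ p' _ w hw hw'
      have h1 := e1 p w hw
      have h2 := e1 p' w hw'
      apply Prod.ext <;> rcases h1 with h1 | h1 <;> rw [h1] at h2 <;> simp at h2 <;> omega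
  · refine key _ _ (rect_nodup _ _) ?_ ?_
    · intro p _
      unfold wN
      split_ifs <;> simp
    · intro p _ p' _ w hw hw'
      have h1 := e2 p w hw
      have h2 := e2 p' w hw'
      apply Prod.ext <;> rcases h1 with h1 | h1 <;> rw [h1] at h2 <;> simp at h2 <;> omega
  · intro w hw hw'
    rw [List.mem_flatMap] at hw hw'
    obtain ⟨p, _, hp⟩ := hw
    obtain ⟨p', _, hp'⟩ := hw'
    have h1 := e1 p w hp
    have h2 := e2 p' w hp'
    rcases h1 with h1 | h1 <;> rw [h1] at h2 <;> simp at h2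
  · refine key _ _ List.nodup_range ?_ ?_
    · intro p _
      simp [wB]
    · intro p _ p' _ w hw hw'
      have h1 := e3 p w hw
      have h2 := e3 p' w hw'
      rcases h1 with h1 | h1 <;> rw [h1] at h2 <;> simp at h2 <;> omega
  · intro w hw hw'
    rw [List.mem_flatMap] at hw'
    rw [List.mem_append, List.mem_flatMap, List.mem_flatMap] at hw
    obtain ⟨p', _, hp'⟩ := hw'
    have h2 := e3 p' w hp'
    rcases hw with ⟨p, hpm, hp⟩ | ⟨p, hpm, hp⟩
    · have h1 := e1 p w hp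
      rw [mem_rect] at hpm
      rcases h1 with h1 | h1 <;> rw [h1] at h2 <;> simp at h2
      omega
    · have h1 := e2 p w hp
      rcases h1 with h1 | h1 <;> rw [h1] at h2 <;> simp at h2
  · refine key _ _ List.nodup_range ?_ ?_
    · intro p _
      simp [wC]
    · intro p _ p' _ w hw hw'
      have h1 := e4 p w hw
      have h2 := e4 p' w hw'
      rcases h1 with h1 | h1 <;> rw [h1] at h2 <;> simp at h2 <;> omega
  · intro w hw hw'
    rw [List.mem_flatMap] at hw'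
    rw [List.mem_append, List.mem_append, List.mem_flatMap, List.mem_flatMap,
      List.mem_flatMap] at hw
    obtain ⟨p', _, hp'⟩ := hw'
    have h2 := e4 p' w hp'
    rcases hw with (⟨p, hpm, hp⟩ | ⟨p, hpm, hp⟩) | ⟨p, hpm, hp⟩
    · have h1 := e1 p w hp
      rcases h1 with h1 | h1 <;> rw [h1] at h2 <;> simp at h2
    · have h1 := e2 p w hp
      rw [mem_rect] at hpm
      rcases h1 with h1 | h1 <;> rw [h1] at h2 <;> simp at h2
      omega
    · have h1 := e3 p w hp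
      rcases h1 with h1 | h1 <;> rw [h1] at h2 <;> simp at h2

theorem ggs_nodup : (ggs c W H).Nodup := by
  have key : ∀ {β : Type} (l : List β) (F : β → List (Port × Port × Port × Port)), l.Nodup →
      (∀ b ∈ l, (F b).Nodup) →
      (∀ b ∈ l, ∀ b' ∈ l, ∀ w ∈ F b, w ∈ F b' → b = b') → (l.flatMap F).Nodup := by
    intro β l F hl h1 h2
    rw [List.nodup_flatMap]
    refine ⟨h1, List.Pairwise.imp_of_mem ?_ hl⟩
    intro b b' hb hb' hne w hw hw'
    exact hne (h2 b hb b' hb' w hw hw')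
  have e1 : ∀ p : ℕ × ℕ, ∀ w ∈ gE c p, w.1 = (p.1, p.2, 3) := by
    intro p w hw
    unfold gE at hw
    split_ifs at hw <;> simp at hw
    subst hw
    rfl
  have e2 : ∀ p : ℕ × ℕ, ∀ w ∈ gN c p, w.1 = (p.1, p.2, 0) := by
    intro p w hw
    unfold gN at hw
    split_ifs at hw <;> simp at hw
    subst hw
    rfl
  unfold ggs
  rw [List.nodup_append']
  refine ⟨?_, ?_, ?_⟩
  · refine key _ _ (rect_nodup _ _) ?_ ?_
    · intro p _
      unfold gE
      split_ifs <;> simp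
    · intro p _ p' _ w hw hw'
      have h1 := e1 p w hw
      have h2 := e1 p' w hw'
      rw [h1] at h2
      simp at h2
      exact Prod.ext h2.1 h2.2
  · refine key _ _ (rect_nodup _ _) ?_ ?_
    · intro p _
      unfold gN
      split_ifs <;> simp
    · intro p _ p' _ w hw hw'
      have h1 := e2 p w hw
      have h2 := e2 p' w hw'
      rw [h1] at h2
      simp at h2
      exact Prod.ext h2.1 h2.2
  · intro w hw hw'
    rw [List.mem_flatMap] at hw hw'
    obtain ⟨p, _, hp⟩ := hw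
    obtain ⟨p', _, hp'⟩ := hw'
    have h1 := e1 p w hp
    have h2 := e2 p' w hp'
    rw [h1] at h2
    simp at h2

theorem gnet : Net (gws c W H) (ggs c W H) (gO c W H) (gI c W H) where
  nw := gws_nodup
  ng := ggs_nodup
  Ow := by
    intro w hw
    rw [mem_gws] at hw
    rcases hw with ⟨x, y, h1, h2, h3, h4, rfl | rfl⟩ | ⟨x, y, h1, h2, h3, rfl | rfl⟩ |
      ⟨x, y, h1, h2, h3, rfl | rfl⟩ | ⟨y, h1, rfl | rfl⟩ | ⟨x, h1, rfl | rfl⟩
    · simp [gO, h3, h4]
    · simp [gO, h3, h4]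
    · simp [gO, h3, (show x ≠ W by omega)]
    · simp [gO, h3]
    · unfold gO
      simp only [h3]
      simp
    · unfold gO
      simp only [Nat.add_sub_cancel, h3]
      simp
    · simp [gO]
    · simp [gO]
    · simp [gO]
    · simp [gO]
  Og := by
    intro g hg
    rw [mem_ggs] at hg
    rcases hg with ⟨x, y, h1, h2, h3, h4, rfl⟩ | ⟨x, y, h1, h2, h3, h4, rfl⟩
    · simp [gO, h3, h4, (show x ≠ W by omega)]
    · simp [gO, h3, h4, (show y ≠ H by omega)]
  Op := by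
    intro g hg
    rw [mem_ggs] at hg
    rcases hg with ⟨x, y, h1, h2, h3, h4, rfl⟩ | ⟨x, y, h1, h2, h3, h4, rfl⟩
    · simp [gO, h3, h4]
    · simp [gO, h3, h4]
  Iw := by
    intro w hw
    rw [mem_gws] at hw
    rcases hw with ⟨x, y, h1, h2, h3, h4, rfl | rfl⟩ | ⟨x, y, h1, h2, h3, rfl | rfl⟩ |
      ⟨x, y, h1, h2, h3, rfl | rfl⟩ | ⟨y, h1, rfl | rfl⟩ | ⟨x, h1, rfl | rfl⟩
    · simp [gI, h3, h4]
    · simp [gI, h3, h4]
    · simp [gI, h3]
    · simp [gI, h3, (show x ≠ W by omega)]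
    · unfold gI
      simp only [h3]
      simp
    · unfold gI
      simp only [Nat.add_sub_cancel, h3]
      simp
    · simp [gI]
    · simp [gI]
    · simp [gI]
    · simp [gI]
  Ir := by
    intro g hg
    rw [mem_ggs] at hg
    rcases hg with ⟨x, y, h1, h2, h3, h4, rfl⟩ | ⟨x, y, h1, h2, h3, h4, rfl⟩
    · simp [gI, h3, h4, (show x ≠ W by omega)]
    · simp [gI, h3, h4, (show y ≠ H by omega)]
  Iq := by
    intro g hg
    rw [mem_ggs] at hg
    rcases hg with ⟨x, y, h1, h2, h3, h4, rfl⟩ | ⟨x, y, h1, h2, h3, h4, rfl⟩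
    · simp [gI, h3, h4]
    · simp [gI, h3, h4]
  cw := by
    intro w hw
    rw [mem_gws] at hw
    rcases hw with ⟨x, y, h1, h2, h3, h4, rfl | rfl⟩ | ⟨x, y, h1, h2, h3, rfl | rfl⟩ |
      ⟨x, y, h1, h2, h3, rfl | rfl⟩ | ⟨y, h1, rfl | rfl⟩ | ⟨x, h1, rfl | rfl⟩ <;>
      exact mem_gsrcs (by omega) (by omega) (by omega)
  cr := by
    intro g hg
    rw [mem_ggs] at hg
    rcases hg with ⟨x, y, h1, h2, h3, h4, rfl⟩ | ⟨x, y, h1, h2, h3, h4, rfl⟩ <;>
      exact mem_gsrcs (by omega) (by omega) (by omega)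
  cq := by
    intro g hg
    rw [mem_ggs] at hg
    rcases hg with ⟨x, y, h1, h2, h3, h4, rfl⟩ | ⟨x, y, h1, h2, h3, h4, rfl⟩ <;>
      exact mem_gsrcs (by omega) (by omega) (by omega)

end Pool.Agent.KS6_48.DCD
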