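import Pool.Agent.KS6_48.DCD.Defs

/-!
# Decompositions as labellings of the arcs
-/

namespace Pool.Agent.KS6_48.DCD

variable {α κ : Type}

/-- The classes of the labelling are directed cycles. -/
structure IsLab (E : List (α × α)) (lab : α × α → κ) : Prop where
  /-- every arc has a successor with the same label -/
  succ : ∀ e ∈ E, ∃ e' ∈ E, e'.1 = e.2 ∧ lab e' = lab e
  /-- two arcs of a class have different tails -/
  src : ∀ e ∈ E, ∀ e' ∈ E, lab e = lab e' → e.1 = e'.1 → e = e'
  /-- two arcs of a class have different heads -/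
  tgt : ∀ e ∈ E, ∀ e' ∈ E, lab e = lab e' → e.2 = e'.2 → e = e'
  /-- classes are connected -/
  conn : ∀ f : α × α → Prop, (∀ e ∈ E, ∀ e' ∈ E, e'.1 = e.2 → lab e' = lab e → (f e ↔ f e')) →
    ∀ e ∈ E, ∀ e' ∈ E, lab e = lab e' → (f e ↔ f e')

theorem length_cycArcs (l : List α) : (cycArcs l).length = l.length := by
  simp [cycArcs]

theorem getElem_cycArcs (l : List α) (i : ℕ) (h : i < (cycArcs l).length) :
    (cycArcs l)[i] = (l[i]'(by rwa [length_cycArcs] at h),
      l[(i + 1) % l.length]'(Nat.mod_lt _ (by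
        rw [length_cycArcs] at h; omega))) := by
  simp only [cycArcs, List.getElem_zip, List.getElem_rotate]

theorem mem_cycArcs {l : List α} {e : α × α} : e ∈ cycArcs l ↔
    ∃ i, ∃ h : i < l.length, e = (l[i], l[(i + 1) % l.length]'(Nat.mod_lt _ (by omega))) := by
  rw [List.mem_iff_getElem]
  constructor
  · rintro ⟨i, h, rfl⟩
    exact ⟨i, by rwa [length_cycArcs] at h, getElem_cycArcs l i h⟩
  · rintro ⟨i, h, rfl⟩
    exact ⟨i, by rwa [length_cycArcs], getElem_cycArcs l i _⟩

theorem cycArcs_nodup {l : List α} (hc : l.Nodup) : (cycArcs l).Nodup := by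
  rw [List.nodup_iff_injective_getElem]
  intro i j hij
  have hi := i.2
  have hj := j.2
  beta_reduce at hij
  rw [getElem_cycArcs, getElem_cycArcs] at hij
  have h1 := (Prod.mk.inj hij).1
  have h2 := (List.Nodup.getElem_inj_iff hc).1 h1
  exact Fin.ext h2

/-- From a decomposition to a labelling. -/
theorem lab_of_decomp [DecidableEq α] {E : List (α × α)} {k : ℕ} (hE : E.Nodup)
    (h : Decomp E k) : ∃ lab : α × α → ℕ, IsLab E lab ∧ (E.toFinset.image lab).card ≤ k := by
  obtain ⟨cs, hk, hc, hp⟩ := h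
  have hmem : ∀ e, e ∈ E ↔ ∃ c ∈ cs, e ∈ cycArcs c := by
    intro e
    rw [← hp.mem_iff, List.mem_flatMap]
  have hnd : (cs.flatMap cycArcs).Nodup := hp.nodup_iff.2 hE
  have hdisj : ∀ i j (hi : i < cs.length) (hj : j < cs.length) (e : α × α),
      e ∈ cycArcs cs[i] → e ∈ cycArcs cs[j] → i = j := by
    intro i j hi hj e he he'
    rw [List.nodup_flatMap] at hnd
    have h2 := hnd.2
    rw [List.pairwise_iff_getElem] at h2
    by_contra hne
    rcases Nat.lt_or_gt_of_ne hne with hlt | hlt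
    · exact h2 i j hi hj hlt he he'
    · exact h2 j i hj hi hlt he' he
  classical
  have hex : ∀ e ∈ E, ∃ i, ∃ hi : i < cs.length, e ∈ cycArcs cs[i] := by
    intro e he
    obtain ⟨c, hc1, hc2⟩ := (hmem e).1 he
    obtain ⟨i, hi, rfl⟩ := List.mem_iff_getElem.1 hc1
    exact ⟨i, hi, hc2⟩
  let lab : α × α → ℕ := fun e => if h : ∃ i, ∃ hi : i < cs.length, e ∈ cycArcs cs[i] then
    h.choose else 0
  have hlab : ∀ i (hi : i < cs.length) e, e ∈ cycArcs cs[i] → lab e = i := by
    intro i hi e he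
    have h1 : ∃ i, ∃ hi : i < cs.length, e ∈ cycArcs cs[i] := ⟨i, hi, he⟩
    have h2 : lab e = h1.choose := dif_pos h1
    rw [h2]
    obtain ⟨h3, h4⟩ := h1.choose_spec
    exact hdisj _ _ h3 hi e h4 he
  have hlab' : ∀ e ∈ E, ∃ i, ∃ hi : i < cs.length, e ∈ cycArcs cs[i] ∧ lab e = i := by
    intro e he
    obtain ⟨i, hi, h1⟩ := hex e he
    exact ⟨i, hi, h1, hlab i hi e h1⟩
  refine ⟨lab, ⟨?_, ?_, ?_, ?_⟩, ?_⟩
  · intro e he
    obtain ⟨i, hi, h1, h2⟩ := hlab' e he
    obtain ⟨t, ht, rfl⟩ := mem_cycArcs.1 h1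
    have h3 := Nat.mod_lt (t + 1) (show 0 < cs[i].length by omega)
    refine ⟨(cs[i][(t + 1) % cs[i].length], cs[i][((t + 1) % cs[i].length + 1) % cs[i].length]'(
      Nat.mod_lt _ (by omega))), ?_, rfl, ?_⟩
    · exact (hmem _).2 ⟨cs[i], List.getElem_mem _, mem_cycArcs.2 ⟨_, h3, rfl⟩⟩
    · rw [h2]
      exact hlab i hi _ (mem_cycArcs.2 ⟨_, h3, rfl⟩)
  · intro e he e' he' hl hs
    obtain ⟨i, hi, h1, h2⟩ := hlab' e he
    obtain ⟨j, hj, h1', h2'⟩ := hlab' e' he'
    have hij : i = j := by omega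
    subst hij
    obtain ⟨t, ht, rfl⟩ := mem_cycArcs.1 h1
    obtain ⟨t', ht', rfl⟩ := mem_cycArcs.1 h1'
    have h5 := (List.Nodup.getElem_inj_iff (hc _ (List.getElem_mem hi)).2).1 hs
    subst h5
    rfl
  · intro e he e' he' hl hs
    obtain ⟨i, hi, h1, h2⟩ := hlab' e he
    obtain ⟨j, hj, h1', h2'⟩ := hlab' e' he'
    have hij : i = j := by omega
    subst hij
    obtain ⟨t, ht, rfl⟩ := mem_cycArcs.1 h1
    obtain ⟨t', ht', rfl⟩ := mem_cycArcs.1 h1'
    have h5 := (List.Nodup.getElem_inj_iff (hc _ (List.getElem_mem hi)).2).1 hs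
    have h6 : t = t' := by
      have h7 : (t + 1) % cs[i].length = (t' + 1) % cs[i].length := h5
      rcases Nat.lt_or_ge (t + 1) cs[i].length with h8 | h8
      · rw [Nat.mod_eq_of_lt h8] at h7
        rcases Nat.lt_or_ge (t' + 1) cs[i].length with h9 | h9
        · rw [Nat.mod_eq_of_lt h9] at h7
          omega
        · have h10 : t' + 1 = cs[i].length := by omega
          rw [h10, Nat.mod_self] at h7
          omega
      · have h10 : t + 1 = cs[i].length := by omega
        rw [h10, Nat.mod_self] at h7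
        rcases Nat.lt_or_ge (t' + 1) cs[i].length with h9 | h9
        · rw [Nat.mod_eq_of_lt h9] at h7
          omega
        · omega
    subst h6
    rfl
  · intro f hf e he e' he' hl
    obtain ⟨i, hi, h1, h2⟩ := hlab' e he
    obtain ⟨j, hj, h1', h2'⟩ := hlab' e' he'
    have hij : i = j := by omega
    subst hij
    have key : ∀ t (ht : t < cs[i].length), f (cs[i][t], cs[i][(t + 1) % cs[i].length]'(
        Nat.mod_lt _ (by omega))) ↔ f (cs[i][0]'(by omega), cs[i][(0 + 1) % cs[i].length]'(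
        Nat.mod_lt _ (by omega))) := by
      intro t
      induction t with
      | zero => intro ht; exact Iff.rfl
      | succ t ih =>
        intro ht
        rw [← ih (by omega)]
        have ha : (cs[i][t]'(by omega), cs[i][(t + 1) % cs[i].length]'(
          Nat.mod_lt _ (by omega))) ∈ cycArcs cs[i] := mem_cycArcs.2 ⟨t, by omega, rfl⟩
        have hb : (cs[i][t + 1], cs[i][(t + 1 + 1) % cs[i].length]'(
          Nat.mod_lt _ (by omega))) ∈ cycArcs cs[i] := mem_cycArcs.2 ⟨t + 1, by omega, rfl⟩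
        refine (hf _ ((hmem _).2 ⟨_, List.getElem_mem hi, ha⟩) _
          ((hmem _).2 ⟨_, List.getElem_mem hi, hb⟩) ?_ ?_).symm
        · simp only [Nat.mod_eq_of_lt ht]
        · rw [hlab i hi _ ha, hlab i hi _ hb]
    obtain ⟨t, ht, rfl⟩ := mem_cycArcs.1 h1
    obtain ⟨t', ht', rfl⟩ := mem_cycArcs.1 h1'
    rw [key t ht, key t' ht']
  · calc (E.toFinset.image lab).card ≤ (Finset.range cs.length).card := by
          apply Finset.card_le_card
          intro i hi
          rw [Finset.mem_image] at hi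
          obtain ⟨e, he, rfl⟩ := hi
          obtain ⟨i, hi, _, h2⟩ := hlab' e (List.mem_toFinset.1 he)
          rw [h2]
          exact Finset.mem_range.2 hi
      _ = cs.length := Finset.card_range _
      _ ≤ k := hk

/-- A single class as the arcs of a directed cycle. -/
theorem cycle_of_class {E : List (α × α)} (hloop : ∀ e ∈ E, e.1 ≠ e.2) {lab : α × α → κ}
    (hL : IsLab E lab) (e₀ : α × α) (he₀ : e₀ ∈ E) :
    ∃ l : List α, 2 ≤ l.length ∧ l.Nodup ∧ ∀ e, e ∈ cycArcs l ↔ e ∈ E ∧ lab e = lab e₀ := by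
  classical
  choose nx hnE hn1 hn2 using hL.succ
  let nxt : {e // e ∈ E} → {e // e ∈ E} := fun e => ⟨nx e.1 e.2, hnE e.1 e.2⟩
  have hinj : Function.Injective nxt := by
    intro e e' h
    have h0 : nx e.1 e.2 = nx e'.1 e'.2 := congrArg Subtype.val h
    apply Subtype.ext
    refine hL.tgt _ e.2 _ e'.2 ?_ ?_
    · rw [← hn2 e.1 e.2, ← hn2 e'.1 e'.2, h0]
    · rw [← hn1 e.1 e.2, ← hn1 e'.1 e'.2, h0]
  have hfin : Finite {e // e ∈ E} := List.finite_toSet E
  let x₀ : {e // e ∈ E} := ⟨e₀, he₀⟩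
  have hper : x₀ ∈ Function.periodicPts nxt := by
    rw [Function.injective_iff_periodicPts_eq_univ.1 hinj]
    trivial
  set n := Function.minimalPeriod nxt x₀ with hn
  have hn0 : 0 < n := Function.minimalPeriod_pos_of_mem_periodicPts hper
  have hlab : ∀ i, lab (nxt^[i] x₀).1 = lab e₀ := by
    intro i
    induction i with
    | zero => rfl
    | succ i ih =>
      rw [Function.iterate_succ_apply']
      exact (hn2 _ _).trans ih
  have hstep : ∀ i, (nxt^[i + 1] x₀).1.1 = (nxt^[i] x₀).1.2 := by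
    intro i
    rw [Function.iterate_succ_apply']
    exact hn1 _ _
  have hmod : ∀ i, nxt^[i % n] x₀ = nxt^[i] x₀ := fun i =>
    Function.iterate_mod_minimalPeriod_eq
  have hinj2 : ∀ i < n, ∀ j < n, (nxt^[i] x₀).1.1 = (nxt^[j] x₀).1.1 → i = j := by
    intro i hi j hj h
    have h1 : nxt^[i] x₀ = nxt^[j] x₀ := by
      apply Subtype.ext
      exact hL.src _ (nxt^[i] x₀).2 _ (nxt^[j] x₀).2 (by rw [hlab, hlab]) h
    exact (Function.iterate_injOn_Iio_minimalPeriod hi hj h1)
  let l : List α := (List.range n).map fun i => (nxt^[i] x₀).1.1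
  have hll : l.length = n := by simp [l]
  have hget : ∀ i (h : i < l.length), l[i] = (nxt^[i] x₀).1.1 := by
    intro i h
    simp [l]
  have hmem : ∀ e, e ∈ cycArcs l ↔ ∃ i < n, e = (nxt^[i] x₀).1 := by
    intro e
    rw [mem_cycArcs]
    constructor
    · rintro ⟨i, hi, rfl⟩
      refine ⟨i, hll ▸ hi, ?_⟩
      rw [hget, hget]
      refine Prod.ext rfl ?_
      change (nxt^[(i + 1) % l.length] x₀).1.1 = _
      rw [hll, hmod, hstep]
    · rintro ⟨i, hi, rfl⟩
      refine ⟨i, by omega, ?_⟩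
      rw [hget, hget]
      refine Prod.ext rfl ?_
      change _ = (nxt^[(i + 1) % l.length] x₀).1.1
      rw [hll, hmod, hstep]
  refine ⟨l, ?_, ?_, ?_⟩
  · rw [hll]
    by_contra hlt
    have h1 : n = 1 := by omega
    have h2 : nxt x₀ = x₀ := by
      have := Function.isPeriodicPt_minimalPeriod nxt x₀
      rw [← hn, h1] at this
      exact this
    have h3 : (nxt x₀).1.1 = x₀.1.2 := hn1 _ _
    rw [h2] at h3
    exact hloop _ he₀ h3
  · rw [List.nodup_iff_injective_getElem]
    intro i j hij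
    have h1 : l[i.1] = l[j.1] := hij
    rw [hget, hget] at h1
    exact Fin.ext (hinj2 _ (hll ▸ i.2) _ (hll ▸ j.2) h1)
  · intro e
    rw [hmem]
    constructor
    · rintro ⟨i, _, rfl⟩
      exact ⟨(nxt^[i] x₀).2, hlab i⟩
    · rintro ⟨he, hle⟩
      have := hL.conn (fun e => ∃ i, e = (nxt^[i] x₀).1) ?_ e he e₀ he₀ hle
      · obtain ⟨i, hi⟩ := this.2 ⟨0, rfl⟩
        exact ⟨i % n, Nat.mod_lt _ hn0, by rw [hmod]; exact hi⟩
      · intro e he e' he' h1 h2
        have h3 : e' = nx e he := hL.src _ he' _ (hnE e he) (by rw [h2, hn2]) (by rw [h1, hn1])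
        constructor
        · rintro ⟨i, rfl⟩
          refine ⟨i + 1, ?_⟩
          rw [Function.iterate_succ_apply', h3]
        · rintro ⟨i, hi⟩
          refine ⟨i + (n - 1), ?_⟩
          have h4 : nxt ⟨e, he⟩ = nxt^[i] x₀ := Subtype.ext (by rw [← hi]; exact h3.symm)
          have h5 : nxt^[i + (n - 1) + 1] x₀ = nxt^[i] x₀ := by
            rw [← hmod (i + (n - 1) + 1), ← hmod i]
            congr 1
            rw [show i + (n - 1) + 1 = i + n by omega]
            simp
          rw [Function.iterate_succ_apply', ← h4] at h5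
          exact (congrArg Subtype.val (hinj h5)).symm

/-- From a labelling to a decomposition. -/
theorem decomp_of_lab [DecidableEq α] [DecidableEq κ] {E : List (α × α)} {k : ℕ} (hE : E.Nodup)
    (hloop : ∀ e ∈ E, e.1 ≠ e.2) {lab : α × α → κ}
    (hL : IsLab E lab) (hk : (E.toFinset.image lab).card ≤ k) : Decomp E k := by
  classical
  set I := (E.toFinset.image lab) with hI
  have hrep : ∀ i ∈ I.toList, ∃ e ∈ E, lab e = i := by
    intro i hi
    rw [Finset.mem_toList, hI, Finset.mem_image] at hi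
    obtain ⟨e, he, rfl⟩ := hi
    exact ⟨e, List.mem_toFinset.1 he, rfl⟩
  have hcyc : ∀ i, ∃ l : List α, i ∈ I.toList → 2 ≤ l.length ∧ l.Nodup ∧
      ∀ e, e ∈ cycArcs l ↔ e ∈ E ∧ lab e = i := by
    intro i
    by_cases hi : i ∈ I.toList
    · obtain ⟨e, he, rfl⟩ := hrep i hi
      obtain ⟨l, h1, h2, h3⟩ := cycle_of_class hloop hL e he
      exact ⟨l, fun _ => ⟨h1, h2, h3⟩⟩
    · exact ⟨[], fun h => absurd h hi⟩
  choose cy hcy using hcyc
  refine ⟨I.toList.map cy, ?_, ?_, ?_⟩
  · rw [List.length_map, Finset.length_toList]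
    exact hk
  · intro l hl
    obtain ⟨i, hi, rfl⟩ := List.mem_map.1 hl
    exact ⟨(hcy i hi).1, (hcy i hi).2.1⟩
  · rw [List.perm_ext_iff_of_nodup ?_ hE]
    · intro e
      rw [List.mem_flatMap]
      constructor
      · rintro ⟨l, hl, he⟩
        obtain ⟨i, hi, rfl⟩ := List.mem_map.1 hl
        exact (((hcy i hi).2.2 e).1 he).1
      · intro he
        have hi : lab e ∈ I.toList := by
          rw [Finset.mem_toList, hI]
          exact Finset.mem_image_of_mem _ (List.mem_toFinset.2 he)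
        exact ⟨cy (lab e), List.mem_map_of_mem hi, ((hcy _ hi).2.2 e).2 ⟨he, rfl⟩⟩
    · rw [List.flatMap_map, List.nodup_flatMap]
      refine ⟨fun i hi => cycArcs_nodup (hcy i hi).2.1, ?_⟩
      have hnd : I.toList.Nodup := Finset.nodup_toList _
      refine List.Pairwise.imp_of_mem ?_ hnd
      intro i j hi hj hij e he he'
      exact hij ((((hcy i hi).2.2 e).1 he).2.symm.trans (((hcy j hj).2.2 e).1 he').2)

end Pool.Agent.KS6_48.DCD
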