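import Pool.Agent.KS6_48.DCD.Defs
import Pool.Graph.R_seed8.NPC.Dec

/-!
# Membership in the class of problems with short certificates
-/

namespace Pool.Agent.NPC.KS6_48

open Pool.Agent.KS6_48.DCD

section

variable {α β : Type} [TEnc α] [TEnc β] [DecidableEq β]

theorem poly_count {x : α → β} {l : α → List β} (hx : Poly x) (hl : Poly l) :
    Poly (fun a => (l a).count (x a)) := by
  refine (Poly.length (Poly.filter (p := fun a b => decide (b = x a)) hl
    (Poly.decide_eq (Poly.snd Poly.id) (hx.comp (Poly.fst Poly.id))))).congr fun a => ?_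
  rw [List.count, List.countP_eq_length_filter]
  congr 1

/-- Test for the absence of repetitions. -/
def nodupB (l : List β) : Bool := l.all fun b => decide (l.count b ≤ 1)

theorem nodupB_iff (l : List β) : nodupB l = true ↔ l.Nodup := by
  unfold nodupB
  rw [List.all_eq_true, List.nodup_iff_count_le_one]
  constructor
  · intro h b
    by_cases hb : b ∈ l
    · simpa using h b hb
    · rw [List.count_eq_zero_of_not_mem hb]
      exact Nat.zero_le _
  · intro h b _
    simpa using h b

theorem poly_nodupB {l : α → List β} (hl : Poly l) : Poly (fun a => nodupB (l a)) :=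
  Poly.all (p := fun a b => decide ((l a).count b ≤ 1)) hl
    (Poly.decide_le (poly_count (Poly.snd Poly.id) (hl.comp (Poly.fst Poly.id))) (Poly.const 1))

/-- Test for being a rearrangement. -/
def permB (l l' : List β) : Bool := (l ++ l').all fun b => decide (l.count b = l'.count b)

theorem permB_iff (l l' : List β) : permB l l' = true ↔ l.Perm l' := by
  unfold permB
  rw [List.all_eq_true, List.perm_iff_count]
  constructor
  · intro h b
    by_cases hb : b ∈ l ++ l'
    · simpa using h b hb
    · rw [List.mem_append, not_or] at hb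
      rw [List.count_eq_zero_of_not_mem hb.1, List.count_eq_zero_of_not_mem hb.2]
  · intro h b _
    simpa using h b

theorem poly_permB {l l' : α → List β} (hl : Poly l) (hl' : Poly l') :
    Poly (fun a => permB (l a) (l' a)) :=
  Poly.all (p := fun a b => decide ((l a).count b = (l' a).count b)) (Poly.append hl hl')
    (Poly.decide_eq (poly_count (Poly.snd Poly.id) (hl.comp (Poly.fst Poly.id)))
      (poly_count (Poly.snd Poly.id) (hl'.comp (Poly.fst Poly.id))))

end

theorem poly_cycArcs {α β : Type} [TEnc α] [TEnc β] {l : α → List β} (hl : Poly l) :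
    Poly (fun a => cycArcs (l a)) := by
  unfold cycArcs
  refine Poly.zip hl ?_
  refine (Poly.listCases (g := fun _ => ([] : List β)) (h := fun _ b t => t ++ [b]) hl
    (Poly.const []) (Poly.append (Poly.snd (Poly.snd Poly.id))
      (Poly.cons (Poly.fst (Poly.snd Poly.id)) (Poly.const [])))).congr fun a => ?_
  cases l a with
  | nil => rfl
  | cons b t => simp

/-- The instances. -/
abbrev DInst : Type := (List ℕ × List (ℕ × ℕ)) × ℕ

/-- Test for being a digraph. -/
def digB (V : List ℕ) (E : List (ℕ × ℕ)) : Bool :=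
  nodupB V && E.all fun e => decide (e.1 ∈ V) && (decide (e.2 ∈ V) && !decide (e.1 = e.2))

theorem digB_iff (V : List ℕ) (E : List (ℕ × ℕ)) : digB V E = true ↔ IsDigraph V E := by
  unfold digB IsDigraph
  rw [Bool.and_eq_true, nodupB_iff, List.all_eq_true]
  refine and_congr Iff.rfl (forall_congr' fun e => forall_congr' fun _ => ?_)
  simp

/-- Test for the degree condition. -/
def eulB (V : List ℕ) (E : List (ℕ × ℕ)) : Bool :=
  V.all fun v => decide ((E.map Prod.fst).count v = (E.map Prod.snd).count v)

theorem eulB_iff (V : List ℕ) (E : List (ℕ × ℕ)) : eulB V E = true ↔ Eulerian V E := by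
  unfold eulB Eulerian
  rw [List.all_eq_true]
  simp

/-- The test of a certificate. -/
def chk (p : DInst × List (List ℕ)) : Bool :=
  (digB p.1.1.1 p.1.1.2 && eulB p.1.1.1 p.1.1.2) &&
    (decide (p.2.length ≤ p.1.2) &&
      ((p.2.all fun c => decide (2 ≤ c.length) && nodupB c) &&
        permB (p.2.flatMap cycArcs) p.1.1.2))

theorem poly_chk : Poly chk := by
  have hV : Poly (fun p : DInst × List (List ℕ) => p.1.1.1) :=
    Poly.fst (Poly.fst (Poly.fst Poly.id))
  have hE : Poly (fun p : DInst × List (List ℕ) => p.1.1.2) :=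
    Poly.snd (Poly.fst (Poly.fst Poly.id))
  have hk : Poly (fun p : DInst × List (List ℕ) => p.1.2) := Poly.snd (Poly.fst Poly.id)
  have hc : Poly (fun p : DInst × List (List ℕ) => p.2) := Poly.snd Poly.id
  have hV' : Poly (fun q : (DInst × List (List ℕ)) × (ℕ × ℕ) => q.1.1.1.1) :=
    hV.comp (Poly.fst Poly.id)
  have h1 : Poly (fun q : (DInst × List (List ℕ)) × (ℕ × ℕ) => q.2.1) :=
    Poly.fst (Poly.snd Poly.id)
  have h2 : Poly (fun q : (DInst × List (List ℕ)) × (ℕ × ℕ) => q.2.2) :=
    Poly.snd (Poly.snd Poly.id)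
  have e1 : Poly (fun p : DInst × List (List ℕ) => digB p.1.1.1 p.1.1.2) := by
    unfold digB
    exact Poly.and (poly_nodupB hV) (Poly.all (p := fun (p : DInst × List (List ℕ)) e =>
      decide (e.1 ∈ p.1.1.1) && (decide (e.2 ∈ p.1.1.1) && !decide (e.1 = e.2))) hE
      (Poly.and (Poly.decide_mem h1 hV') (Poly.and (Poly.decide_mem h2 hV')
        (Poly.not (Poly.decide_eq h1 h2)))))
  have hE' : Poly (fun q : (DInst × List (List ℕ)) × ℕ => q.1.1.1.2) :=
    hE.comp (Poly.fst Poly.id)
  have e2 : Poly (fun p : DInst × List (List ℕ) => eulB p.1.1.1 p.1.1.2) := by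
    unfold eulB
    exact Poly.all (p := fun (p : DInst × List (List ℕ)) v =>
      decide ((p.1.1.2.map Prod.fst).count v = (p.1.1.2.map Prod.snd).count v)) hV
      (Poly.decide_eq
        (poly_count (Poly.snd Poly.id) (Poly.map (F := fun _ (e : ℕ × ℕ) => e.1) hE'
          (Poly.fst (Poly.snd Poly.id))))
        (poly_count (Poly.snd Poly.id) (Poly.map (F := fun _ (e : ℕ × ℕ) => e.2) hE'
          (Poly.snd (Poly.snd Poly.id)))))
  have e3 : Poly (fun p : DInst × List (List ℕ) =>
      p.2.all fun c => decide (2 ≤ c.length) && nodupB c) :=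
    Poly.all (p := fun _ (c : List ℕ) => decide (2 ≤ c.length) && nodupB c) hc
      (Poly.and (Poly.decide_le (Poly.const 2) (Poly.length (Poly.snd Poly.id)))
        (poly_nodupB (Poly.snd Poly.id)))
  have e4 : Poly (fun p : DInst × List (List ℕ) => permB (p.2.flatMap cycArcs) p.1.1.2) :=
    poly_permB (Poly.flatMap (F := fun _ (c : List ℕ) => cycArcs c) hc
      (poly_cycArcs (Poly.snd Poly.id))) hE
  exact Poly.and (Poly.and e1 e2) (Poly.and (Poly.decide_le (Poly.length hc) hk) (Poly.and e3 e4))

theorem cycArcs_length {α : Type} (c : List α) : (cycArcs c).length = c.length := by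
  simp [cycArcs]

theorem length_cycles {α : Type} : ∀ cs : List (List α), (∀ c ∈ cs, 2 ≤ c.length) →
    cs.length ≤ (cs.flatMap cycArcs).length
  | [], _ => by simp
  | c :: cs, h => by
    have h1 := length_cycles cs fun d hd => h d (List.mem_cons_of_mem _ hd)
    have h2 := h c (by simp)
    rw [List.flatMap_cons, List.length_append, cycArcs_length, List.length_cons]
    omega

/-- The problem whether a digraph with equal in- and outdegrees has a decomposition into at most
`k` directed cycles has short certificates. -/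
theorem mem_decomp :
    InNPP (fun I : DInst => IsDigraph I.1.1 I.1.2 ∧ Eulerian I.1.1 I.1.2 ∧ Decomp I.1.2 I.2) := by
  refine inNPP_of (R := chk) poly_chk
    (Polynomial.X * ((Polynomial.X * (Polynomial.X + 1) + 1) + 1) + 1) fun I => ?_
  have hchk : ∀ cs, chk (I, cs) = true ↔ (IsDigraph I.1.1 I.1.2 ∧ Eulerian I.1.1 I.1.2) ∧
      cs.length ≤ I.2 ∧ (∀ c ∈ cs, 2 ≤ c.length ∧ c.Nodup) ∧ (cs.flatMap cycArcs).Perm I.1.2 := by
    intro cs
    unfold chk
    simp only [Bool.and_eq_true, digB_iff, eulB_iff, permB_iff, List.all_eq_true, nodupB_iff,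
      decide_eq_true_eq]
  constructor
  · rintro ⟨h1, h2, cs, h3, h4, h5⟩
    refine ⟨cs, ?_, (hchk cs).2 ⟨⟨h1, h2⟩, h3, h4, h5⟩⟩
    have hS : sz I.1.2 ≤ sz I := by
      obtain ⟨⟨V, E⟩, k⟩ := I
      simp only [sz_pair]
      omega
    have hlen : I.1.2.length < sz I := (length_lt_sz _).trans_le hS
    have hcs : cs.length ≤ sz I := by
      have := length_cycles cs fun c hc => (h4 c hc).1
      rw [h5.length_eq] at this
      omega
    have hc : ∀ d ∈ cs, sz d ≤ sz I * (sz I + 1) + 1 := by
      intro d hd
      have hlen' : ∀ i, i < d.length → i < (cycArcs d).length := fun i hi => by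
        rwa [cycArcs_length]
      have h6 : ∀ v ∈ d, sz v ≤ sz I := by
        intro v hv
        obtain ⟨i, hi, rfl⟩ := List.getElem_of_mem hv
        have h7 : (cycArcs d)[i]'(hlen' i hi) ∈ I.1.2 :=
          h5.subset (List.mem_flatMap.2 ⟨d, hd, List.getElem_mem _⟩)
        have h8 := sz_le_of_mem h7
        have h9 : ((cycArcs d)[i]'(hlen' i hi)).1 = d[i] := by
          simp [cycArcs]
        rw [← h9]
        have h10 : sz ((cycArcs d)[i]'(hlen' i hi)).1 ≤ sz ((cycArcs d)[i]'(hlen' i hi)) := by
          generalize (cycArcs d)[i]'(hlen' i hi) = e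
          obtain ⟨x, y⟩ := e
          simp only [sz_pair]
          omega
        omega
      have h11 : d.length ≤ sz I := by
        have h12 : (cycArcs d).length ≤ (cs.flatMap cycArcs).length := by
          obtain ⟨s, t, rfl⟩ := List.append_of_mem hd
          simp only [List.flatMap_append, List.flatMap_cons, List.length_append]
          omega
        rw [cycArcs_length, h5.length_eq] at h12
        omega
      refine (sz_le_length_mul d (sz I) h6).trans ?_
      have := Nat.mul_le_mul_right (sz I + 1) h11
      omega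
    refine (sz_le_length_mul cs _ hc).trans ?_
    simp only [Polynomial.eval_add, Polynomial.eval_mul, Polynomial.eval_X, Polynomial.eval_one]
    have := Nat.mul_le_mul_right (sz I * (sz I + 1) + 1 + 1) hcs
    omega
  · rintro ⟨cs, _, h⟩
    obtain ⟨⟨h1, h2⟩, h3, h4, h5⟩ := (hchk cs).1 h
    exact ⟨h1, h2, cs, h3, h4, h5⟩

end Pool.Agent.NPC.KS6_48
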