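import Pool.Agent.KS6_48.DCD.Lab

/-!
# Digraphs made of wires and gadgets
-/

namespace Pool.Agent.KS6_48.DCD

variable {P κ : Type}

/-- Vertices: `(p, 0)` is the port `p`; `(p, 5)` is the middle vertex of the wire from `p`;
`(s, 1), …, (s, 4)` are the vertices `a, b, c, t` of the gadget with first port `s`. -/
abbrev Vx (P : Type) := P × ℕ

/-- The arcs of the wire from the port `w.1` to the port `w.2`. -/
def wireArcs (w : P × P) : List (Vx P × Vx P) := [((w.1, 0), (w.1, 5)), ((w.1, 5), (w.2, 0))]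

/-- The arcs of the gadget with ports `(s, r, p, q)`: `s → b → t → a → r`, `p → c → q` and
`a → b → c → a`. -/
def gadArcs (g : P × P × P × P) : List (Vx P × Vx P) :=
  [((g.1, 0), (g.1, 2)), ((g.1, 2), (g.1, 4)), ((g.1, 4), (g.1, 1)), ((g.1, 1), (g.1, 2)),
    ((g.1, 2), (g.1, 3)), ((g.1, 3), (g.1, 1)), ((g.1, 1), (g.2.1, 0)),
    ((g.2.2.1, 0), (g.1, 3)), ((g.1, 3), (g.2.2.2, 0))]

/-- All arcs. -/
def netArcs (ws : List (P × P)) (gs : List (P × P × P × P)) : List (Vx P × Vx P) :=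
  ws.flatMap wireArcs ++ gs.flatMap gadArcs

/-- The ports which are sources. -/
def srcs (ws : List (P × P)) (gs : List (P × P × P × P)) : List P :=
  ws.map Prod.fst ++ gs.map Prod.fst ++ gs.map (fun g => g.2.2.1)

/-- Every port is the start of at most one wire or gadget and the end of at most one, and every
end is a start. -/
structure Net (ws : List (P × P)) (gs : List (P × P × P × P)) (O : P → ℕ × P × P × P)
    (I : P → ℕ × P) : Prop where
  nw : ws.Nodup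
  ng : gs.Nodup
  Ow : ∀ w ∈ ws, O w.1 = (0, w.2, w.2, w.2)
  Og : ∀ g ∈ gs, O g.1 = (1, g.2)
  Op : ∀ g ∈ gs, O g.2.2.1 = (2, g.1, g.1, g.1)
  Iw : ∀ w ∈ ws, I w.2 = (0, w.1)
  Ir : ∀ g ∈ gs, I g.2.1 = (1, g.1)
  Iq : ∀ g ∈ gs, I g.2.2.2 = (2, g.1)
  cw : ∀ w ∈ ws, w.2 ∈ srcs ws gs
  cr : ∀ g ∈ gs, g.2.1 ∈ srcs ws gs
  cq : ∀ g ∈ gs, g.2.2.2 ∈ srcs ws gs

/-- A function on the ports is constant along wires and gadgets; `U` is the set of gadgets that
are used. -/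
def Resp {T : Type} (ws : List (P × P)) (gs : List (P × P × P × P)) (U : P × P × P × P → Prop)
    (f : P → T) : Prop :=
  (∀ w ∈ ws, f w.1 = f w.2) ∧
  (∀ g ∈ gs, U g → f g.1 = f g.2.2.2 ∧ f g.2.2.1 = f g.2.1) ∧
  (∀ g ∈ gs, ¬ U g → f g.1 = f g.2.1 ∧ f g.2.2.1 = f g.2.2.2)

/-- `ℓ` labels the curves. -/
structure Curves (ws : List (P × P)) (gs : List (P × P × P × P)) (U : P × P × P × P → Prop)
    (l : P → κ) : Prop where
  resp : Resp ws gs U l
  univ : ∀ f : P → Prop, Resp ws gs U f → ∀ x ∈ srcs ws gs, ∀ y ∈ srcs ws gs, l x = l y →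
    (f x ↔ f y)
  sides : ∀ g ∈ gs, U g → l g.1 ≠ l g.2.2.1

section

variable {ws : List (P × P)} {gs : List (P × P × P × P)} {O : P → ℕ × P × P × P}
  {I : P → ℕ × P}

theorem mem_netArcs {e : Vx P × Vx P} : e ∈ netArcs ws gs ↔
    (∃ w ∈ ws, e ∈ wireArcs w) ∨ ∃ g ∈ gs, e ∈ gadArcs g := by
  simp [netArcs]

theorem wire_mem {w : P × P} (hw : w ∈ ws) {e} (he : e ∈ wireArcs w) : e ∈ netArcs ws gs :=
  mem_netArcs.2 (Or.inl ⟨w, hw, he⟩)

theorem gad_mem {g : P × P × P × P} (hg : g ∈ gs) {e} (he : e ∈ gadArcs g) :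
    e ∈ netArcs ws gs :=
  mem_netArcs.2 (Or.inr ⟨g, hg, he⟩)

theorem netArcs_nodup [DecidableEq P] (N : Net ws gs O I) : (netArcs ws gs).Nodup := by
  unfold netArcs
  rw [List.nodup_append']
  refine ⟨?_, ?_, ?_⟩
  · rw [List.nodup_flatMap]
    refine ⟨fun w _ => by simp [wireArcs], ?_⟩
    refine List.Pairwise.imp_of_mem ?_ N.nw
    intro w w' hw hw' hne e he he'
    have h1 : ∀ w, e ∈ wireArcs w → e.1.1 = w.1 := by
      intro w h
      simp only [wireArcs, List.mem_cons, List.not_mem_nil, or_false] at h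
      rcases h with rfl | rfl <;> rfl
    have h2 : w.1 = w'.1 := (h1 w he).symm.trans (h1 w' he')
    have h3 := N.Ow w hw
    rw [h2, N.Ow w' hw'] at h3
    exact hne (Prod.ext h2 (Prod.mk.inj (Prod.mk.inj h3).2).1.symm)
  · rw [List.nodup_flatMap]
    refine ⟨fun w _ => by simp [gadArcs], ?_⟩
    refine List.Pairwise.imp_of_mem ?_ N.ng
    intro w w' hw hw' hne e he he'
    have h1 : ∀ g, e ∈ gadArcs g → (if e.1.2 = 0 then e.2.1 else e.1.1) = g.1 := by
      intro w h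
      simp only [gadArcs, List.mem_cons, List.not_mem_nil, or_false] at h
      rcases h with rfl | rfl | rfl | rfl | rfl | rfl | rfl | rfl | rfl <;> rfl
    have h2 : w.1 = w'.1 := (h1 w he).symm.trans (h1 w' he')
    have h3 := N.Og w hw
    rw [h2, N.Og w' hw'] at h3
    exact hne (Prod.ext h2 (Prod.mk.inj h3).2.symm)
  · intro e he he'
    rw [List.mem_flatMap] at he he'
    obtain ⟨w, _, h⟩ := he
    obtain ⟨g, _, h'⟩ := he'
    have h1 : e.1.2 = 5 ∨ e.2.2 = 5 := by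
      simp only [wireArcs, List.mem_cons, List.not_mem_nil, or_false] at h
      rcases h with rfl | rfl <;> simp
    have h2 : ¬ (e.1.2 = 5 ∨ e.2.2 = 5) := by
      simp only [gadArcs, List.mem_cons, List.not_mem_nil, or_false] at h'
      rcases h' with rfl | rfl | rfl | rfl | rfl | rfl | rfl | rfl | rfl <;> simp
    exact h2 h1

theorem netArcs_loop {e : Vx P × Vx P} (he : e ∈ netArcs ws gs) : e.1 ≠ e.2 := by
  rw [mem_netArcs] at he
  intro h
  have h2 : e.1.2 = e.2.2 := by rw [h]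
  rcases he with ⟨w, _, h'⟩ | ⟨g, _, h'⟩
  · simp only [wireArcs, List.mem_cons, List.not_mem_nil, or_false] at h'
    rcases h' with rfl | rfl <;> simp at h2
  · simp only [gadArcs, List.mem_cons, List.not_mem_nil, or_false] at h'
    rcases h' with rfl | rfl | rfl | rfl | rfl | rfl | rfl | rfl | rfl <;> simp at h2

/-- The arc that leaves the port `p`. -/
def outA (O : P → ℕ × P × P × P) (p : P) : Vx P × Vx P :=
  ((p, 0), if (O p).1 = 0 then (p, 5) else if (O p).1 = 1 then (p, 2) else ((O p).2.1, 3))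

theorem outA_w (N : Net ws gs O I) {w : P × P} (hw : w ∈ ws) :
    outA O w.1 = ((w.1, 0), (w.1, 5)) := by
  simp [outA, N.Ow w hw]

theorem outA_s (N : Net ws gs O I) {g : P × P × P × P} (hg : g ∈ gs) :
    outA O g.1 = ((g.1, 0), (g.1, 2)) := by
  simp [outA, N.Og g hg]

theorem outA_p (N : Net ws gs O I) {g : P × P × P × P} (hg : g ∈ gs) :
    outA O g.2.2.1 = ((g.2.2.1, 0), (g.1, 3)) := by
  simp [outA, N.Op g hg]

theorem gad_eq (N : Net ws gs O I) {g g' : P × P × P × P} (hg : g ∈ gs) (hg' : g' ∈ gs)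
    (h : g.1 = g'.1) : g = g' := by
  have h3 := N.Og g hg
  rw [h, N.Og g' hg'] at h3
  exact Prod.ext h (Prod.mk.inj h3).2.symm

theorem wire_eq (N : Net ws gs O I) {g g' : P × P} (hg : g ∈ ws) (hg' : g' ∈ ws)
    (h : g.1 = g'.1) : g = g' := by
  have h3 := N.Ow g hg
  rw [h, N.Ow g' hg'] at h3
  exact Prod.ext h (Prod.mk.inj (Prod.mk.inj h3).2).1.symm

theorem mem_srcs {x : P} : x ∈ srcs ws gs ↔ (∃ w ∈ ws, w.1 = x) ∨ (∃ g ∈ gs, g.1 = x) ∨
    ∃ g ∈ gs, g.2.2.1 = x := by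
  simp [srcs, or_assoc]

theorem outA_mem (N : Net ws gs O I) {x : P} (hx : x ∈ srcs ws gs) :
    outA O x ∈ netArcs ws gs := by
  rw [mem_srcs] at hx
  rcases hx with ⟨w, hw, rfl⟩ | ⟨g, hg, rfl⟩ | ⟨g, hg, rfl⟩
  · rw [outA_w N hw]
    exact wire_mem hw (by simp [wireArcs])
  · rw [outA_s N hg]
    exact gad_mem hg (by simp [gadArcs])
  · rw [outA_p N hg]
    exact gad_mem hg (by simp [gadArcs])

/-- The out-arcs of a vertex, by its kind. -/
theorem out_cases (N : Net ws gs O I) {e : Vx P × Vx P} (he : e ∈ netArcs ws gs) :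
    (e.1.2 = 0 ∧ e = outA O e.1.1 ∧ e.1.1 ∈ srcs ws gs) ∨
    (e.1.2 = 5 ∧ ∃ w ∈ ws, w.1 = e.1.1 ∧ e.2 = (w.2, 0)) ∨
    (∃ g ∈ gs, g.1 = e.1.1 ∧ ((e.1.2 = 1 ∧ (e.2 = (g.1, 2) ∨ e.2 = (g.2.1, 0))) ∨
      (e.1.2 = 2 ∧ (e.2 = (g.1, 4) ∨ e.2 = (g.1, 3))) ∨
      (e.1.2 = 3 ∧ (e.2 = (g.1, 1) ∨ e.2 = (g.2.2.2, 0))) ∨ (e.1.2 = 4 ∧ e.2 = (g.1, 1)))) := by
  rw [mem_netArcs] at he
  rcases he with ⟨w, hw, h⟩ | ⟨g, hg, h⟩
  · simp only [wireArcs, List.mem_cons, List.not_mem_nil, or_false] at h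
    rcases h with rfl | rfl
    · left
      exact ⟨rfl, (outA_w N hw).symm, mem_srcs.2 (Or.inl ⟨w, hw, rfl⟩)⟩
    · right; left
      exact ⟨rfl, w, hw, rfl, rfl⟩
  · simp only [gadArcs, List.mem_cons, List.not_mem_nil, or_false] at h
    rcases h with rfl | rfl | rfl | rfl | rfl | rfl | rfl | rfl | rfl
    · left
      exact ⟨rfl, (outA_s N hg).symm, mem_srcs.2 (Or.inr (Or.inl ⟨g, hg, rfl⟩))⟩
    · right; right
      exact ⟨g, hg, rfl, by simp⟩
    · right; right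
      exact ⟨g, hg, rfl, by simp⟩
    · right; right
      exact ⟨g, hg, rfl, by simp⟩
    · right; right
      exact ⟨g, hg, rfl, by simp⟩
    · right; right
      exact ⟨g, hg, rfl, by simp⟩
    · right; right
      exact ⟨g, hg, rfl, by simp⟩
    · left
      exact ⟨rfl, (outA_p N hg).symm, mem_srcs.2 (Or.inr (Or.inr ⟨g, hg, rfl⟩))⟩
    · right; right
      exact ⟨g, hg, rfl, by simp⟩

/-- The arc that enters the port `p`. -/
def inA (I : P → ℕ × P) (p : P) : Vx P × Vx P :=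
  (if (I p).1 = 0 then ((I p).2, 5) else if (I p).1 = 1 then ((I p).2, 1) else ((I p).2, 3),
    (p, 0))

/-- The in-arcs of a vertex, by its kind. -/
theorem in_cases (N : Net ws gs O I) {e : Vx P × Vx P} (he : e ∈ netArcs ws gs) :
    (e.2.2 = 0 ∧ e = inA I e.2.1 ∧ e.2.1 ∈ srcs ws gs) ∨
    (e.2.2 = 5 ∧ e = outA O e.2.1 ∧ e.2.1 ∈ srcs ws gs) ∨
    (∃ g ∈ gs, g.1 = e.2.1 ∧ ((e.2.2 = 1 ∧ (e.1 = (g.1, 4) ∨ e.1 = (g.1, 3))) ∨
      (e.2.2 = 2 ∧ (e.1 = (g.1, 1) ∨ e.1 = (g.1, 0))) ∨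
      (e.2.2 = 3 ∧ (e.1 = (g.1, 2) ∨ e.1 = (g.2.2.1, 0))) ∨ (e.2.2 = 4 ∧ e.1 = (g.1, 2)))) := by
  rw [mem_netArcs] at he
  rcases he with ⟨w, hw, h⟩ | ⟨g, hg, h⟩
  · simp only [wireArcs, List.mem_cons, List.not_mem_nil, or_false] at h
    rcases h with rfl | rfl
    · right; left
      exact ⟨rfl, (outA_w N hw).symm, mem_srcs.2 (Or.inl ⟨w, hw, rfl⟩)⟩
    · left
      exact ⟨rfl, by simp [inA, N.Iw w hw], N.cw w hw⟩
  · simp only [gadArcs, List.mem_cons, List.not_mem_nil, or_false] at h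
    rcases h with rfl | rfl | rfl | rfl | rfl | rfl | rfl | rfl | rfl
    · right; right
      exact ⟨g, hg, rfl, by simp⟩
    · right; right
      exact ⟨g, hg, rfl, by simp⟩
    · right; right
      exact ⟨g, hg, rfl, by simp⟩
    · right; right
      exact ⟨g, hg, rfl, by simp⟩
    · right; right
      exact ⟨g, hg, rfl, by simp⟩
    · right; right
      exact ⟨g, hg, rfl, by simp⟩
    · left
      exact ⟨rfl, by simp [inA, N.Ir g hg], N.cr g hg⟩
    · right; right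
      exact ⟨g, hg, rfl, by simp⟩
    · left
      exact ⟨rfl, by simp [inA, N.Iq g hg], N.cq g hg⟩

end

end Pool.Agent.KS6_48.DCD
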