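import Pool.Agent.KS6_48.DCD.Net

/-!
# From a decomposition to curves
-/

namespace Pool.Agent.KS6_48.DCD

variable {P κ : Type} {ws : List (P × P)} {gs : List (P × P × P × P)}
  {O : P → ℕ × P × P × P} {I : P → ℕ × P} {lab : Vx P × Vx P → κ}

/-- The relations between the labels of the arcs of a gadget. -/
theorem gad_rel (N : Net ws gs O I) (hL : IsLab (netArcs ws gs) lab) {g : P × P × P × P}
    (hg : g ∈ gs) :
    lab ((g.1, 2), (g.1, 4)) = lab ((g.1, 4), (g.1, 1)) ∧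
    (lab ((g.1, 0), (g.1, 2)) = lab ((g.1, 2), (g.1, 4)) ∨
      lab ((g.1, 0), (g.1, 2)) = lab ((g.1, 2), (g.1, 3))) ∧
    (lab ((g.1, 1), (g.1, 2)) = lab ((g.1, 2), (g.1, 4)) ∨
      lab ((g.1, 1), (g.1, 2)) = lab ((g.1, 2), (g.1, 3))) ∧
    lab ((g.1, 2), (g.1, 4)) ≠ lab ((g.1, 2), (g.1, 3)) ∧
    lab ((g.1, 0), (g.1, 2)) ≠ lab ((g.1, 1), (g.1, 2)) ∧
    (lab ((g.1, 4), (g.1, 1)) = lab ((g.1, 1), (g.1, 2)) ∨
      lab ((g.1, 4), (g.1, 1)) = lab ((g.1, 1), (g.2.1, 0))) ∧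
    (lab ((g.1, 3), (g.1, 1)) = lab ((g.1, 1), (g.1, 2)) ∨
      lab ((g.1, 3), (g.1, 1)) = lab ((g.1, 1), (g.2.1, 0))) ∧
    lab ((g.1, 1), (g.1, 2)) ≠ lab ((g.1, 1), (g.2.1, 0)) ∧
    lab ((g.1, 4), (g.1, 1)) ≠ lab ((g.1, 3), (g.1, 1)) ∧
    (lab ((g.1, 2), (g.1, 3)) = lab ((g.1, 3), (g.1, 1)) ∨
      lab ((g.1, 2), (g.1, 3)) = lab ((g.1, 3), (g.2.2.2, 0))) ∧
    (lab ((g.2.2.1, 0), (g.1, 3)) = lab ((g.1, 3), (g.1, 1)) ∨
      lab ((g.2.2.1, 0), (g.1, 3)) = lab ((g.1, 3), (g.2.2.2, 0))) ∧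
    lab ((g.1, 3), (g.1, 1)) ≠ lab ((g.1, 3), (g.2.2.2, 0)) ∧
    lab ((g.1, 2), (g.1, 3)) ≠ lab ((g.2.2.1, 0), (g.1, 3)) := by
  have m1 : ((g.1, 0), (g.1, 2)) ∈ netArcs ws gs := gad_mem hg (by simp [gadArcs])
  have m2 : ((g.1, 2), (g.1, 4)) ∈ netArcs ws gs := gad_mem hg (by simp [gadArcs])
  have m3 : ((g.1, 4), (g.1, 1)) ∈ netArcs ws gs := gad_mem hg (by simp [gadArcs])
  have m4 : ((g.1, 1), (g.1, 2)) ∈ netArcs ws gs := gad_mem hg (by simp [gadArcs])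
  have m5 : ((g.1, 2), (g.1, 3)) ∈ netArcs ws gs := gad_mem hg (by simp [gadArcs])
  have m6 : ((g.1, 3), (g.1, 1)) ∈ netArcs ws gs := gad_mem hg (by simp [gadArcs])
  have m7 : ((g.1, 1), (g.2.1, 0)) ∈ netArcs ws gs := gad_mem hg (by simp [gadArcs])
  have m8 : ((g.2.2.1, 0), (g.1, 3)) ∈ netArcs ws gs := gad_mem hg (by simp [gadArcs])
  have m9 : ((g.1, 3), (g.2.2.2, 0)) ∈ netArcs ws gs := gad_mem hg (by simp [gadArcs])
  -- out-arcs
  have o1 : ∀ e ∈ netArcs ws gs, e.1 = (g.1, 1) → e = ((g.1, 1), (g.1, 2)) ∨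
      e = ((g.1, 1), (g.2.1, 0)) := by
    rintro ⟨e1, e2⟩ he h
    dsimp only at h
    subst h
    rcases out_cases N he with ⟨h1, _⟩ | ⟨h1, _⟩ | ⟨g', hg', h1, h2⟩
    · simp at h1
    · simp at h1
    · have := gad_eq N hg' hg h1
      subst this
      simpa using h2
  have o2 : ∀ e ∈ netArcs ws gs, e.1 = (g.1, 2) → e = ((g.1, 2), (g.1, 4)) ∨
      e = ((g.1, 2), (g.1, 3)) := by
    rintro ⟨e1, e2⟩ he h
    dsimp only at h
    subst h
    rcases out_cases N he with ⟨h1, _⟩ | ⟨h1, _⟩ | ⟨g', hg', h1, h2⟩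
    · simp at h1
    · simp at h1
    · have := gad_eq N hg' hg h1
      subst this
      simpa using h2
  have o3 : ∀ e ∈ netArcs ws gs, e.1 = (g.1, 3) → e = ((g.1, 3), (g.1, 1)) ∨
      e = ((g.1, 3), (g.2.2.2, 0)) := by
    rintro ⟨e1, e2⟩ he h
    dsimp only at h
    subst h
    rcases out_cases N he with ⟨h1, _⟩ | ⟨h1, _⟩ | ⟨g', hg', h1, h2⟩
    · simp at h1
    · simp at h1
    · have := gad_eq N hg' hg h1
      subst this
      simpa using h2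
  have o4 : ∀ e ∈ netArcs ws gs, e.1 = (g.1, 4) → e = ((g.1, 4), (g.1, 1)) := by
    rintro ⟨e1, e2⟩ he h
    dsimp only at h
    subst h
    rcases out_cases N he with ⟨h1, _⟩ | ⟨h1, _⟩ | ⟨g', hg', h1, h2⟩
    · simp at h1
    · simp at h1
    · have := gad_eq N hg' hg h1
      subst this
      simpa using h2
  refine ⟨?_, ?_, ?_, ?_, ?_, ?_, ?_, ?_, ?_, ?_, ?_, ?_, ?_⟩
  · obtain ⟨e', he', h1, h2⟩ := hL.succ _ m2
    rw [o4 e' he' h1] at h2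
    exact h2.symm
  · obtain ⟨e', he', h1, h2⟩ := hL.succ _ m1
    rcases o2 e' he' h1 with rfl | rfl
    · exact Or.inl h2.symm
    · exact Or.inr h2.symm
  · obtain ⟨e', he', h1, h2⟩ := hL.succ _ m4
    rcases o2 e' he' h1 with rfl | rfl
    · exact Or.inl h2.symm
    · exact Or.inr h2.symm
  · intro h
    have := hL.src _ m2 _ m5 h rfl
    simp at this
  · intro h
    have := hL.tgt _ m1 _ m4 h rfl
    simp at this
  · obtain ⟨e', he', h1, h2⟩ := hL.succ _ m3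
    rcases o1 e' he' h1 with rfl | rfl
    · exact Or.inl h2.symm
    · exact Or.inr h2.symm
  · obtain ⟨e', he', h1, h2⟩ := hL.succ _ m6
    rcases o1 e' he' h1 with rfl | rfl
    · exact Or.inl h2.symm
    · exact Or.inr h2.symm
  · intro h
    have := hL.src _ m4 _ m7 h rfl
    simp at this
  · intro h
    have := hL.tgt _ m3 _ m6 h rfl
    simp at this
  · obtain ⟨e', he', h1, h2⟩ := hL.succ _ m5
    rcases o3 e' he' h1 with rfl | rfl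
    · exact Or.inl h2.symm
    · exact Or.inr h2.symm
  · obtain ⟨e', he', h1, h2⟩ := hL.succ _ m8
    rcases o3 e' he' h1 with rfl | rfl
    · exact Or.inl h2.symm
    · exact Or.inr h2.symm
  · intro h
    have := hL.src _ m6 _ m9 h rfl
    simp at this
  · intro h
    have := hL.tgt _ m5 _ m8 h rfl
    simp at this

/-- The pure logic of the gadget. -/
theorem gad_logic {S Pp Qz R x y z w : κ} (h1 : S = x ∨ S = z) (h2 : y = x ∨ y = z) (h3 : x ≠ z)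
    (h4 : S ≠ y) (h5 : x = y ∨ x = R) (h6 : w = y ∨ w = R) (h7 : y ≠ R) (h8 : x ≠ w)
    (h9 : z = w ∨ z = Qz) (h10 : Pp = w ∨ Pp = Qz) (h11 : w ≠ Qz) (h12 : z ≠ Pp) :
    (S = R ∧ Pp = Qz ∧ ((y = x ∧ S = z ∧ z = w ∧ R = w) ∨ (y = z ∧ z = w ∧ S = x ∧ R = x))) ∨
    (S = Qz ∧ Pp = R ∧ S ≠ Pp ∧ S ≠ R ∧ y = x ∧ S = z ∧ R = w ∧ z ≠ w) := by
  have hA : (S = x ∧ y = z) ∨ (S = z ∧ y = x) := by
    rcases h1 with rfl | rfl <;> rcases h2 with rfl | rfl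
    · exact absurd rfl h4
    · exact Or.inl ⟨rfl, rfl⟩
    · exact Or.inr ⟨rfl, rfl⟩
    · exact absurd rfl h4
  rcases hA with ⟨rfl, rfl⟩ | ⟨rfl, rfl⟩
  · have h5' : S = R := h5.resolve_left h3
    subst h5'
    have h6' : w = y := h6.resolve_right (Ne.symm h8)
    subst h6'
    have h10' : Pp = Qz := h10.resolve_left (Ne.symm h12)
    exact Or.inl ⟨rfl, h10', Or.inr ⟨rfl, rfl, rfl, rfl⟩⟩
  · have h6' : w = R := h6.resolve_left (Ne.symm h8)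
    subst h6'
    by_cases hz : S = w
    · subst hz
      exact Or.inl ⟨rfl, h10.resolve_left (Ne.symm h12), Or.inl ⟨rfl, rfl, rfl, rfl⟩⟩
    · have h9' : S = Qz := h9.resolve_left hz
      subst h9'
      have h10' : Pp = w := h10.resolve_right (Ne.symm h12)
      exact Or.inr ⟨rfl, h10', h12, hz, rfl, rfl, rfl, hz⟩

/-- The gadget `g` is used: the curve that enters at `s` does not leave at `r`. -/
def Used (lab : Vx P × Vx P → κ) (g : P × P × P × P) : Prop :=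
  lab ((g.1, 0), (g.1, 2)) ≠ lab ((g.1, 1), (g.2.1, 0))

theorem gad_cases (N : Net ws gs O I) (hL : IsLab (netArcs ws gs) lab) {g : P × P × P × P}
    (hg : g ∈ gs) :
    (¬ Used lab g ∧ lab ((g.1, 0), (g.1, 2)) = lab ((g.1, 1), (g.2.1, 0)) ∧
      lab ((g.2.2.1, 0), (g.1, 3)) = lab ((g.1, 3), (g.2.2.2, 0)) ∧
      ((lab ((g.1, 1), (g.1, 2)) = lab ((g.1, 2), (g.1, 4)) ∧
        lab ((g.1, 0), (g.1, 2)) = lab ((g.1, 2), (g.1, 3)) ∧
        lab ((g.1, 2), (g.1, 3)) = lab ((g.1, 3), (g.1, 1))) ∨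
       (lab ((g.1, 1), (g.1, 2)) = lab ((g.1, 2), (g.1, 3)) ∧
        lab ((g.1, 2), (g.1, 3)) = lab ((g.1, 3), (g.1, 1)) ∧
        lab ((g.1, 0), (g.1, 2)) = lab ((g.1, 2), (g.1, 4))))) ∨
    (Used lab g ∧ lab ((g.1, 0), (g.1, 2)) = lab ((g.1, 3), (g.2.2.2, 0)) ∧
      lab ((g.2.2.1, 0), (g.1, 3)) = lab ((g.1, 1), (g.2.1, 0)) ∧
      lab ((g.1, 0), (g.1, 2)) ≠ lab ((g.2.2.1, 0), (g.1, 3)) ∧
      lab ((g.1, 1), (g.1, 2)) = lab ((g.1, 2), (g.1, 4)) ∧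
      lab ((g.1, 0), (g.1, 2)) = lab ((g.1, 2), (g.1, 3)) ∧
      lab ((g.1, 1), (g.2.1, 0)) = lab ((g.1, 3), (g.1, 1)) ∧
      lab ((g.1, 2), (g.1, 3)) ≠ lab ((g.1, 3), (g.1, 1))) := by
  obtain ⟨r1, r2, r3, r4, r5, r6, r7, r8, r9, r10, r11, r12, r13⟩ := gad_rel N hL hg
  rw [← r1] at r6 r9
  have := gad_logic r2 r3 r4 r5 r6 r7 r8 r9 r10 r11 r12 r13
  rcases this with ⟨h1, h2, h3⟩ | ⟨h1, h2, h3, h4, h5, h6, h7, h8⟩
  · left
    refine ⟨fun h => h h1, h1, h2, ?_⟩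
    rcases h3 with ⟨a1, a2, a3, a4⟩ | ⟨a1, a2, a3, a4⟩
    · exact Or.inl ⟨a1, a2, a3⟩
    · exact Or.inr ⟨a1, a2, a3⟩
  · right
    exact ⟨h4, h1, h2, h3, h5, h6, h7, h8⟩

/-- The arcs with the label of `a → b` lie inside the gadget. -/
theorem internal (N : Net ws gs O I) (hL : IsLab (netArcs ws gs) lab) {g : P × P × P × P}
    (hg : g ∈ gs) {e} (he : e ∈ netArcs ws gs) (hle : lab e = lab ((g.1, 1), (g.1, 2))) :
    e.1.1 = g.1 ∧ e.1.2 ≠ 0 ∧ e.2.1 = g.1 ∧ e.2.2 ≠ 0 := by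
  obtain ⟨r1, r2, r3, r4, r5, r6, r7, r8, r9, r10, r11, r12, r13⟩ := gad_rel N hL hg
  have m2 : ((g.1, 2), (g.1, 4)) ∈ netArcs ws gs := gad_mem hg (by simp [gadArcs])
  have m3 : ((g.1, 4), (g.1, 1)) ∈ netArcs ws gs := gad_mem hg (by simp [gadArcs])
  have m4 : ((g.1, 1), (g.1, 2)) ∈ netArcs ws gs := gad_mem hg (by simp [gadArcs])
  have m5 : ((g.1, 2), (g.1, 3)) ∈ netArcs ws gs := gad_mem hg (by simp [gadArcs])
  have m6 : ((g.1, 3), (g.1, 1)) ∈ netArcs ws gs := gad_mem hg (by simp [gadArcs])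
  have key : (lab ((g.1, 1), (g.1, 2)) = lab ((g.1, 2), (g.1, 4)) ∧
      lab ((g.1, 2), (g.1, 4)) = lab ((g.1, 4), (g.1, 1))) ∨
      (lab ((g.1, 1), (g.1, 2)) = lab ((g.1, 2), (g.1, 3)) ∧
      lab ((g.1, 2), (g.1, 3)) = lab ((g.1, 3), (g.1, 1))) := by
    rcases gad_cases N hL hg with ⟨_, _, _, ⟨a1, a2, a3⟩ | ⟨a1, a2, a3⟩⟩ |
      ⟨_, _, _, _, a1, _⟩
    · exact Or.inl ⟨a1, r1⟩
    · exact Or.inr ⟨a1, a2⟩
    · exact Or.inl ⟨a1, r1⟩
  have tri : ∀ (e1 e2 e3 : Vx P × Vx P), e1 ∈ netArcs ws gs → e2 ∈ netArcs ws gs →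
      e3 ∈ netArcs ws gs → e2.1 = e1.2 → e3.1 = e2.2 → e1.1 = e3.2 → lab e1 = lab e2 →
      lab e2 = lab e3 → ∀ e ∈ netArcs ws gs, lab e = lab e1 → e = e1 ∨ e = e2 ∨ e = e3 := by
    intro e1 e2 e3 h1 h2 h3 h12 h23 h31 l12 l23 e he hle
    refine (hL.conn (fun e => e = e1 ∨ e = e2 ∨ e = e3) ?_ e he e1 h1 hle).2 (Or.inl rfl)
    intro e he e' he' hc hl
    constructor
    · rintro (rfl | rfl | rfl)
      · right; left
        exact hL.src _ he' _ h2 (hl.trans l12) (hc.trans h12.symm)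
      · right; right
        exact hL.src _ he' _ h3 (hl.trans l23) (hc.trans h23.symm)
      · left
        exact hL.src _ he' _ h1 (hl.trans (l12.trans l23).symm) (hc.trans h31.symm)
    · rintro (rfl | rfl | rfl)
      · right; right
        exact hL.tgt _ he _ h3 (hl.symm.trans (l12.trans l23)) (hc.symm.trans h31)
      · left
        exact hL.tgt _ he _ h1 (hl.symm.trans l12.symm) (hc.symm.trans h12)
      · right; left
        exact hL.tgt _ he _ h2 (hl.symm.trans l23.symm) (hc.symm.trans h23)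
  rcases key with ⟨k1, k2⟩ | ⟨k1, k2⟩
  · rcases tri _ _ _ m4 m2 m3 rfl rfl rfl k1 k2 e he hle with rfl | rfl | rfl <;> simp
  · rcases tri _ _ _ m4 m5 m6 rfl rfl rfl k1 k2 e he hle with rfl | rfl | rfl <;> simp

/-- The labels of the ports. -/
def pl (O : P → ℕ × P × P × P) (lab : Vx P × Vx P → κ) (p : P) : κ := lab (outA O p)

theorem pl_in (N : Net ws gs O I) (hL : IsLab (netArcs ws gs) lab) {e : Vx P × Vx P}
    (he : e ∈ netArcs ws gs) (h0 : e.2.2 = 0) : pl O lab e.2.1 = lab e := by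
  obtain ⟨e', he', h1, h2⟩ := hL.succ _ he
  rcases out_cases N he' with ⟨_, h4, _⟩ | ⟨h3, _⟩ | ⟨g, _, _, h4⟩
  · have h5 : e'.1.1 = e.2.1 := by rw [h1]
    rw [← h2, h4, h5]
    rfl
  · rw [h1, h0] at h3
    simp at h3
  · rw [h1, h0] at h4
    simp at h4

theorem pl_resp (N : Net ws gs O I) (hL : IsLab (netArcs ws gs) lab) :
    Resp ws gs (Used lab) (pl O lab) := by
  have hs : ∀ g ∈ gs, pl O lab g.1 = lab ((g.1, 0), (g.1, 2)) := fun g hg => by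
    rw [pl, outA_s N hg]
  have hp : ∀ g ∈ gs, pl O lab g.2.2.1 = lab ((g.2.2.1, 0), (g.1, 3)) := fun g hg => by
    rw [pl, outA_p N hg]
  have hr : ∀ g ∈ gs, pl O lab g.2.1 = lab ((g.1, 1), (g.2.1, 0)) := fun g hg =>
    pl_in N hL (e := ((g.1, 1), (g.2.1, 0))) (gad_mem hg (by simp [gadArcs])) rfl
  have hq : ∀ g ∈ gs, pl O lab g.2.2.2 = lab ((g.1, 3), (g.2.2.2, 0)) := fun g hg =>
    pl_in N hL (e := ((g.1, 3), (g.2.2.2, 0))) (gad_mem hg (by simp [gadArcs])) rfl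
  refine ⟨?_, ?_, ?_⟩
  · intro w hw
    have h1 : pl O lab w.2 = lab ((w.1, 5), (w.2, 0)) :=
      pl_in N hL (e := ((w.1, 5), (w.2, 0))) (wire_mem hw (by simp [wireArcs])) rfl
    have h2 : pl O lab w.1 = lab ((w.1, 0), (w.1, 5)) := by rw [pl, outA_w N hw]
    rw [h1, h2]
    have m1 : ((w.1, 0), (w.1, 5)) ∈ netArcs ws gs := wire_mem hw (by simp [wireArcs])
    obtain ⟨e', he', h3, h4⟩ := hL.succ _ m1
    rcases out_cases N he' with ⟨h5, _⟩ | ⟨_, w', hw', h6, h7⟩ | ⟨g, _, _, h5⟩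
    · rw [h3] at h5
      simp at h5
    · rw [h3] at h6
      have := wire_eq N hw' hw h6
      subst this
      rw [← h4]
      congr 1
      exact Prod.ext h3 h7
    · rw [h3] at h5
      simp at h5
  · intro g hg hu
    rw [hs g hg, hp g hg, hr g hg, hq g hg]
    rcases gad_cases N hL hg with ⟨h, _⟩ | ⟨_, h1, h2, _⟩
    · exact absurd hu h
    · exact ⟨h1, h2⟩
  · intro g hg hu
    rw [hs g hg, hp g hg, hr g hg, hq g hg]
    rcases gad_cases N hL hg with ⟨_, h1, h2, _⟩ | ⟨h, _⟩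
    · exact ⟨h1, h2⟩
    · exact absurd h hu

theorem pl_sides (N : Net ws gs O I) (hL : IsLab (netArcs ws gs) lab) {g : P × P × P × P}
    (hg : g ∈ gs) (hu : Used lab g) : pl O lab g.1 ≠ pl O lab g.2.2.1 := by
  rw [pl, pl, outA_s N hg, outA_p N hg]
  rcases gad_cases N hL hg with ⟨h, _⟩ | ⟨_, _, _, h3, _⟩
  · exact absurd hu h
  · exact h3

end Pool.Agent.KS6_48.DCD
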