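import Pool.Agent.KS6_48.DCD.NetA

/-!
# From a decomposition to curves: the universal property and the count
-/

namespace Pool.Agent.KS6_48.DCD

variable {P κ : Type} {ws : List (P × P)} {gs : List (P × P × P × P)}
  {O : P → ℕ × P × P × P} {I : P → ℕ × P} {lab : Vx P × Vx P → κ}

open Classical in
/-- Extension of a function on the ports to the arcs. -/
noncomputable def ext (O : P → ℕ × P × P × P) (lab : Vx P × Vx P → κ) (f : P → Prop)
    (e : Vx P × Vx P) : Prop :=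
  if e.1.2 = 0 then f e.1.1 else if e.2.2 = 0 then f e.2.1 else
  if lab e = lab ((e.1.1, 1), (e.1.1, 2)) then False else
  if e.1.2 = 3 then f (O e.1.1).2.1 else f e.1.1

theorem ext_logic {S Pp Qz R x y z w : κ} {fs fr fp fq : Prop}
    (h : (S = R ∧ Pp = Qz ∧ ((y = x ∧ S = z ∧ z = w) ∨ (y = z ∧ z = w ∧ S = x))) ∨
      (S = Qz ∧ Pp = R ∧ S ≠ Pp ∧ y = x ∧ S = z ∧ R = w ∧ z ≠ w))
    (hN : S = R → (fs ↔ fr) ∧ (fp ↔ fq)) (hU : S ≠ R → (fs ↔ fq) ∧ (fp ↔ fr))
    (h3 : x ≠ z) (h4 : S ≠ y) (h7 : y ≠ R) (h8 : x ≠ w) (h11 : w ≠ Qz) (h12 : z ≠ Pp) :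
    (x = R → ((¬ x = y ∧ fs) ↔ fr)) ∧
    (w = y → (¬ w = y ∧ fr ↔ False)) ∧
    (w = R → (¬ w = y ∧ fr ↔ fr)) ∧
    (y = x → (False ↔ ¬ x = y ∧ fs)) ∧
    (y = z → (False ↔ ¬ z = y ∧ fs)) ∧
    (S = x → (fs ↔ ¬ x = y ∧ fs)) ∧
    (S = z → (fs ↔ ¬ z = y ∧ fs)) ∧
    (z = w → (¬ z = y ∧ fs ↔ ¬ w = y ∧ fr)) ∧
    (z = Qz → (¬ z = y ∧ fs ↔ fq)) ∧
    (Pp = w → (fp ↔ ¬ w = y ∧ fr)) ∧
    (Pp = Qz → (fp ↔ fq)) := by
  have h8' := h8.symm
  rcases h with ⟨rfl, rfl, ⟨rfl, rfl, rfl⟩ | ⟨rfl, rfl, rfl⟩⟩ | ⟨rfl, rfl, h1, rfl, rfl, rfl, h2⟩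
  · have hN := hN rfl
    clear hU
    refine ⟨?_, ?_, ?_, ?_, ?_, ?_, ?_, ?_, ?_, ?_, ?_⟩ <;> intro hh <;> simp_all
  · have hN := hN rfl
    clear hU
    refine ⟨?_, ?_, ?_, ?_, ?_, ?_, ?_, ?_, ?_, ?_, ?_⟩ <;> intro hh <;> simp_all
  · have hU := hU h2
    clear hN
    refine ⟨?_, ?_, ?_, ?_, ?_, ?_, ?_, ?_, ?_, ?_, ?_⟩ <;> intro hh <;> simp_all


theorem pl_univ (N : Net ws gs O I) (hL : IsLab (netArcs ws gs) lab) (f : P → Prop)
    (hf : Resp ws gs (Used lab) f) {x : P} (hx : x ∈ srcs ws gs) {y : P} (hy : y ∈ srcs ws gs)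
    (hxy : pl O lab x = pl O lab y) : f x ↔ f y := by
  have hF : ∀ x, ext O lab f (outA O x) ↔ f x := by
    intro x
    unfold ext outA
    simp
  rw [← hF x, ← hF y]
  refine hL.conn (ext O lab f) ?_ _ (outA_mem N hx) _ (outA_mem N hy) hxy
  clear hxy hx hy hF
  rintro ⟨⟨e1, n1⟩, ⟨e2, n2⟩⟩ he ⟨⟨e3, n3⟩, ⟨e4, n4⟩⟩ he' hc hl
  simp only [Prod.mk.injEq] at hc
  obtain ⟨rfl, rfl⟩ := hc
  rcases in_cases N he with ⟨h1, h2, h3⟩ | ⟨h1, h2, h3⟩ | ⟨g, hg, h1, h2⟩
  · -- the common vertex is a port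
    dsimp only at h1
    subst h1
    have h4 : n1 ≠ 0 := by
      intro h
      subst h
      simp only [inA] at h2
      split_ifs at h2 <;> simp at h2
    simp [ext, h4]
  · -- the middle of a wire
    dsimp only at h1 h2
    subst h1
    rcases out_cases N he' with ⟨h5, _⟩ | ⟨_, w, hw, h6, h7⟩ | ⟨g, _, _, h5⟩
    · simp at h5
    · dsimp only at h6 h7
      subst h6
      rw [outA_w N hw] at h2
      simp only [Prod.mk.injEq] at h2 h7
      obtain ⟨⟨rfl, rfl⟩, -, -⟩ := h2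
      obtain ⟨rfl, rfl⟩ := h7
      have := hf.1 w hw
      simp [ext, this]
    · simp at h5
  · dsimp only at h1
    subst h1
    have r := gad_rel N hL hg
    obtain ⟨r1, r2, r3, r4, r5, r6, r7, r8, r9, r10, r11, r12, r13⟩ := r
    have hcase := gad_logic r2 r3 r4 r5 (by rw [r1]; exact r6) r7 r8 (by rw [r1]; exact r9)
      r10 r11 r12 r13
    have hlog := ext_logic (fs := f g.1) (fr := f g.2.1) (fp := f g.2.2.1) (fq := f g.2.2.2)
      (S := lab ((g.1, 0), (g.1, 2))) (Pp := lab ((g.2.2.1, 0), (g.1, 3)))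
      (Qz := lab ((g.1, 3), (g.2.2.2, 0))) (R := lab ((g.1, 1), (g.2.1, 0)))
      (x := lab ((g.1, 2), (g.1, 4))) (y := lab ((g.1, 1), (g.1, 2)))
      (z := lab ((g.1, 2), (g.1, 3))) (w := lab ((g.1, 3), (g.1, 1)))
      (by
        rcases hcase with ⟨a1, a2, ⟨a3, a4, a5, a6⟩ | ⟨a3, a4, a5, a6⟩⟩ |
          ⟨a1, a2, a3, a4, a5, a6, a7, a8⟩
        · exact Or.inl ⟨a1, a2, Or.inl ⟨a3, a4, a5⟩⟩
        · exact Or.inl ⟨a1, a2, Or.inr ⟨a3, a4, a5⟩⟩
        · exact Or.inr ⟨a1, a2, a3, a5, a6, a7, a8⟩)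
      (by
        intro h
        have := hf.2.2 g hg (fun h' => h' h)
        exact ⟨by rw [this.1], by rw [this.2]⟩)
      (by
        intro h
        have := hf.2.1 g hg h
        exact ⟨by rw [this.1], by rw [this.2]⟩)
      r4 r5 r8 (by rw [r1]; exact r9) r12 r13
    obtain ⟨l1, l2, l3, l4, l5, l6, l7, l8, l9, l10, l11⟩ := hlog
    have hO : O g.1 = (1, g.2) := N.Og g hg
    rcases out_cases N he' with ⟨h5, _⟩ | ⟨h5, _⟩ | ⟨g', hg', h6, h7⟩
    · dsimp only at h5
      subst h5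
      simp at h2
    · dsimp only at h5
      subst h5
      simp at h2
    · have h8 : g' = g := gad_eq N hg' hg h6
      subst h8
      clear h6 hg'
      rcases h2 with ⟨rfl, h2⟩ | ⟨rfl, h2⟩ | ⟨rfl, h2⟩ | ⟨rfl, h2⟩
      · -- vertex a
        simp only [Prod.mk.injEq, OfNat.one_ne_ofNat, false_and, or_false, true_and] at h2 h7
        rcases h2 with ⟨rfl, rfl⟩ | ⟨rfl, rfl⟩ <;> rcases h7 with ⟨rfl, rfl⟩ | ⟨rfl, rfl⟩
        · have := r1.trans hl.symm
          simp [ext, ← r1, this]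
        · have := l1 (r1.trans hl.symm)
          simpa [ext, ← r1] using this
        · have := l2 hl.symm
          simpa [ext, hO] using this
        · have := l3 hl.symm
          simpa [ext, hO] using this
      · -- vertex b
        simp only [Prod.mk.injEq, OfNat.ofNat_ne_one, Nat.reduceEqDiff, false_and, or_false,
          false_or, true_and] at h2 h7
        rcases h2 with ⟨rfl, rfl⟩ | ⟨rfl, rfl⟩ <;> rcases h7 with ⟨rfl, rfl⟩ | ⟨rfl, rfl⟩
        · have := l4 hl.symm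
          simpa [ext] using this
        · have := l5 hl.symm
          simpa [ext] using this
        · have := l6 hl.symm
          simpa [ext] using this
        · have := l7 hl.symm
          simpa [ext] using this
      · -- vertex c
        simp only [Prod.mk.injEq, OfNat.ofNat_ne_one, Nat.reduceEqDiff, false_and, or_false,
          false_or, true_and] at h2 h7
        rcases h2 with ⟨rfl, rfl⟩ | ⟨rfl, rfl⟩ <;> rcases h7 with ⟨rfl, rfl⟩ | ⟨rfl, rfl⟩
        · have := l8 hl.symm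
          simpa [ext, hO] using this
        · have := l9 hl.symm
          simpa [ext, hO] using this
        · have := l10 hl.symm
          simpa [ext, hO] using this
        · have := l11 hl.symm
          simpa [ext, hO] using this
      · -- vertex t
        simp only [Prod.mk.injEq, OfNat.ofNat_ne_one, Nat.reduceEqDiff, false_and, or_false,
          false_or, true_and] at h2 h7
        obtain ⟨rfl, rfl⟩ := h2
        obtain ⟨rfl, rfl⟩ := h7
        simp [ext, r1]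

theorem pl_count [DecidableEq P] [DecidableEq κ] (N : Net ws gs O I)
    (hL : IsLab (netArcs ws gs) lab) :
    ((srcs ws gs).toFinset.image (pl O lab)).card + gs.length ≤
      ((netArcs ws gs).toFinset.image lab).card := by
  have hgs : gs.length = (gs.toFinset.image fun g => lab ((g.1, 1), (g.1, 2))).card := by
    rw [Finset.card_image_of_injOn, List.toFinset_card_of_nodup N.ng]
    intro g hg g' hg' h
    rw [Finset.mem_coe, List.mem_toFinset] at hg hg'
    have h1 := internal N hL hg' (e := ((g.1, 1), (g.1, 2)))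
      (gad_mem hg (by simp [gadArcs])) h
    exact gad_eq N hg hg' h1.1
  rw [hgs, ← Finset.card_union_of_disjoint]
  · apply Finset.card_le_card
    intro i hi
    rw [Finset.mem_union, Finset.mem_image, Finset.mem_image] at hi
    rw [Finset.mem_image]
    rcases hi with ⟨x, hx, rfl⟩ | ⟨g, hg, rfl⟩
    · exact ⟨outA O x, List.mem_toFinset.2 (outA_mem N (List.mem_toFinset.1 hx)), rfl⟩
    · exact ⟨_, List.mem_toFinset.2 (gad_mem (List.mem_toFinset.1 hg) (by simp [gadArcs])), rfl⟩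
  · rw [Finset.disjoint_left]
    intro i hi hi'
    rw [Finset.mem_image] at hi hi'
    obtain ⟨x, hx, rfl⟩ := hi
    obtain ⟨g, hg, hg'⟩ := hi'
    have h1 := internal N hL (List.mem_toFinset.1 hg) (outA_mem N (List.mem_toFinset.1 hx))
      hg'.symm
    exact h1.2.1 rfl

/-- From a decomposition to curves. -/
theorem curves_of_decomp [DecidableEq P] (N : Net ws gs O I) {k : ℕ}
    (h : Decomp (netArcs ws gs) (gs.length + k)) :
    ∃ (U : P × P × P × P → Prop) (l : P → ℕ), Curves ws gs U l ∧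
      ((srcs ws gs).toFinset.image l).card ≤ k := by
  obtain ⟨lab, hL, hk⟩ := lab_of_decomp (netArcs_nodup N) h
  refine ⟨Used lab, pl O lab, ⟨pl_resp N hL, ?_, ?_⟩, ?_⟩
  · intro f hf x hx y hy hxy
    exact pl_univ N hL f hf hx hy hxy
  · intro g hg hu
    exact pl_sides N hL hg hu
  · have := pl_count N hL
    omega

end Pool.Agent.KS6_48.DCD
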