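import Pool.Agent.KS6_48.DCD.NetA2

/-!
# From curves to a decomposition
-/

namespace Pool.Agent.KS6_48.DCD

variable {P κ : Type} {ws : List (P × P)} {gs : List (P × P × P × P)}
  {O : P → ℕ × P × P × P} {I : P → ℕ × P}

open Classical in
/-- The labelling of the arcs given by curves. -/
noncomputable def clab (O : P → ℕ × P × P × P) (U : P × P × P × P → Prop) (l : P → κ)
    (e : Vx P × Vx P) : P ⊕ κ :=
  if e.1.2 = 0 then Sum.inr (l e.1.1) else if e.2.2 = 0 then Sum.inr (l e.2.1) else
  if e.1.2 = 1 then Sum.inl e.1.1 else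
  if e.2.2 = 3 then (if U (e.1.1, (O e.1.1).2) then Sum.inr (l e.1.1) else Sum.inl e.1.1) else
  if e.1.2 = 3 then (if U (e.1.1, (O e.1.1).2) then Sum.inr (l (O e.1.1).2.1) else
    Sum.inl e.1.1) else
  (if U (e.1.1, (O e.1.1).2) then Sum.inl e.1.1 else Sum.inr (l e.1.1))

section vals

variable (N : Net ws gs O I) {U : P × P × P × P → Prop} {l : P → κ}

include N

theorem clab_w1 {w : P × P} : clab O U l ((w.1, 0), (w.1, 5)) = Sum.inr (l w.1) := by
  simp [clab]

theorem clab_w2 {w : P × P} : clab O U l ((w.1, 5), (w.2, 0)) = Sum.inr (l w.2) := by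
  simp [clab]

end vals

theorem clab_gad (N : Net ws gs O I) {U : P × P × P × P → Prop} {l : P → κ}
    {g : P × P × P × P} (hg : g ∈ gs) :
    clab O U l ((g.1, 0), (g.1, 2)) = Sum.inr (l g.1) ∧
    clab O U l ((g.1, 1), (g.1, 2)) = Sum.inl g.1 ∧
    clab O U l ((g.1, 1), (g.2.1, 0)) = Sum.inr (l g.2.1) ∧
    clab O U l ((g.2.2.1, 0), (g.1, 3)) = Sum.inr (l g.2.2.1) ∧
    clab O U l ((g.1, 3), (g.2.2.2, 0)) = Sum.inr (l g.2.2.2) ∧
    (U g → clab O U l ((g.1, 2), (g.1, 4)) = Sum.inl g.1 ∧
      clab O U l ((g.1, 4), (g.1, 1)) = Sum.inl g.1 ∧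
      clab O U l ((g.1, 2), (g.1, 3)) = Sum.inr (l g.1) ∧
      clab O U l ((g.1, 3), (g.1, 1)) = Sum.inr (l g.2.1)) ∧
    (¬ U g → clab O U l ((g.1, 2), (g.1, 4)) = Sum.inr (l g.1) ∧
      clab O U l ((g.1, 4), (g.1, 1)) = Sum.inr (l g.1) ∧
      clab O U l ((g.1, 2), (g.1, 3)) = Sum.inl g.1 ∧
      clab O U l ((g.1, 3), (g.1, 1)) = Sum.inl g.1) := by
  have hO : O g.1 = (1, g.2) := N.Og g hg
  have hU : U (g.1, (O g.1).2) = U g := by rw [hO]
  refine ⟨?_, ?_, ?_, ?_, ?_, ?_, ?_⟩
  · simp [clab]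
  · simp [clab]
  · simp [clab]
  · simp [clab]
  · simp [clab]
  · intro h
    simp [clab, hO, h]
  · intro h
    simp [clab, hO, h]

theorem isLab_clab (N : Net ws gs O I) {U : P × P × P × P → Prop} {l : P → κ}
    (hC : Curves ws gs U l) : IsLab (netArcs ws gs) (clab O U l) := by
  have hport : ∀ x, clab O U l (outA O x) = Sum.inr (l x) := by
    intro x
    simp [clab, outA]
  have hpin : ∀ x, clab O U l (inA I x) = Sum.inr (l x) := by
    intro x
    unfold inA clab
    split_ifs <;> simp_all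
  refine ⟨?_, ?_, ?_, ?_⟩
  · -- successors
    intro e he
    rw [mem_netArcs] at he
    rcases he with ⟨w, hw, h⟩ | ⟨g, hg, h⟩
    · simp only [wireArcs, List.mem_cons, List.not_mem_nil, or_false] at h
      rcases h with rfl | rfl
      · refine ⟨((w.1, 5), (w.2, 0)), wire_mem hw (by simp [wireArcs]), rfl, ?_⟩
        rw [clab_w1 N, clab_w2 N, hC.resp.1 w hw]
      · refine ⟨outA O w.2, outA_mem N (N.cw w hw), rfl, ?_⟩
        rw [clab_w2 N, hport]
    · obtain ⟨c1, c2, c3, c4, c5, c6, c7⟩ := clab_gad N (U := U) (l := l) hg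
      have m1 : ((g.1, 0), (g.1, 2)) ∈ netArcs ws gs := gad_mem hg (by simp [gadArcs])
      have m2 : ((g.1, 2), (g.1, 4)) ∈ netArcs ws gs := gad_mem hg (by simp [gadArcs])
      have m3 : ((g.1, 4), (g.1, 1)) ∈ netArcs ws gs := gad_mem hg (by simp [gadArcs])
      have m4 : ((g.1, 1), (g.1, 2)) ∈ netArcs ws gs := gad_mem hg (by simp [gadArcs])
      have m5 : ((g.1, 2), (g.1, 3)) ∈ netArcs ws gs := gad_mem hg (by simp [gadArcs])
      have m6 : ((g.1, 3), (g.1, 1)) ∈ netArcs ws gs := gad_mem hg (by simp [gadArcs])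
      have m7 : ((g.1, 1), (g.2.1, 0)) ∈ netArcs ws gs := gad_mem hg (by simp [gadArcs])
      have m8 : ((g.2.2.1, 0), (g.1, 3)) ∈ netArcs ws gs := gad_mem hg (by simp [gadArcs])
      have m9 : ((g.1, 3), (g.2.2.2, 0)) ∈ netArcs ws gs := gad_mem hg (by simp [gadArcs])
      simp only [gadArcs, List.mem_cons, List.not_mem_nil, or_false] at h
      by_cases hu : U g
      · obtain ⟨d1, d2, d3, d4⟩ := c6 hu
        obtain ⟨f1, f2⟩ := hC.resp.2.1 g hg hu
        rcases h with rfl | rfl | rfl | rfl | rfl | rfl | rfl | rfl | rfl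
        · exact ⟨_, m5, rfl, by rw [d3, c1]⟩
        · exact ⟨_, m3, rfl, by rw [d2, d1]⟩
        · exact ⟨_, m4, rfl, by rw [c2, d2]⟩
        · exact ⟨_, m2, rfl, by rw [d1, c2]⟩
        · exact ⟨_, m9, rfl, by rw [c5, d3, f1]⟩
        · exact ⟨_, m7, rfl, by rw [c3, d4]⟩
        · exact ⟨_, outA_mem N (N.cr g hg), rfl, by rw [hport, c3]⟩
        · exact ⟨_, m6, rfl, by rw [d4, c4, f2]⟩
        · exact ⟨_, outA_mem N (N.cq g hg), rfl, by rw [hport, c5]⟩
      · obtain ⟨d1, d2, d3, d4⟩ := c7 hu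
        obtain ⟨f1, f2⟩ := hC.resp.2.2 g hg hu
        rcases h with rfl | rfl | rfl | rfl | rfl | rfl | rfl | rfl | rfl
        · exact ⟨_, m2, rfl, by rw [d1, c1]⟩
        · exact ⟨_, m3, rfl, by rw [d2, d1]⟩
        · exact ⟨_, m7, rfl, by rw [c3, d2, f1]⟩
        · exact ⟨_, m5, rfl, by rw [d3, c2]⟩
        · exact ⟨_, m6, rfl, by rw [d4, d3]⟩
        · exact ⟨_, m4, rfl, by rw [c2, d4]⟩
        · exact ⟨_, outA_mem N (N.cr g hg), rfl, by rw [hport, c3]⟩
        · exact ⟨_, m9, rfl, by rw [c5, c4, f2]⟩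
        · exact ⟨_, outA_mem N (N.cq g hg), rfl, by rw [hport, c5]⟩
  · -- tails
    rintro ⟨⟨a1, n1⟩, b1⟩ he ⟨⟨a2, n2⟩, b2⟩ he' hl hs
    simp only [Prod.mk.injEq] at hs
    obtain ⟨rfl, rfl⟩ := hs
    rcases out_cases N he with ⟨h1, h2, h3⟩ | ⟨h1, w, hw, h2, h3⟩ | ⟨g, hg, h1, h2⟩
    · rcases out_cases N he' with ⟨h1', h2', h3'⟩ | ⟨h1', _⟩ | ⟨g, _, _, h2'⟩
      · rw [h2, h2']
      · dsimp only at h1 h1'
        omega
      · dsimp only at h1 h2'
        subst h1
        simp at h2'
    · dsimp only at h1 h2 h3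
      subst h1 h2 h3
      rcases out_cases N he' with ⟨h1', _⟩ | ⟨_, w', hw', h2', h3'⟩ | ⟨g, _, _, h2'⟩
      · simp at h1'
      · have := wire_eq N hw' hw h2'
        subst this
        exact Prod.ext rfl h3'.symm
      · simp at h2'
    · dsimp only at h1
      subst h1
      obtain ⟨c1, c2, c3, c4, c5, c6, c7⟩ := clab_gad N (U := U) (l := l) hg
      rcases out_cases N he' with ⟨h1', _⟩ | ⟨h1', _⟩ | ⟨g', hg', h1', h2'⟩
      · dsimp only at h1'
        subst h1'
        simp at h2
      · dsimp only at h1'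
        subst h1'
        simp at h2
      · have := gad_eq N hg' hg h1'
        subst this
        dsimp only at h2 h2'
        rcases h2 with ⟨rfl, h2⟩ | ⟨rfl, h2⟩ | ⟨rfl, h2⟩ | ⟨rfl, h2⟩
        · simp only [OfNat.one_ne_ofNat, false_and, or_false, true_and] at h2'
          rcases h2 with rfl | rfl <;> rcases h2' with rfl | rfl
          · rfl
          · rw [c2, c3] at hl
            simp at hl
          · rw [c2, c3] at hl
            simp at hl
          · rfl
        · simp only [OfNat.ofNat_ne_one, Nat.reduceEqDiff, false_and, or_false, false_or,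
            true_and] at h2'
          by_cases hu : U g'
          · obtain ⟨d1, d2, d3, d4⟩ := c6 hu
            rcases h2 with rfl | rfl <;> rcases h2' with rfl | rfl
            · rfl
            · rw [d1, d3] at hl
              simp at hl
            · rw [d1, d3] at hl
              simp at hl
            · rfl
          · obtain ⟨d1, d2, d3, d4⟩ := c7 hu
            rcases h2 with rfl | rfl <;> rcases h2' with rfl | rfl
            · rfl
            · rw [d1, d3] at hl
              simp at hl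
            · rw [d1, d3] at hl
              simp at hl
            · rfl
        · simp only [OfNat.ofNat_ne_one, Nat.reduceEqDiff, false_and, or_false, false_or,
            true_and] at h2'
          by_cases hu : U g'
          · obtain ⟨d1, d2, d3, d4⟩ := c6 hu
            obtain ⟨f1, f2⟩ := hC.resp.2.1 g' hg hu
            have f3 := hC.sides g' hg hu
            rcases h2 with rfl | rfl <;> rcases h2' with rfl | rfl
            · rfl
            · rw [d4, c5, ← f1, ← f2] at hl
              exact absurd (Sum.inr_injective hl).symm f3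
            · rw [d4, c5, ← f1, ← f2] at hl
              exact absurd (Sum.inr_injective hl) f3
            · rfl
          · obtain ⟨d1, d2, d3, d4⟩ := c7 hu
            rcases h2 with rfl | rfl <;> rcases h2' with rfl | rfl
            · rfl
            · rw [d4, c5] at hl
              simp at hl
            · rw [d4, c5] at hl
              simp at hl
            · rfl
        · simp only [OfNat.ofNat_ne_one, Nat.reduceEqDiff, false_and, or_false, false_or,
            true_and] at h2'
          rw [h2, h2']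
  · -- heads
    rintro ⟨b1, ⟨a1, n1⟩⟩ he ⟨b2, ⟨a2, n2⟩⟩ he' hl hs
    simp only [Prod.mk.injEq] at hs
    obtain ⟨rfl, rfl⟩ := hs
    rcases in_cases N he with ⟨h1, h2, h3⟩ | ⟨h1, h2, h3⟩ | ⟨g, hg, h1, h2⟩
    · dsimp only at h1
      subst h1
      rcases in_cases N he' with ⟨h1', h2', h3'⟩ | ⟨h1', _⟩ | ⟨g, _, _, h2'⟩
      · rw [h2, h2']
      · simp at h1'
      · simp at h2'
    · dsimp only at h1
      subst h1
      rcases in_cases N he' with ⟨h1', _⟩ | ⟨_, h2', h3'⟩ | ⟨g, _, _, h2'⟩
      · simp at h1'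
      · rw [h2, h2']
      · simp at h2'
    · dsimp only at h1
      subst h1
      obtain ⟨c1, c2, c3, c4, c5, c6, c7⟩ := clab_gad N (U := U) (l := l) hg
      rcases in_cases N he' with ⟨h1', _⟩ | ⟨h1', _⟩ | ⟨g', hg', h1', h2'⟩
      · dsimp only at h1'
        subst h1'
        simp at h2
      · dsimp only at h1'
        subst h1'
        simp at h2
      · have := gad_eq N hg' hg h1'
        subst this
        dsimp only at h2 h2'
        rcases h2 with ⟨rfl, h2⟩ | ⟨rfl, h2⟩ | ⟨rfl, h2⟩ | ⟨rfl, h2⟩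
        · simp only [OfNat.one_ne_ofNat, false_and, or_false, true_and] at h2'
          by_cases hu : U g'
          · obtain ⟨d1, d2, d3, d4⟩ := c6 hu
            rcases h2 with rfl | rfl <;> rcases h2' with rfl | rfl
            · rfl
            · rw [d2, d4] at hl
              simp at hl
            · rw [d2, d4] at hl
              simp at hl
            · rfl
          · obtain ⟨d1, d2, d3, d4⟩ := c7 hu
            rcases h2 with rfl | rfl <;> rcases h2' with rfl | rfl
            · rfl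
            · rw [d2, d4] at hl
              simp at hl
            · rw [d2, d4] at hl
              simp at hl
            · rfl
        · simp only [OfNat.ofNat_ne_one, Nat.reduceEqDiff, false_and, or_false, false_or,
            true_and] at h2'
          rcases h2 with rfl | rfl <;> rcases h2' with rfl | rfl
          · rfl
          · rw [c2, c1] at hl
            simp at hl
          · rw [c2, c1] at hl
            simp at hl
          · rfl
        · simp only [OfNat.ofNat_ne_one, Nat.reduceEqDiff, false_and, or_false, false_or,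
            true_and] at h2'
          by_cases hu : U g'
          · obtain ⟨d1, d2, d3, d4⟩ := c6 hu
            have f3 := hC.sides g' hg hu
            rcases h2 with rfl | rfl <;> rcases h2' with rfl | rfl
            · rfl
            · rw [d3, c4] at hl
              exact absurd (Sum.inr_injective hl) f3
            · rw [d3, c4] at hl
              exact absurd (Sum.inr_injective hl).symm f3
            · rfl
          · obtain ⟨d1, d2, d3, d4⟩ := c7 hu
            rcases h2 with rfl | rfl <;> rcases h2' with rfl | rfl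
            · rfl
            · rw [d3, c4] at hl
              simp at hl
            · rw [d3, c4] at hl
              simp at hl
            · rfl
        · simp only [OfNat.ofNat_ne_one, Nat.reduceEqDiff, false_and, or_false, false_or,
            true_and] at h2'
          rw [h2, h2']
  · -- classes are connected
    intro f hf
    have m1 : ∀ g ∈ gs, ((g.1, 0), (g.1, 2)) ∈ netArcs ws gs :=
      fun g hg => gad_mem hg (by simp [gadArcs])
    have m2 : ∀ g ∈ gs, ((g.1, 2), (g.1, 4)) ∈ netArcs ws gs :=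
      fun g hg => gad_mem hg (by simp [gadArcs])
    have m3 : ∀ g ∈ gs, ((g.1, 4), (g.1, 1)) ∈ netArcs ws gs :=
      fun g hg => gad_mem hg (by simp [gadArcs])
    have m4 : ∀ g ∈ gs, ((g.1, 1), (g.1, 2)) ∈ netArcs ws gs :=
      fun g hg => gad_mem hg (by simp [gadArcs])
    have m5 : ∀ g ∈ gs, ((g.1, 2), (g.1, 3)) ∈ netArcs ws gs :=
      fun g hg => gad_mem hg (by simp [gadArcs])
    have m6 : ∀ g ∈ gs, ((g.1, 3), (g.1, 1)) ∈ netArcs ws gs :=
      fun g hg => gad_mem hg (by simp [gadArcs])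
    have m7 : ∀ g ∈ gs, ((g.1, 1), (g.2.1, 0)) ∈ netArcs ws gs :=
      fun g hg => gad_mem hg (by simp [gadArcs])
    have m8 : ∀ g ∈ gs, ((g.2.2.1, 0), (g.1, 3)) ∈ netArcs ws gs :=
      fun g hg => gad_mem hg (by simp [gadArcs])
    have m9 : ∀ g ∈ gs, ((g.1, 3), (g.2.2.2, 0)) ∈ netArcs ws gs :=
      fun g hg => gad_mem hg (by simp [gadArcs])
    have key : ∀ g ∈ gs,
        (U g → (f ((g.1, 0), (g.1, 2)) ↔ f ((g.1, 2), (g.1, 3))) ∧
          (f ((g.1, 2), (g.1, 3)) ↔ f ((g.1, 3), (g.2.2.2, 0))) ∧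
          (f ((g.2.2.1, 0), (g.1, 3)) ↔ f ((g.1, 3), (g.1, 1))) ∧
          (f ((g.1, 3), (g.1, 1)) ↔ f ((g.1, 1), (g.2.1, 0))) ∧
          (f ((g.1, 1), (g.1, 2)) ↔ f ((g.1, 2), (g.1, 4))) ∧
          (f ((g.1, 2), (g.1, 4)) ↔ f ((g.1, 4), (g.1, 1)))) ∧
        (¬ U g → (f ((g.1, 0), (g.1, 2)) ↔ f ((g.1, 2), (g.1, 4))) ∧
          (f ((g.1, 2), (g.1, 4)) ↔ f ((g.1, 4), (g.1, 1))) ∧
          (f ((g.1, 4), (g.1, 1)) ↔ f ((g.1, 1), (g.2.1, 0))) ∧
          (f ((g.2.2.1, 0), (g.1, 3)) ↔ f ((g.1, 3), (g.2.2.2, 0))) ∧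
          (f ((g.1, 1), (g.1, 2)) ↔ f ((g.1, 2), (g.1, 3))) ∧
          (f ((g.1, 2), (g.1, 3)) ↔ f ((g.1, 3), (g.1, 1)))) ∧
        (f ((g.1, 1), (g.2.1, 0)) ↔ f (outA O g.2.1)) ∧
        (f ((g.1, 3), (g.2.2.2, 0)) ↔ f (outA O g.2.2.2)) := by
      intro g hg
      obtain ⟨c1, c2, c3, c4, c5, c6, c7⟩ := clab_gad N (U := U) (l := l) hg
      refine ⟨?_, ?_, ?_, ?_⟩
      · intro hu
        obtain ⟨d1, d2, d3, d4⟩ := c6 hu
        obtain ⟨f1, f2⟩ := hC.resp.2.1 g hg hu
        refine ⟨hf _ (m1 g hg) _ (m5 g hg) rfl (by rw [d3, c1]),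
          hf _ (m5 g hg) _ (m9 g hg) rfl (by rw [c5, d3, f1]),
          hf _ (m8 g hg) _ (m6 g hg) rfl (by rw [d4, c4, f2]),
          hf _ (m6 g hg) _ (m7 g hg) rfl (by rw [c3, d4]),
          hf _ (m4 g hg) _ (m2 g hg) rfl (by rw [d1, c2]),
          hf _ (m2 g hg) _ (m3 g hg) rfl (by rw [d2, d1])⟩
      · intro hu
        obtain ⟨d1, d2, d3, d4⟩ := c7 hu
        obtain ⟨f1, f2⟩ := hC.resp.2.2 g hg hu
        refine ⟨hf _ (m1 g hg) _ (m2 g hg) rfl (by rw [d1, c1]),
          hf _ (m2 g hg) _ (m3 g hg) rfl (by rw [d2, d1]),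
          hf _ (m3 g hg) _ (m7 g hg) rfl (by rw [c3, d2, f1]),
          hf _ (m8 g hg) _ (m9 g hg) rfl (by rw [c5, c4, f2]),
          hf _ (m4 g hg) _ (m5 g hg) rfl (by rw [d3, c2]),
          hf _ (m5 g hg) _ (m6 g hg) rfl (by rw [d4, d3])⟩
      · exact hf _ (m7 g hg) _ (outA_mem N (N.cr g hg)) rfl (by rw [hport, c3])
      · exact hf _ (m9 g hg) _ (outA_mem N (N.cq g hg)) rfl (by rw [hport, c5])
    have keyw : ∀ w ∈ ws, (f ((w.1, 0), (w.1, 5)) ↔ f ((w.1, 5), (w.2, 0))) ∧
        (f ((w.1, 5), (w.2, 0)) ↔ f (outA O w.2)) := by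
      intro w hw
      refine ⟨hf _ (wire_mem hw (by simp [wireArcs])) _ (wire_mem hw (by simp [wireArcs])) rfl
        (by rw [clab_w1 N, clab_w2 N, hC.resp.1 w hw]),
        hf _ (wire_mem hw (by simp [wireArcs])) _ (outA_mem N (N.cw w hw)) rfl
        (by rw [clab_w2 N, hport])⟩
    have hR : Resp ws gs U (fun x => f (outA O x)) := by
      refine ⟨?_, ?_, ?_⟩
      · intro w hw
        apply propext
        beta_reduce
        rw [outA_w N hw]
        exact (keyw w hw).1.trans (keyw w hw).2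
      · intro g hg hu
        obtain ⟨k1, _, r1, q1⟩ := key g hg
        obtain ⟨a1, a2, a3, a4, a5, a6⟩ := k1 hu
        constructor
        · apply propext
          beta_reduce
          rw [outA_s N hg]
          exact a1.trans (a2.trans q1)
        · apply propext
          beta_reduce
          rw [outA_p N hg]
          exact a3.trans (a4.trans r1)
      · intro g hg hu
        obtain ⟨_, k1, r1, q1⟩ := key g hg
        obtain ⟨a1, a2, a3, a4, a5, a6⟩ := k1 hu
        constructor
        · apply propext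
          beta_reduce
          rw [outA_s N hg]
          exact a1.trans (a2.trans (a3.trans r1))
        · apply propext
          beta_reduce
          rw [outA_p N hg]
          exact a4.trans q1
    have huniv := hC.univ _ hR
    -- every arc is linked with a port or with the arc `a → b`
    have hlink : ∀ e ∈ netArcs ws gs,
        (∃ x ∈ srcs ws gs, clab O U l e = Sum.inr (l x) ∧ (f e ↔ f (outA O x))) ∨
        (∃ g ∈ gs, clab O U l e = Sum.inl g.1 ∧ (f e ↔ f ((g.1, 1), (g.1, 2)))) := by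
      intro e he
      rw [mem_netArcs] at he
      rcases he with ⟨w, hw, h⟩ | ⟨g, hg, h⟩
      · left
        simp only [wireArcs, List.mem_cons, List.not_mem_nil, or_false] at h
        rcases h with rfl | rfl
        · refine ⟨w.1, mem_srcs.2 (Or.inl ⟨w, hw, rfl⟩), clab_w1 N, ?_⟩
          rw [outA_w N hw]
        · exact ⟨w.2, N.cw w hw, clab_w2 N, (keyw w hw).2⟩
      · obtain ⟨c1, c2, c3, c4, c5, c6, c7⟩ := clab_gad N (U := U) (l := l) hg
        have hs : g.1 ∈ srcs ws gs := mem_srcs.2 (Or.inr (Or.inl ⟨g, hg, rfl⟩))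
        have hp : g.2.2.1 ∈ srcs ws gs := mem_srcs.2 (Or.inr (Or.inr ⟨g, hg, rfl⟩))
        obtain ⟨kU, kN, r1, q1⟩ := key g hg
        have oS := outA_s N hg
        have oP := outA_p N hg
        simp only [gadArcs, List.mem_cons, List.not_mem_nil, or_false] at h
        by_cases hu : U g
        · obtain ⟨d1, d2, d3, d4⟩ := c6 hu
          obtain ⟨a1, a2, a3, a4, a5, a6⟩ := kU hu
          rcases h with rfl | rfl | rfl | rfl | rfl | rfl | rfl | rfl | rfl
          · exact Or.inl ⟨g.1, hs, c1, by rw [oS]⟩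
          · exact Or.inr ⟨g, hg, d1, a5.symm⟩
          · exact Or.inr ⟨g, hg, d2, a6.symm.trans a5.symm⟩
          · exact Or.inr ⟨g, hg, c2, Iff.rfl⟩
          · exact Or.inl ⟨g.1, hs, d3, by rw [oS]; exact a1.symm⟩
          · exact Or.inl ⟨g.2.1, N.cr g hg, d4, a4.trans r1⟩
          · exact Or.inl ⟨g.2.1, N.cr g hg, c3, r1⟩
          · exact Or.inl ⟨g.2.2.1, hp, c4, by rw [oP]⟩
          · exact Or.inl ⟨g.2.2.2, N.cq g hg, c5, q1⟩
        · obtain ⟨d1, d2, d3, d4⟩ := c7 hu
          obtain ⟨a1, a2, a3, a4, a5, a6⟩ := kN hu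
          rcases h with rfl | rfl | rfl | rfl | rfl | rfl | rfl | rfl | rfl
          · exact Or.inl ⟨g.1, hs, c1, by rw [oS]⟩
          · exact Or.inl ⟨g.1, hs, d1, by rw [oS]; exact a1.symm⟩
          · exact Or.inl ⟨g.1, hs, d2, by rw [oS]; exact a2.symm.trans a1.symm⟩
          · exact Or.inr ⟨g, hg, c2, Iff.rfl⟩
          · exact Or.inr ⟨g, hg, d3, a5.symm⟩
          · exact Or.inr ⟨g, hg, d4, a6.symm.trans a5.symm⟩
          · exact Or.inl ⟨g.2.1, N.cr g hg, c3, r1⟩
          · exact Or.inl ⟨g.2.2.1, hp, c4, by rw [oP]⟩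
          · exact Or.inl ⟨g.2.2.2, N.cq g hg, c5, q1⟩
    intro e he e' he' hl
    rcases hlink e he with ⟨x, hx, h1, h2⟩ | ⟨g, hg, h1, h2⟩ <;>
      rcases hlink e' he' with ⟨y, hy, h3, h4⟩ | ⟨g', hg', h3, h4⟩
    · rw [h2, h4]
      rw [h1, h3] at hl
      exact huniv x hx y hy (Sum.inr_injective hl)
    · rw [h1, h3] at hl
      simp at hl
    · rw [h1, h3] at hl
      simp at hl
    · rw [h1, h3] at hl
      have := gad_eq N hg hg' (Sum.inl_injective hl)
      subst this
      rw [h2, h4]

/-- From curves to a decomposition. -/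
theorem decomp_of_curves [DecidableEq P] [DecidableEq κ] (N : Net ws gs O I) {k : ℕ}
    {U : P × P × P × P → Prop} {l : P → κ} (hC : Curves ws gs U l)
    (hk : ((srcs ws gs).toFinset.image l).card ≤ k) :
    Decomp (netArcs ws gs) (gs.length + k) := by
  refine decomp_of_lab (netArcs_nodup N) (fun e he => netArcs_loop he) (isLab_clab N hC) ?_
  have hsub : (netArcs ws gs).toFinset.image (clab O U l) ⊆
      (gs.map Prod.fst).toFinset.image Sum.inl ∪
        ((srcs ws gs).toFinset.image l).image Sum.inr := by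
    intro i hi
    rw [Finset.mem_image] at hi
    obtain ⟨e, he, rfl⟩ := hi
    rw [List.mem_toFinset, mem_netArcs] at he
    rw [Finset.mem_union]
    rcases he with ⟨w, hw, h⟩ | ⟨g, hg, h⟩
    · right
      simp only [wireArcs, List.mem_cons, List.not_mem_nil, or_false] at h
      rcases h with rfl | rfl
      · rw [clab_w1 N]
        exact Finset.mem_image_of_mem _ (Finset.mem_image_of_mem _
          (List.mem_toFinset.2 (mem_srcs.2 (Or.inl ⟨w, hw, rfl⟩))))
      · rw [clab_w2 N]
        exact Finset.mem_image_of_mem _ (Finset.mem_image_of_mem _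
          (List.mem_toFinset.2 (N.cw w hw)))
    · obtain ⟨c1, c2, c3, c4, c5, c6, c7⟩ := clab_gad N (U := U) (l := l) hg
      have hin : Sum.inl g.1 ∈ (gs.map Prod.fst).toFinset.image (Sum.inl : P → P ⊕ κ) :=
        Finset.mem_image_of_mem _ (List.mem_toFinset.2 (List.mem_map_of_mem hg))
      have hout : ∀ x ∈ srcs ws gs, (Sum.inr (l x) : P ⊕ κ) ∈
          ((srcs ws gs).toFinset.image l).image Sum.inr := fun x hx =>
        Finset.mem_image_of_mem _ (Finset.mem_image_of_mem _ (List.mem_toFinset.2 hx))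
      have hs : g.1 ∈ srcs ws gs := mem_srcs.2 (Or.inr (Or.inl ⟨g, hg, rfl⟩))
      have hp : g.2.2.1 ∈ srcs ws gs := mem_srcs.2 (Or.inr (Or.inr ⟨g, hg, rfl⟩))
      have hr := N.cr g hg
      have hq := N.cq g hg
      simp only [gadArcs, List.mem_cons, List.not_mem_nil, or_false] at h
      by_cases hu : U g
      · obtain ⟨d1, d2, d3, d4⟩ := c6 hu
        rcases h with rfl | rfl | rfl | rfl | rfl | rfl | rfl | rfl | rfl
        · rw [c1]; exact Or.inr (hout _ hs)
        · rw [d1]; exact Or.inl hin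
        · rw [d2]; exact Or.inl hin
        · rw [c2]; exact Or.inl hin
        · rw [d3]; exact Or.inr (hout _ hs)
        · rw [d4]; exact Or.inr (hout _ hr)
        · rw [c3]; exact Or.inr (hout _ hr)
        · rw [c4]; exact Or.inr (hout _ hp)
        · rw [c5]; exact Or.inr (hout _ hq)
      · obtain ⟨d1, d2, d3, d4⟩ := c7 hu
        rcases h with rfl | rfl | rfl | rfl | rfl | rfl | rfl | rfl | rfl
        · rw [c1]; exact Or.inr (hout _ hs)
        · rw [d1]; exact Or.inr (hout _ hs)
        · rw [d2]; exact Or.inr (hout _ hs)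
        · rw [c2]; exact Or.inl hin
        · rw [d3]; exact Or.inl hin
        · rw [d4]; exact Or.inl hin
        · rw [c3]; exact Or.inr (hout _ hr)
        · rw [c4]; exact Or.inr (hout _ hp)
        · rw [c5]; exact Or.inr (hout _ hq)
  calc _ ≤ _ := Finset.card_le_card hsub
    _ ≤ _ := Finset.card_union_le _ _
    _ ≤ gs.length + k := by
      refine Nat.add_le_add ?_ ?_
      · calc _ ≤ (gs.map Prod.fst).toFinset.card := Finset.card_image_le
          _ ≤ (gs.map Prod.fst).length := List.toFinset_card_le _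
          _ = gs.length := List.length_map _
      · exact Finset.card_image_le.trans hk

end Pool.Agent.KS6_48.DCD
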