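import Mathlib

/-!
# Hamiltonian paths from degrees and connectivity
-/

namespace Pool.Agent.KS6_48.DCD

/-- A symmetric relation on a finite set `Q` in which `s` and `t` have one neighbour and all other
elements two, connected in the sense that no closed set contains `s` and `t` but not everything,
has a Hamiltonian path from `s` to `t`. -/
theorem exists_path {V : Type} (Q : Finset V) (A : V → V → Prop) {s t : V} (hs : s ∈ Q)
    (hst : s ≠ t) (hsym : ∀ u v, A u v → A v u) (hirr : ∀ u, ¬ A u u)
    (d1 : ∃ v ∈ Q, A s v ∧ ∀ w ∈ Q, A s w → w = v)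
    (d1' : ∃ v ∈ Q, A t v ∧ ∀ w ∈ Q, A t w → w = v)
    (d2 : ∀ u ∈ Q, u ≠ s → u ≠ t → ∃ v ∈ Q, ∃ w ∈ Q, v ≠ w ∧ A u v ∧ A u w ∧
      ∀ x ∈ Q, A u x → x = v ∨ x = w)
    (hconn : ∀ X : V → Prop, X s → X t → (∀ u ∈ Q, ∀ v ∈ Q, A u v → (X u ↔ X v)) →
      ∀ u ∈ Q, X u) :
    ∃ l : List V, l.Nodup ∧ (∀ v, v ∈ l ↔ v ∈ Q) ∧ l.IsChain A ∧ l.head? = some s ∧
      l.getLast? = some t := by
  classical
  let P : ℕ → Prop := fun k => ∃ p : ℕ → V, p 0 = s ∧ (∀ i ≤ k, p i ∈ Q) ∧
    (∀ i ≤ k, ∀ j ≤ k, p i = p j → i = j) ∧ ∀ i < k, A (p i) (p (i + 1))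
  have hP0 : P 0 := ⟨fun _ => s, rfl, fun _ _ => hs, fun i hi j hj _ => by omega,
    fun i hi => by omega⟩
  have hbd : ∀ k, P k → k ≤ Q.card := by
    rintro k ⟨p, _, h2, h3, _⟩
    have : (Finset.range (k + 1)).card ≤ Q.card := by
      refine Finset.card_le_card_of_injOn p ?_ ?_
      · intro i hi
        exact h2 i (by have := Finset.mem_range.1 (Finset.mem_coe.1 hi); omega)
      · intro i hi j hj h
        exact h3 i (by have := Finset.mem_range.1 (Finset.mem_coe.1 hi); omega) j
          (by have := Finset.mem_range.1 (Finset.mem_coe.1 hj); omega) h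
    rw [Finset.card_range] at this
    omega
  set k := Nat.findGreatest P Q.card with hk
  have hPk : P k := Nat.findGreatest_spec (Nat.zero_le _) hP0
  have hmax : ∀ m, P m → m ≤ k := fun m hm => Nat.le_findGreatest (hbd m hm) hm
  obtain ⟨p, p0, pQ, pinj, pA⟩ := hPk
  -- interior vertices have only their neighbours on the path
  have hint : ∀ i, 0 < i → i < k → p i ≠ t → ∀ v ∈ Q, A (p i) v → v = p (i - 1) ∨
      v = p (i + 1) := by
    intro i h1 h2 h3 v hv hA
    have h4 : p i ≠ s := by
      intro h
      rw [← p0] at h
      have := pinj i h2.le 0 (by omega) h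
      omega
    obtain ⟨a, _, b, _, _, _, _, hab⟩ := d2 (p i) (pQ i h2.le) h4 h3
    have e1 := hab (p (i - 1)) (pQ _ (by omega)) (hsym _ _ (by
      have := pA (i - 1) (by omega)
      rwa [show i - 1 + 1 = i by omega] at this))
    have e2 := hab (p (i + 1)) (pQ _ (by omega)) (pA i h2)
    have e3 := hab v hv hA
    have e4 : p (i - 1) ≠ p (i + 1) := by
      intro h
      have := pinj _ (by omega) _ (by omega) h
      omega
    rcases e1 with e1 | e1 <;> rcases e2 with e2 | e2 <;> rcases e3 with e3 | e3
    · exact absurd (e1.trans e2.symm) e4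
    · exact absurd (e1.trans e2.symm) e4
    · exact Or.inl (e3.trans e1.symm)
    · exact Or.inr (e3.trans e2.symm)
    · exact Or.inr (e3.trans e2.symm)
    · exact Or.inl (e3.trans e1.symm)
    · exact absurd (e1.trans e2.symm) e4
    · exact absurd (e1.trans e2.symm) e4
  have hst0 : ∀ v ∈ Q, 0 < k → A s v → v = p 1 := by
    intro v hv h0 hA
    obtain ⟨a, _, _, ha⟩ := d1
    have e1 := ha (p 1) (pQ 1 (by omega)) (by
      have := pA 0 h0
      rwa [p0] at this)
    exact (ha v hv hA).trans e1.symm
  -- all neighbours of the end are on the path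
  have hend : ∀ v ∈ Q, A (p k) v → ∃ j ≤ k, p j = v := by
    intro v hv hA
    by_contra hne
    push Not at hne
    have : P (k + 1) := by
      refine ⟨fun i => if i ≤ k then p i else v, ?_, ?_, ?_, ?_⟩
      · simp [p0]
      · intro i hi
        by_cases h : i ≤ k
        · simp only [h, if_true]
          exact pQ i h
        · simp only [h, if_false]
          exact hv
      · intro i hi j hj h
        by_cases h1 : i ≤ k <;> by_cases h2 : j ≤ k <;>
          simp only [h1, h2, if_true, if_false] at h
        · exact pinj i h1 j h2 h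
        · exact absurd h (hne i h1)
        · exact absurd h.symm (hne j h2)
        · omega
      · intro i hi
        by_cases h : i + 1 ≤ k
        · simp only [h, show i ≤ k by omega, if_true]
          exact pA i (by omega)
        · have : i = k := by omega
          subst this
          simp only [le_refl, h, if_true, if_false]
          exact hA
    have := hmax _ this
    omega
  -- some interior vertex could be `t`; the path stops at `t`
  have htk : p k = t := by
    -- first, `t` is not an interior vertex
    have hnt : ∀ i, 0 < i → i < k → p i ≠ t := by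
      intro i h1 h2 h3
      obtain ⟨a, _, _, ha⟩ := d1'
      have e1 := ha (p (i - 1)) (pQ _ (by omega)) (hsym _ _ (by
        have := pA (i - 1) (by omega)
        rwa [show i - 1 + 1 = i by omega, h3] at this))
      have e2 := ha (p (i + 1)) (pQ _ (by omega)) (by
        have := pA i h2
        rwa [h3] at this)
      have := pinj _ (by omega) _ (by omega) (e1.trans e2.symm)
      omega
    by_contra hne
    rcases Nat.eq_zero_or_pos k with h0 | h0
    · obtain ⟨a, ha, hsa, _⟩ := d1
      obtain ⟨j, hj, h⟩ := hend a ha (by rw [h0, p0]; exact hsa)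
      have : j = 0 := by omega
      subst this
      rw [p0] at h
      subst h
      exact hirr _ hsa
    · have h4 : p k ≠ s := by
        intro h
        rw [← p0] at h
        have := pinj k le_rfl 0 (by omega) h
        omega
      obtain ⟨a, ha, b, hb, hab, hA, hB, _⟩ := d2 (p k) (pQ k le_rfl) h4 hne
      have key : ∀ v ∈ Q, A (p k) v → v = p (k - 1) := by
        intro v hv hA
        obtain ⟨j, hj, rfl⟩ := hend v hv hA
        rcases Nat.eq_zero_or_pos j with hj0 | hj0
        · subst hj0
          have := hst0 (p k) (pQ k le_rfl) h0 (by rw [← p0]; exact hsym _ _ hA)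
          have := pinj _ le_rfl _ (by omega) this
          rw [this]
        · rcases Nat.lt_or_ge j k with hjk | hjk
          · rcases hint j hj0 hjk (hnt j hj0 hjk) (p k) (pQ k le_rfl) (hsym _ _ hA) with h | h
            · have := pinj _ le_rfl _ (by omega) h
              omega
            · have := pinj _ le_rfl _ (by omega) h
              rw [this]
              simp
          · have : j = k := by omega
            subst this
            exact absurd hA (hirr _)
      exact hab ((key a ha hA).trans (key b hb hB).symm)
  have hk0 : 0 < k := by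
    rcases Nat.eq_zero_or_pos k with h0 | h0
    · rw [h0, p0] at htk
      exact absurd htk hst
    · exact h0
  have hnt : ∀ i < k, p i ≠ t := by
    intro i h h'
    rw [← htk] at h'
    have := pinj _ h.le _ le_rfl h'
    omega
  -- the set of vertices of the path is closed
  have hall : ∀ u ∈ Q, ∃ j ≤ k, p j = u := by
    have hcl : ∀ j ≤ k, ∀ v ∈ Q, A (p j) v → ∃ j' ≤ k, p j' = v := by
      intro j hj v hv hA
      rcases Nat.eq_zero_or_pos j with hj0 | hj0
      · subst hj0
        exact ⟨1, by omega, (hst0 v hv hk0 (by rwa [p0] at hA)).symm⟩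
      · rcases Nat.lt_or_ge j k with hjk | hjk
        · rcases hint j hj0 hjk (hnt j hjk) v hv hA with h | h
          · exact ⟨j - 1, by omega, h.symm⟩
          · exact ⟨j + 1, by omega, h.symm⟩
        · have : j = k := by omega
          subst this
          exact hend v hv hA
    refine hconn (fun u => ∃ j ≤ k, p j = u) ⟨0, by omega, p0⟩ ⟨k, le_rfl, htk⟩ ?_
    intro u hu v hv hA
    constructor
    · rintro ⟨j, hj, rfl⟩
      exact hcl j hj v hv hA
    · rintro ⟨j, hj, rfl⟩
      exact hcl j hj u hu (hsym _ _ hA)
  refine ⟨(List.range (k + 1)).map p, ?_, ?_, ?_, ?_, ?_⟩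
  · rw [List.nodup_map_iff_inj_on List.nodup_range]
    intro i hi j hj h
    rw [List.mem_range] at hi hj
    exact pinj i (by omega) j (by omega) h
  · intro v
    rw [List.mem_map]
    constructor
    · rintro ⟨i, hi, rfl⟩
      rw [List.mem_range] at hi
      exact pQ i (by omega)
    · intro hv
      obtain ⟨j, hj, h⟩ := hall v hv
      exact ⟨j, List.mem_range.2 (by omega), h⟩
  · rw [List.isChain_iff_getElem]
    intro i hi
    rw [List.length_map, List.length_range] at hi
    rw [List.getElem_map, List.getElem_map, List.getElem_range, List.getElem_range]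
    exact pA i (by omega)
  · rw [List.range_succ_eq_map]
    simp [p0]
  · rw [List.range_succ, List.map_append]
    simp [htk]

end Pool.Agent.KS6_48.DCD
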