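import Pool.Agent.KS6_48.DCD.Count
import Pool.Agent.KS6_48.DCD.Path

/-!
# Two curves give a Hamiltonian cycle
-/

namespace Pool.Agent.KS6_48.DCD

open Finset

section

open Classical

variable {c : ℕ → ℕ → Bool} {W H : ℕ} {U : Port × Port × Port × Port → Prop}
  {κ : Type} {l : Port → κ}

theorem no_three (hk : ((srcs (gws c W H) (ggs c W H)).toFinset.image l).card ≤ 2)
    {p q r : Port} (hp : p ∈ srcs (gws c W H) (ggs c W H))
    (hq : q ∈ srcs (gws c W H) (ggs c W H)) (hr : r ∈ srcs (gws c W H) (ggs c W H))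
    (h1 : l p ≠ l q) (h2 : l p ≠ l r) (h3 : l q ≠ l r) : False := by
  have hsub : ({l p, l q, l r} : Finset κ) ⊆
      (srcs (gws c W H) (ggs c W H)).toFinset.image l := by
    intro i hi
    simp only [mem_insert, mem_singleton] at hi
    rcases hi with rfl | rfl | rfl
    · exact mem_image_of_mem _ (List.mem_toFinset.2 hp)
    · exact mem_image_of_mem _ (List.mem_toFinset.2 hq)
    · exact mem_image_of_mem _ (List.mem_toFinset.2 hr)
  have h4 : ({l p, l q, l r} : Finset κ).card = 3 := by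
    rw [card_insert_of_notMem, card_insert_of_notMem, card_singleton]
    · simpa using h3
    · simp only [mem_insert, mem_singleton]
      push Not
      exact ⟨h1, h2⟩
  have := card_le_card hsub
  omega

theorem deg_ne_one (hC : Curves (gws c W H) (ggs c W H) U l) {p : ℕ × ℕ}
    (hp : p ∈ cells c W H) : deg c W H U p ≠ 1 := by
  intro h
  unfold deg at h
  rw [card_eq_one] at h
  obtain ⟨j, hj⟩ := h
  obtain ⟨x, y⟩ := p
  rw [mem_cells] at hp
  obtain ⟨hx, hy, hc⟩ := hp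
  have hj4 : j < 4 ∧ UD c W H U x y j := by
    have : j ∈ (range 4).filter fun j => UD c W H U x y j := by rw [hj]; simp
    rw [mem_filter, mem_range] at this
    exact this
  have hne := used_ne hC hj4.2
  have hoth : ∀ i < 4, i ≠ j → l (x, y, (i + 3) % 4) = l (x, y, i) := by
    intro i hi hij
    refine resp_unused hC.resp hx hy hc hi ?_
    intro h
    have : i ∈ (range 4).filter fun j => UD c W H U x y j := by
      rw [mem_filter, mem_range]
      exact ⟨hi, h⟩
    rw [hj, mem_singleton] at this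
    exact hij this
  have hj' : j = 0 ∨ j = 1 ∨ j = 2 ∨ j = 3 := by omega
  rcases hj' with rfl | rfl | rfl | rfl
  · have h1 := hoth 1 (by omega) (by omega)
    have h2 := hoth 2 (by omega) (by omega)
    have h3 := hoth 3 (by omega) (by omega)
    exact hne ((h1.trans (h2.trans h3)).symm)
  · have h1 := hoth 0 (by omega) (by omega)
    have h2 := hoth 2 (by omega) (by omega)
    have h3 := hoth 3 (by omega) (by omega)
    exact hne ((h2.trans (h3.trans h1)).symm)
  · have h1 := hoth 0 (by omega) (by omega)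
    have h2 := hoth 1 (by omega) (by omega)
    have h3 := hoth 3 (by omega) (by omega)
    exact hne ((h3.trans (h1.trans h2)).symm)
  · have h1 := hoth 0 (by omega) (by omega)
    have h2 := hoth 1 (by omega) (by omega)
    have h3 := hoth 2 (by omega) (by omega)
    exact hne ((h1.trans (h2.trans h3)).symm)

theorem ud_closed {X : ℕ → ℕ → Prop}
    (hX : ∀ x y, X x y → ∀ j, ¬ UD c W H U x y j) :
    (∀ x y, hE c W H U x y → ¬ X x y ∧ ¬ X (x + 1) y) ∧
    (∀ x y, hV c W H U x y → ¬ X x y ∧ ¬ X x (y + 1)) := by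
  refine ⟨fun x y h => ⟨fun h' => hX _ _ h' 0 (Or.inl ⟨rfl, h⟩),
    fun h' => hX _ _ h' 2 (Or.inr (Or.inr (Or.inl ⟨rfl, x, rfl, h⟩)))⟩,
    fun x y h => ⟨fun h' => hX _ _ h' 1 (Or.inr (Or.inl ⟨rfl, h⟩)),
    fun h' => hX _ _ h' 3 (Or.inr (Or.inr (Or.inr ⟨rfl, y, rfl, h⟩)))⟩⟩

theorem deg_ne_zero (hW : ∀ y ≤ H, c W y = true) (hH : 2 ≤ H)
    (hC : Curves (gws c W H) (ggs c W H) U l)
    (hk : ((srcs (gws c W H) (ggs c W H)).toFinset.image l).card ≤ 2) {p : ℕ × ℕ}
    (hp : p ∈ cells c W H) : deg c W H U p ≠ 0 := by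
  -- a cell without used darts has its own label
  have own : ∀ p ∈ cells c W H, deg c W H U p = 0 → ∀ q ∈ cells c W H, q ≠ p →
      ∀ i < 4, ∀ j < 4, l (p.1, p.2, i) ≠ l (q.1, q.2, j) := by
    intro p hp h q hq hqp i hi j hj hl
    obtain ⟨x, y⟩ := p
    obtain ⟨x', y'⟩ := q
    rw [mem_cells] at hp hq
    unfold deg at h
    rw [card_eq_zero, filter_eq_empty_iff] at h
    have hX : ∀ a b, (a = x ∧ b = y) → ∀ j, ¬ UD c W H U a b j := by
      rintro a b ⟨rfl, rfl⟩ j h'
      have hj : j < 4 := by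
        rcases h' with ⟨rfl, _⟩ | ⟨rfl, _⟩ | ⟨rfl, _⟩ | ⟨rfl, _⟩ <;> omega
      exact h (mem_range.2 hj) h'
    obtain ⟨h5, h6⟩ := ud_closed hX
    have := separate hC.univ (fun a b => a = x ∧ b = y)
      (fun a b h' => ⟨fun z => absurd z (h5 a b h').1, fun z => absurd z (h5 a b h').2⟩)
      (fun a b h' => ⟨fun z => absurd z (h6 a b h').1, fun z => absurd z (h6 a b h').2⟩)
      hp.1 hp.2.1 hi hq.1 hq.2.1 hj hp.2.2 hq.2.2 hl
    have h7 := this.1 ⟨rfl, rfl⟩
    exact hqp (Prod.ext h7.1 h7.2)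
  intro h0
  have hmem : ∀ q ∈ cells c W H, ∀ i < 4, (q.1, q.2, i) ∈ srcs (gws c W H) (ggs c W H) := by
    intro q hq i hi
    rw [mem_cells] at hq
    exact mem_gsrcs hq.1 hq.2.1 hi
  -- no used darts at all
  have hall : ∀ q ∈ cells c W H, deg c W H U q = 0 := by
    intro q hq
    by_contra hne
    have hqp : q ≠ p := by
      rintro rfl
      exact hne h0
    obtain ⟨j, hj⟩ := card_pos.1 (Nat.pos_of_ne_zero hne)
    rw [mem_filter, mem_range] at hj
    have h1 := used_ne hC hj.2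
    have h2 := own p hp h0 q hq hqp 0 (by omega) ((j + 3) % 4) (by omega)
    have h3 := own p hp h0 q hq hqp 0 (by omega) j hj.1
    exact no_three hk (hmem p hp 0 (by omega)) (hmem q hq ((j + 3) % 4) (by omega))
      (hmem q hq j hj.1) h2 h3 h1
  have c0 : (W, 0) ∈ cells c W H := mem_cells.2 ⟨le_rfl, by simp, hW 0 (by omega)⟩
  have c1 : (W, 1) ∈ cells c W H := mem_cells.2 ⟨le_rfl, by simp only; omega, hW 1 (by omega)⟩
  have c2 : (W, 2) ∈ cells c W H := mem_cells.2 ⟨le_rfl, hH, hW 2 hH⟩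
  exact no_three hk (hmem _ c0 0 (by omega)) (hmem _ c1 0 (by omega)) (hmem _ c2 0 (by omega))
    (own _ c0 (hall _ c0) _ c1 (by simp) 0 (by omega) 0 (by omega))
    (own _ c0 (hall _ c0) _ c2 (by simp) 0 (by omega) 0 (by omega))
    (own _ c1 (hall _ c1) _ c2 (by simp) 0 (by omega) 0 (by omega))

theorem deg_two (hW : ∀ y ≤ H, c W y = true) (hH : 2 ≤ H)
    (hC : Curves (gws c W H) (ggs c W H) U l)
    (hk : ((srcs (gws c W H) (ggs c W H)).toFinset.image l).card ≤ 2) :
    ∀ p ∈ cells c W H, deg c W H U p = 2 := by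
  have h1 : ∀ p ∈ cells c W H, 2 ≤ deg c W H U p := by
    intro p hp
    have := deg_ne_one hC hp
    have := deg_ne_zero hW hH hC hk hp
    omega
  have h2 := edge_count hW hC.univ
  have h3 := deg_sum (c := c) (W := W) (H := H) (U := U)
  have h4 : ∑ p ∈ cells c W H, 2 = ∑ p ∈ cells c W H, deg c W H U p := by
    apply le_antisymm (sum_le_sum h1)
    rw [h3, sum_const, smul_eq_mul]
    omega
  intro p hp
  exact ((sum_eq_sum_iff_of_le h1).1 h4 p hp).symm

theorem conn_all (hW : ∀ y ≤ H, c W y = true) (hH : 2 ≤ H)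
    (hC : Curves (gws c W H) (ggs c W H) U l)
    (hk : ((srcs (gws c W H) (ggs c W H)).toFinset.image l).card ≤ 2)
    (X : ℕ → ℕ → Prop)
    (h2 : ∀ x y, hE c W H U x y → (X x y ↔ X (x + 1) y))
    (h3 : ∀ x y, hV c W H U x y → (X x y ↔ X x (y + 1)))
    {p : ℕ × ℕ} (hp : p ∈ cells c W H) (hpX : X p.1 p.2) {q : ℕ × ℕ}
    (hq : q ∈ cells c W H) : X q.1 q.2 := by
  by_contra hqX
  have hdp := deg_ne_zero hW hH hC hk hp
  obtain ⟨j, hj⟩ := card_pos.1 (Nat.pos_of_ne_zero hdp)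
  rw [mem_filter, mem_range] at hj
  have h1 := used_ne hC hj.2
  rw [mem_cells] at hp hq
  have h4 : ∀ i < 4, l (p.1, p.2, i) ≠ l (q.1, q.2, 0) := by
    intro i hi hl
    have := separate hC.univ X h2 h3 hp.1 hp.2.1 hi hq.1 hq.2.1 (by omega) hp.2.2 hq.2.2 hl
    exact hqX (this.1 hpX)
  exact no_three hk (mem_gsrcs hp.1 hp.2.1 (show (j + 3) % 4 < 4 by omega))
    (mem_gsrcs hp.1 hp.2.1 hj.1) (mem_gsrcs hq.1 hq.2.1 (show 0 < 4 by omega))
    h1 (h4 _ (by omega)) (h4 _ hj.1)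

end

end Pool.Agent.KS6_48.DCD
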