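import Pool.Agent.KS6_48.DCD.Geo

/-!
# The network is planar
-/

namespace Pool.Agent.KS6_48.DCD

/-- The vertices of a network. -/
def verts {P : Type} (ws : List (P × P)) (gs : List (P × P × P × P)) : List (Vx P) :=
  ws.flatMap (fun w => [(w.1, 0), (w.1, 5)]) ++
    gs.flatMap (fun g => [(g.1, 0), (g.1, 1), (g.1, 2), (g.1, 3), (g.1, 4), (g.2.2.1, 0)])

section

variable {P : Type} {ws : List (P × P)} {gs : List (P × P × P × P)}
  {O : P → ℕ × P × P × P} {I : P → ℕ × P}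

theorem mem_verts {v : Vx P} : v ∈ verts ws gs ↔ (v.2 = 0 ∧ v.1 ∈ srcs ws gs) ∨
    (v.2 = 5 ∧ ∃ w ∈ ws, w.1 = v.1) ∨ ((v.2 = 1 ∨ v.2 = 2 ∨ v.2 = 3 ∨ v.2 = 4) ∧
      ∃ g ∈ gs, g.1 = v.1) := by
  obtain ⟨x, k⟩ := v
  unfold verts
  rw [List.mem_append, List.mem_flatMap, List.mem_flatMap, mem_srcs]
  simp only [List.mem_cons, List.not_mem_nil, or_false, Prod.mk.injEq]
  constructor
  · rintro (⟨w, hw, ⟨rfl, rfl⟩ | ⟨rfl, rfl⟩⟩ | ⟨g, hg, h⟩)
    · exact Or.inl ⟨rfl, Or.inl ⟨w, hw, rfl⟩⟩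
    · exact Or.inr (Or.inl ⟨rfl, w, hw, rfl⟩)
    · rcases h with ⟨rfl, rfl⟩ | ⟨rfl, rfl⟩ | ⟨rfl, rfl⟩ | ⟨rfl, rfl⟩ | ⟨rfl, rfl⟩ | ⟨rfl, rfl⟩
      · exact Or.inl ⟨rfl, Or.inr (Or.inl ⟨g, hg, rfl⟩)⟩
      · exact Or.inr (Or.inr ⟨by simp, g, hg, rfl⟩)
      · exact Or.inr (Or.inr ⟨by simp, g, hg, rfl⟩)
      · exact Or.inr (Or.inr ⟨by simp, g, hg, rfl⟩)
      · exact Or.inr (Or.inr ⟨by simp, g, hg, rfl⟩)
      · exact Or.inl ⟨rfl, Or.inr (Or.inr ⟨g, hg, rfl⟩)⟩
  · rintro (⟨rfl, ⟨w, hw, rfl⟩ | ⟨g, hg, rfl⟩ | ⟨g, hg, rfl⟩⟩ | ⟨rfl, w, hw, rfl⟩ |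
      ⟨hk, g, hg, rfl⟩)
    · exact Or.inl ⟨w, hw, by simp⟩
    · exact Or.inr ⟨g, hg, by simp⟩
    · exact Or.inr ⟨g, hg, by simp⟩
    · exact Or.inl ⟨w, hw, by simp⟩
    · refine Or.inr ⟨g, hg, ?_⟩
      rcases hk with rfl | rfl | rfl | rfl <;> simp

theorem verts_nodup (N : Net ws gs O I) : (verts ws gs).Nodup := by
  have key : ∀ {β : Type} (l : List β) (F : β → List (Vx P)), l.Nodup →
      (∀ b ∈ l, (F b).Nodup) →
      (∀ b ∈ l, ∀ b' ∈ l, ∀ w ∈ F b, w ∈ F b' → b = b') → (l.flatMap F).Nodup := by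
    intro β l F hl h1 h2
    rw [List.nodup_flatMap]
    refine ⟨h1, List.Pairwise.imp_of_mem ?_ hl⟩
    intro b b' hb hb' hne w hw hw'
    exact hne (h2 b hb b' hb' w hw hw')
  have hsp : ∀ g ∈ gs, ∀ g' ∈ gs, g.1 ≠ g'.2.2.1 := by
    intro g hg g' hg' h
    have h1 := N.Og g hg
    rw [h, N.Op g' hg'] at h1
    simp at h1
  have hpp : ∀ g ∈ gs, ∀ g' ∈ gs, g.2.2.1 = g'.2.2.1 → g = g' := by
    intro g hg g' hg' h
    have h1 := N.Op g hg
    rw [h, N.Op g' hg'] at h1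
    have h2 := (Prod.mk.inj (Prod.mk.inj h1).2).1
    exact gad_eq N hg hg' h2.symm
  unfold verts
  rw [List.nodup_append']
  refine ⟨?_, ?_, ?_⟩
  · refine key _ _ N.nw (fun w _ => by simp) ?_
    intro w hw w' hw' v hv hv'
    simp only [List.mem_cons, List.not_mem_nil, or_false] at hv hv'
    refine wire_eq N hw hw' ?_
    rcases hv with rfl | rfl <;> rcases hv' with h | h <;> exact (Prod.mk.inj h).1
  · refine key _ _ N.ng ?_ ?_
    · intro g hg
      have := hsp g hg g hg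
      simp [this]
    · intro g hg g' hg' v hv hv'
      simp only [List.mem_cons, List.not_mem_nil, or_false] at hv hv'
      rcases hv with rfl | rfl | rfl | rfl | rfl | rfl <;>
        rcases hv' with h | h | h | h | h | h <;>
        first
        | exact gad_eq N hg hg' (Prod.mk.inj h).1
        | exact absurd (Prod.mk.inj h).1 (hsp g hg g' hg')
        | exact absurd (Prod.mk.inj h).1.symm (hsp g' hg' g hg)
        | exact hpp g hg g' hg' (Prod.mk.inj h).1
  · intro v hv hv'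
    rw [List.mem_flatMap] at hv hv'
    obtain ⟨w, hw, hv⟩ := hv
    obtain ⟨g, hg, hv'⟩ := hv'
    simp only [List.mem_cons, List.not_mem_nil, or_false] at hv hv'
    have h1 := N.Ow w hw
    have h2 := N.Og g hg
    have h3 := N.Op g hg
    rcases hv with rfl | rfl
    · rcases hv' with h | h | h | h | h | h
      · have := (Prod.mk.inj h).1
        rw [this, h2] at h1
        simp at h1
      · simp at h
      · simp at h
      · simp at h
      · simp at h
      · have := (Prod.mk.inj h).1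
        rw [this, h3] at h1
        simp at h1
    · rcases hv' with h | h | h | h | h | h <;> simp at h

theorem ends_mem (N : Net ws gs O I) {e : Vx P × Vx P} (he : e ∈ netArcs ws gs) :
    e.1 ∈ verts ws gs ∧ e.2 ∈ verts ws gs := by
  rw [mem_verts, mem_verts]
  rw [mem_netArcs] at he
  rcases he with ⟨w, hw, h⟩ | ⟨g, hg, h⟩
  · have s1 : w.1 ∈ srcs ws gs := mem_srcs.2 (Or.inl ⟨w, hw, rfl⟩)
    have s2 := N.cw w hw
    simp only [wireArcs, List.mem_cons, List.not_mem_nil, or_false] at h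
    rcases h with rfl | rfl
    · exact ⟨Or.inl ⟨rfl, s1⟩, Or.inr (Or.inl ⟨rfl, w, hw, rfl⟩)⟩
    · exact ⟨Or.inr (Or.inl ⟨rfl, w, hw, rfl⟩), Or.inl ⟨rfl, s2⟩⟩
  · have s1 : g.1 ∈ srcs ws gs := mem_srcs.2 (Or.inr (Or.inl ⟨g, hg, rfl⟩))
    have s2 : g.2.2.1 ∈ srcs ws gs := mem_srcs.2 (Or.inr (Or.inr ⟨g, hg, rfl⟩))
    have s3 := N.cr g hg
    have s4 := N.cq g hg
    simp only [gadArcs, List.mem_cons, List.not_mem_nil, or_false] at h
    rcases h with rfl | rfl | rfl | rfl | rfl | rfl | rfl | rfl | rfl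
    · exact ⟨Or.inl ⟨rfl, s1⟩, Or.inr (Or.inr ⟨by simp, g, hg, rfl⟩)⟩
    · exact ⟨Or.inr (Or.inr ⟨by simp, g, hg, rfl⟩), Or.inr (Or.inr ⟨by simp, g, hg, rfl⟩)⟩
    · exact ⟨Or.inr (Or.inr ⟨by simp, g, hg, rfl⟩), Or.inr (Or.inr ⟨by simp, g, hg, rfl⟩)⟩
    · exact ⟨Or.inr (Or.inr ⟨by simp, g, hg, rfl⟩), Or.inr (Or.inr ⟨by simp, g, hg, rfl⟩)⟩
    · exact ⟨Or.inr (Or.inr ⟨by simp, g, hg, rfl⟩), Or.inr (Or.inr ⟨by simp, g, hg, rfl⟩)⟩
    · exact ⟨Or.inr (Or.inr ⟨by simp, g, hg, rfl⟩), Or.inr (Or.inr ⟨by simp, g, hg, rfl⟩)⟩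
    · exact ⟨Or.inr (Or.inr ⟨by simp, g, hg, rfl⟩), Or.inl ⟨rfl, s3⟩⟩
    · exact ⟨Or.inl ⟨rfl, s2⟩, Or.inr (Or.inr ⟨by simp, g, hg, rfl⟩)⟩
    · exact ⟨Or.inr (Or.inr ⟨by simp, g, hg, rfl⟩), Or.inl ⟨rfl, s4⟩⟩

theorem net_isDigraph (N : Net ws gs O I) : IsDigraph (verts ws gs) (netArcs ws gs) :=
  ⟨verts_nodup N, fun _ he => ⟨(ends_mem N he).1, (ends_mem N he).2, netArcs_loop he⟩⟩

/-- The ports which are targets. -/
def tgts (ws : List (P × P)) (gs : List (P × P × P × P)) : List P :=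
  ws.map Prod.snd ++ gs.map (fun g => g.2.1) ++ gs.map (fun g => g.2.2.2)

theorem srcs_nodup (N : Net ws gs O I) : (srcs ws gs).Nodup := by
  unfold srcs
  rw [List.nodup_append', List.nodup_append']
  refine ⟨⟨?_, ?_, ?_⟩, ?_, ?_⟩
  · refine N.nw.map_on ?_
    intro w hw w' hw' h
    exact wire_eq N hw hw' h
  · refine N.ng.map_on ?_
    intro w hw w' hw' h
    exact gad_eq N hw hw' h
  · intro x hx hx'
    rw [List.mem_map] at hx hx'
    obtain ⟨w, hw, rfl⟩ := hx
    obtain ⟨g, hg, h⟩ := hx'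
    have h1 := N.Ow w hw
    rw [← h, N.Og g hg] at h1
    simp at h1
  · refine N.ng.map_on ?_
    intro g hg g' hg' h
    have h1 := N.Op g hg
    rw [h, N.Op g' hg'] at h1
    exact gad_eq N hg hg' (Prod.mk.inj (Prod.mk.inj h1).2).1.symm
  · intro x hx hx'
    rw [List.mem_append, List.mem_map, List.mem_map] at hx
    rw [List.mem_map] at hx'
    obtain ⟨g, hg, h⟩ := hx'
    rcases hx with ⟨w, hw, rfl⟩ | ⟨g', hg', rfl⟩
    · have h1 := N.Ow w hw
      rw [← h, N.Op g hg] at h1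
      simp at h1
    · have h1 := N.Og g' hg'
      rw [← h, N.Op g hg] at h1
      simp at h1

theorem tgts_nodup (N : Net ws gs O I) : (tgts ws gs).Nodup := by
  unfold tgts
  rw [List.nodup_append', List.nodup_append']
  refine ⟨⟨?_, ?_, ?_⟩, ?_, ?_⟩
  · refine N.nw.map_on ?_
    intro w hw w' hw' h
    have h1 := N.Iw w hw
    rw [h, N.Iw w' hw'] at h1
    exact wire_eq N hw hw' (Prod.mk.inj h1).2.symm
  · refine N.ng.map_on ?_
    intro w hw w' hw' h
    have h1 := N.Ir w hw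
    rw [h, N.Ir w' hw'] at h1
    exact gad_eq N hw hw' (Prod.mk.inj h1).2.symm
  · intro x hx hx'
    rw [List.mem_map] at hx hx'
    obtain ⟨w, hw, rfl⟩ := hx
    obtain ⟨g, hg, h⟩ := hx'
    have h1 := N.Iw w hw
    rw [← h, N.Ir g hg] at h1
    simp at h1
  · refine N.ng.map_on ?_
    intro w hw w' hw' h
    have h1 := N.Iq w hw
    rw [h, N.Iq w' hw'] at h1
    exact gad_eq N hw hw' (Prod.mk.inj h1).2.symm
  · intro x hx hx'
    rw [List.mem_append, List.mem_map, List.mem_map] at hx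
    rw [List.mem_map] at hx'
    obtain ⟨g, hg, h⟩ := hx'
    rcases hx with ⟨w, hw, rfl⟩ | ⟨g', hg', rfl⟩
    · have h1 := N.Iw w hw
      rw [← h, N.Iq g hg] at h1
      simp at h1
    · have h1 := N.Ir g' hg'
      rw [← h, N.Iq g hg] at h1
      simp at h1

theorem tgts_perm (N : Net ws gs O I) : (tgts ws gs).Perm (srcs ws gs) := by
  have hsub : tgts ws gs ⊆ srcs ws gs := by
    intro x hx
    unfold tgts at hx
    rw [List.mem_append, List.mem_append, List.mem_map, List.mem_map, List.mem_map] at hx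
    rcases hx with (⟨w, hw, rfl⟩ | ⟨g, hg, rfl⟩) | ⟨g, hg, rfl⟩
    · exact N.cw w hw
    · exact N.cr g hg
    · exact N.cq g hg
  have h1 : List.Subperm (tgts ws gs) (srcs ws gs) :=
    List.subperm_of_subset (tgts_nodup N) hsub
  refine h1.perm_of_length_le ?_
  simp [tgts, srcs]

theorem net_perm (N : Net ws gs O I) :
    ((netArcs ws gs).map Prod.fst).Perm ((netArcs ws gs).map Prod.snd) := by
  letI : DecidableEq (Vx P) := Classical.decEq _
  rw [List.perm_iff_count]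
  intro v
  have h1 : ∀ ws : List (P × P),
      ((ws.flatMap wireArcs).map Prod.fst).count v + (ws.map fun w => ((w.2, 0) : Vx P)).count v =
      ((ws.flatMap wireArcs).map Prod.snd).count v +
        (ws.map fun w => ((w.1, 0) : Vx P)).count v := by
    intro ws
    induction ws with
    | nil => rfl
    | cons w ws ih =>
      simp only [List.flatMap_cons, List.map_append, List.count_append, List.map_cons,
        List.count_cons, wireArcs, List.map_nil, List.count_nil]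
      omega
  have h2 : ∀ gs : List (P × P × P × P),
      ((gs.flatMap gadArcs).map Prod.fst).count v +
        ((gs.map fun g => ((g.2.1, 0) : Vx P)).count v +
          (gs.map fun g => ((g.2.2.2, 0) : Vx P)).count v) =
      ((gs.flatMap gadArcs).map Prod.snd).count v +
        ((gs.map fun g => ((g.1, 0) : Vx P)).count v +
          (gs.map fun g => ((g.2.2.1, 0) : Vx P)).count v) := by
    intro gs
    induction gs with
    | nil => rfl
    | cons g gs ih =>
      simp only [List.flatMap_cons, List.map_append, List.count_append, List.map_cons,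
        List.count_cons, gadArcs, List.map_nil, List.count_nil]
      omega
  have h3 := (((tgts_perm N).map (fun x => ((x, 0) : Vx P))).count_eq v)
  unfold tgts srcs at h3
  simp only [List.map_append, List.count_append, List.map_map] at h3
  unfold netArcs
  rw [List.map_append, List.map_append, List.count_append, List.count_append]
  have e1 := h1 ws
  have e2 := h2 gs
  simp only [Function.comp_def] at h3
  omega

end

end Pool.Agent.KS6_48.DCD
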