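import Pool.Agent.KS6_48.DCD.No2

/-!
# A Hamiltonian cycle gives two curves
-/

namespace Pool.Agent.KS6_48.DCD

open Finset Pool.Agent.R539

theorem sector {T : Type} (g : ℕ → T) {a b : ℕ} (ha : a < 4) (hb : b < 4) (hab : a ≠ b)
    (h : ∀ j < 4, j ≠ a → j ≠ b → g ((j + 3) % 4) = g j) :
    (∀ j < 4, g j = g a ∨ g j = g b) ∧ g ((b + 3) % 4) = g a ∧ g ((a + 3) % 4) = g b := by
  have h0 := h 0 (by omega)
  have h1 := h 1 (by omega)
  have h2 := h 2 (by omega)
  have h3 := h 3 (by omega)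
  have ha' : a = 0 ∨ a = 1 ∨ a = 2 ∨ a = 3 := by omega
  have hb' : b = 0 ∨ b = 1 ∨ b = 2 ∨ b = 3 := by omega
  have all : ∀ P : ℕ → Prop, P 0 → P 1 → P 2 → P 3 → ∀ j < 4, P j := by
    intro P p0 p1 p2 p3 j hj
    have : j = 0 ∨ j = 1 ∨ j = 2 ∨ j = 3 := by omega
    rcases this with rfl | rfl | rfl | rfl <;> assumption
  clear h
  rcases ha' with rfl | rfl | rfl | rfl <;> rcases hb' with rfl | rfl | rfl | rfl <;>
    simp at h0 h1 h2 h3 hab <;>
    refine ⟨all _ ?_ ?_ ?_ ?_, ?_, ?_⟩ <;> simp_all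

section

open Classical

variable {c : ℕ → ℕ → Bool} {W H : ℕ} {U : Port × Port × Port × Port → Prop}

/-- Crossing a used dart. -/
theorem cross {T : Type} {f : Port → T} (hf : Resp (gws c W H) (ggs c W H) U f) {x y j : ℕ}
    (h : UD c W H U x y j) :
    UD c W H U (nb (x, y) j).1 (nb (x, y) j).2 ((j + 2) % 4) ∧
    f (x, y, (j + 3) % 4) = f ((nb (x, y) j).1, (nb (x, y) j).2, (j + 2) % 4) ∧
    f (x, y, j) = f ((nb (x, y) j).1, (nb (x, y) j).2, (j + 1) % 4) ∧
    nb (nb (x, y) j) ((j + 2) % 4) = (x, y) := by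
  rcases h with ⟨rfl, h⟩ | ⟨rfl, h⟩ | ⟨rfl, x', rfl, h⟩ | ⟨rfl, y', rfl, h⟩
  · have := resp_used_E hf h
    refine ⟨?_, ?_, ?_, ?_⟩
    · simp only [nb, if_true]
      exact Or.inr (Or.inr (Or.inl ⟨rfl, x, rfl, h⟩))
    · simpa [nb] using this.1
    · simpa [nb] using this.2.symm
    · simp [nb]
  · have := resp_used_N hf h
    refine ⟨?_, ?_, ?_, ?_⟩
    · simp only [nb, one_ne_zero, if_true, if_false]
      exact Or.inr (Or.inr (Or.inr ⟨rfl, y, rfl, h⟩))
    · simpa [nb] using this.1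
    · simpa [nb] using this.2.symm
    · simp [nb]
  · have := resp_used_E hf h
    refine ⟨?_, ?_, ?_, ?_⟩
    · simp only [nb, OfNat.ofNat_ne_zero, OfNat.ofNat_ne_one, if_true, if_false,
        Nat.add_sub_cancel]
      exact Or.inl ⟨rfl, h⟩
    · simpa [nb] using this.2
    · simpa [nb] using this.1.symm
    · simp [nb]
  · have := resp_used_N hf h
    refine ⟨?_, ?_, ?_, ?_⟩
    · simp only [nb, OfNat.ofNat_ne_zero, OfNat.ofNat_ne_one, if_false,
        Nat.add_sub_cancel, Nat.reduceEqDiff]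
      exact Or.inr (Or.inl ⟨rfl, h⟩)
    · simpa [nb] using this.2
    · simpa [nb] using this.1.symm
    · simp [nb]

/-- The data of a Hamiltonian cycle whose edges are the used edges. -/
structure HamCyc (c : ℕ → ℕ → Bool) (W H : ℕ) (U : Port × Port × Port × Port → Prop)
    (v : ℕ → ℕ × ℕ) (n : ℕ) : Prop where
  three : 3 ≤ n
  surj : ∀ p ∈ cells c W H, ∃ i, v (i + 1) = p
  mem : ∀ i, v i ∈ cells c W H
  inj : ∀ i j, v i = v j → i % n = j % n
  per : ∀ i, v (i + n) = v i
  adj : ∀ i, AU c W H U (v i) (v (i + 1))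
  only : ∀ i x, AU c W H U (v (i + 1)) x → x = v i ∨ x = v (i + 2)

variable {v : ℕ → ℕ × ℕ} {n : ℕ}

theorem HamCyc.dirs (hH : HamCyc c W H U v n) :
    ∃ b : ℕ → ℕ, ∀ i, UD c W H U (v i).1 (v i).2 (b i) ∧ v (i + 1) = nb (v i) (b i) := by
  have := fun i => AU_iff.1 (hH.adj i)
  choose b hb using this
  exact ⟨b, hb⟩

theorem HamCyc.values (hH : HamCyc c W H U v n) {T : Type} {f : Port → T}
    (hf : Resp (gws c W H) (ggs c W H) U f) :
    ∃ α β : T, (∀ p ∈ cells c W H, ∀ j < 4, f (p.1, p.2, j) = α ∨ f (p.1, p.2, j) = β) ∧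
      (∀ p ∈ cells c W H, ∀ j, UD c W H U p.1 p.2 j →
        (f (p.1, p.2, (j + 3) % 4) = α ∧ f (p.1, p.2, j) = β) ∨
        (f (p.1, p.2, (j + 3) % 4) = β ∧ f (p.1, p.2, j) = α)) ∧
      (∀ p ∈ cells c W H, deg c W H U p = 2) := by
  obtain ⟨b, hb⟩ := hH.dirs
  -- the dart back
  have hback : ∀ i, UD c W H U (v (i + 1)).1 (v (i + 1)).2 ((b i + 2) % 4) ∧
      f ((v i).1, (v i).2, (b i + 3) % 4) =
        f ((v (i + 1)).1, (v (i + 1)).2, (b i + 2) % 4) ∧
      f ((v i).1, (v i).2, b i) = f ((v (i + 1)).1, (v (i + 1)).2, (b i + 1) % 4) ∧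
      nb (v (i + 1)) ((b i + 2) % 4) = v i := by
    intro i
    have := cross hf (hb i).1
    rw [(hb i).2]
    exact this
  have hb4 : ∀ i, b i < 4 := fun i => ud_lt (hb i).1
  have hne : ∀ i, (b i + 2) % 4 ≠ b (i + 1) := by
    intro i h
    have h1 := (hback i).2.2.2
    rw [h, ← (hb (i + 1)).2] at h1
    have h2 := hH.inj _ _ h1
    have h3 := hH.three
    have h4 : (i + 1 + 1) % n = i % n → False := by
      intro h5
      have h6 : (i + 2) ≡ i [MOD n] := h5
      have h7 : 2 ≡ 0 [MOD n] := by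
        have h8 : i + 2 ≡ i + 0 [MOD n] := h6
        exact Nat.ModEq.add_left_cancel' i h8
      have h9 : n ∣ 2 := (Nat.modEq_zero_iff_dvd).1 h7
      have := Nat.le_of_dvd (by omega) h9
      omega
    exact h4 h2
  have honly : ∀ i j, UD c W H U (v (i + 1)).1 (v (i + 1)).2 j → j = (b i + 2) % 4 ∨
      j = b (i + 1) := by
    intro i j hj
    have h1 : AU c W H U (v (i + 1)) (nb (v (i + 1)) j) := AU_iff.2 ⟨j, hj, rfl⟩
    rcases hH.only i _ h1 with h2 | h2
    · left
      exact nb_inj hj (hback i).1 (h2.trans (hback i).2.2.2.symm)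
    · right
      exact nb_inj hj (hb (i + 1)).1 (h2.trans (hb (i + 1)).2)
  have hsec : ∀ i, _ := fun i => sector (fun j => f ((v (i + 1)).1, (v (i + 1)).2, j))
    (show (b i + 2) % 4 < 4 by omega) (hb4 (i + 1)) (hne i) (by
      intro j hj h1 h2
      have hm := hH.mem (i + 1)
      rw [mem_cells] at hm
      refine resp_unused hf hm.1 hm.2.1 hm.2.2 hj ?_
      intro h3
      rcases honly i j h3 with h4 | h4
      · exact h1 h4
      · exact h2 h4)
  have hA : ∀ i, f ((v i).1, (v i).2, (b i + 3) % 4) = f ((v 0).1, (v 0).2, (b 0 + 3) % 4) := by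
    intro i
    induction i with
    | zero => rfl
    | succ i ih =>
      rw [← ih, (hback i).2.1]
      exact (hsec i).2.1
  have hB : ∀ i, f ((v i).1, (v i).2, b i) = f ((v 0).1, (v 0).2, b 0) := by
    intro i
    induction i with
    | zero => rfl
    | succ i ih =>
      rw [← ih, (hback i).2.2.1]
      have h1 := (hsec i).2.2
      have h2 : ((b i + 2) % 4 + 3) % 4 = (b i + 1) % 4 := by
        have := hb4 i
        omega
      rw [h2] at h1
      exact h1.symm
  refine ⟨f ((v 0).1, (v 0).2, (b 0 + 3) % 4), f ((v 0).1, (v 0).2, b 0), ?_, ?_, ?_⟩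
  · intro p hp j hj
    obtain ⟨i, rfl⟩ := hH.surj p hp
    rcases (hsec i).1 j hj with h1 | h1
    · left
      rw [h1, ← hA i, (hback i).2.1]
    · right
      rw [h1, hB (i + 1)]
  · intro p hp j hj
    obtain ⟨i, rfl⟩ := hH.surj p hp
    rcases honly i j hj with rfl | rfl
    · right
      constructor
      · have h1 := (hsec i).2.2
        rw [h1, hB (i + 1)]
      · rw [← hA i, (hback i).2.1]
    · left
      exact ⟨hA (i + 1), hB (i + 1)⟩
  · intro p hp
    obtain ⟨i, rfl⟩ := hH.surj p hp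
    unfold deg
    rw [card_eq_two]
    refine ⟨(b i + 2) % 4, b (i + 1), hne i, ?_⟩
    ext j
    rw [mem_filter, mem_range, mem_insert, mem_singleton]
    constructor
    · rintro ⟨_, h1⟩
      exact honly i j h1
    · rintro (rfl | rfl)
      · exact ⟨by omega, (hback i).1⟩
      · exact ⟨hb4 _, (hb (i + 1)).1⟩

/-- The values on all ports. -/
theorem values_all (hW : ∀ y ≤ H, c W y = true) {T : Type} {f : Port → T}
    (hf : Resp (gws c W H) (ggs c W H) U f) {α β : T}
    (h : ∀ p ∈ cells c W H, ∀ j < 4, f (p.1, p.2, j) = α ∨ f (p.1, p.2, j) = β) :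
    ∀ p ∈ srcs (gws c W H) (ggs c W H), f p = α ∨ f p = β := by
  have key : ∀ y ≤ H, ∀ n x, x + n = W → ∀ j < 4, f (x, y, j) = α ∨ f (x, y, j) = β := by
    intro y hy n
    induction n with
    | zero =>
      intro x hx j hj
      have : x = W := by omega
      subst this
      exact h (x, y) (mem_cells.2 ⟨le_rfl, hy, hW y hy⟩) j hj
    | succ n ih =>
      intro x hx j hj
      by_cases hc : c x y = true
      · exact h (x, y) (mem_cells.2 ⟨by simp only; omega, hy, hc⟩) j hj
      · have hc' : c x y = false := by simpa using hc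
        have e1 : f (x, y, 3) = f (x + 1, y, 2) := hf.1 ((x, y, 3), (x + 1, y, 2))
          (mem_gws.2 (Or.inr (Or.inl ⟨x, y, by omega, hy, hc', Or.inl rfl⟩)))
        have e2 : f (x, y, 0) = f (x, y, 1) := resp_N hf (by omega) hy
          (fun h => absurd h.2.2.1 (by simp [hc']))
        have e3 : f (x, y, 0) = f (x, y, 3) := (resp_W_aux hf hy x (by omega)).2 hc'
        have e4 : f (x, y, 2) = f (x, y, 3) := resp_S hf (by omega) hy (fun y' hy' h => by
          subst hy'
          exact absurd h.2.2.2.1 (by simp [hc']))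
        have e5 := ih (x + 1) (by omega) 2 (by omega)
        have hj' : j = 0 ∨ j = 1 ∨ j = 2 ∨ j = 3 := by omega
        rcases hj' with rfl | rfl | rfl | rfl
        · rw [e3, e1]; exact e5
        · rw [← e2, e3, e1]; exact e5
        · rw [e4, e1]; exact e5
        · rw [e1]; exact e5
  intro p hp
  have hb := gsrcs_box hp
  exact key p.2.1 hb.2.1 (W - p.1) p.1 (by omega) p.2.2 hb.2.2

/-- The equivalence of ports on the same curve. -/
def curveSetoid (c : ℕ → ℕ → Bool) (W H : ℕ) (U : Port × Port × Port × Port → Prop) :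
    Setoid Port where
  r p q := ∀ f : Port → Prop, Resp (gws c W H) (ggs c W H) U f → (f p ↔ f q)
  iseqv := ⟨fun _ _ _ => Iff.rfl, fun h f hf => (h f hf).symm,
    fun h1 h2 f hf => (h1 f hf).trans (h2 f hf)⟩

theorem card_image_dec {α β : Type} {i j : DecidableEq β} (f : α → β) (s : Finset α) :
    (@Finset.image α β i f s).card = (@Finset.image α β j f s).card := by
  rw [Subsingleton.elim i j]

theorem curves_of_hamCyc (hW : ∀ y ≤ H, c W y = true) (hH : HamCyc c W H U v n) :
    Curves (gws c W H) (ggs c W H) U (Quotient.mk (curveSetoid c W H U)) ∧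
      ((srcs (gws c W H) (ggs c W H)).toFinset.image
        (Quotient.mk (curveSetoid c W H U))).card ≤ 2 := by
  have hresp : Resp (gws c W H) (ggs c W H) U (Quotient.mk (curveSetoid c W H U)) := by
    refine ⟨?_, ?_, ?_⟩
    · intro w hw
      exact Quotient.sound (s := curveSetoid c W H U) (fun f hf => by rw [hf.1 w hw])
    · intro g hg hu
      exact ⟨Quotient.sound (s := curveSetoid c W H U) (fun f hf => by rw [(hf.2.1 g hg hu).1]),
        Quotient.sound (s := curveSetoid c W H U) (fun f hf => by rw [(hf.2.1 g hg hu).2])⟩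
    · intro g hg hu
      exact ⟨Quotient.sound (s := curveSetoid c W H U) (fun f hf => by rw [(hf.2.2 g hg hu).1]),
        Quotient.sound (s := curveSetoid c W H U) (fun f hf => by rw [(hf.2.2 g hg hu).2])⟩
  have huniv : ∀ f : Port → Prop, Resp (gws c W H) (ggs c W H) U f →
      ∀ x ∈ srcs (gws c W H) (ggs c W H), ∀ y ∈ srcs (gws c W H) (ggs c W H),
      Quotient.mk (curveSetoid c W H U) x = Quotient.mk (curveSetoid c W H U) y →
      (f x ↔ f y) := by
    intro f hf x _ y _ hxy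
    have : (curveSetoid c W H U).r x y := Quotient.exact hxy
    exact this f hf
  obtain ⟨α, β, h1, h2, h3⟩ := hH.values hresp
  have hall := values_all hW hresp h1
  have himg : (srcs (gws c W H) (ggs c W H)).toFinset.image
      (Quotient.mk (curveSetoid c W H U)) ⊆ {α, β} := by
    intro q hq
    rw [mem_image] at hq
    obtain ⟨p, hp, rfl⟩ := hq
    rw [mem_insert, mem_singleton]
    exact hall p (List.mem_toFinset.1 hp)
  have hαβ : α ≠ β := by
    intro h
    have e1 : eE c W H U + eV c W H U + 2 ≤ (cells c W H).card +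
        ((srcs (gws c W H) (ggs c W H)).toFinset.image
          (Quotient.mk (curveSetoid c W H U))).card := by
      refine (edge_count hW huniv).trans (le_of_eq ?_)
      rw [card_image_dec]
    have e2 := deg_sum (c := c) (W := W) (H := H) (U := U)
    rw [sum_congr rfl h3, sum_const, smul_eq_mul] at e2
    have e3 := card_le_card himg
    rw [h] at e3
    simp at e3
    omega
  refine ⟨⟨hresp, huniv, ?_⟩, (card_le_card himg).trans (card_le_two)⟩
  intro g hg hu
  have hg' := hg
  rw [mem_ggs] at hg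
  rcases hg with ⟨x, y, g1, g2, g3, g4, rfl⟩ | ⟨x, y, g1, g2, g3, g4, rfl⟩
  · have hE' : hE c W H U x y := ⟨g1, g2, g3, g4, hu⟩
    have h4 := h2 (x, y) (mem_cells.2 ⟨g1.le, g2, g3⟩) 0 (Or.inl ⟨rfl, hE'⟩)
    have h5 := resp_used_E hresp hE'
    simp only at h4 ⊢
    rw [h5.2]
    rcases h4 with ⟨h6, h7⟩ | ⟨h6, h7⟩
    · rw [h7]
      change Quotient.mk (curveSetoid c W H U) (x, y, (0 + 3) % 4) ≠ β
      rw [h6]
      exact hαβ
    · rw [h7]
      change Quotient.mk (curveSetoid c W H U) (x, y, (0 + 3) % 4) ≠ α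
      rw [h6]
      exact hαβ.symm
  · have hV' : hV c W H U x y := ⟨g1, g2, g3, g4, hu⟩
    have h4 := h2 (x, y) (mem_cells.2 ⟨g1, g2.le, g3⟩) 1 (Or.inr (Or.inl ⟨rfl, hV'⟩))
    have h5 := resp_used_N hresp hV'
    simp only at h4 ⊢
    rw [h5.2]
    rcases h4 with ⟨h6, h7⟩ | ⟨h6, h7⟩
    · rw [h7]
      change Quotient.mk (curveSetoid c W H U) (x, y, (1 + 3) % 4) ≠ β
      rw [h6]
      exact hαβ
    · rw [h7]
      change Quotient.mk (curveSetoid c W H U) (x, y, (1 + 3) % 4) ≠ α
      rw [h6]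
      exact hαβ.symm

end

end Pool.Agent.KS6_48.DCD
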