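import Pool.Agent.KS6_48.DCD.Yes

/-!
# From a Hamiltonian path to a decomposition
-/

namespace Pool.Agent.KS6_48.DCD

open Finset Pool.Agent.R539

/-- The path of additional cells, from `(w + 1, h + 2)` to `(0, 1)`. -/
def extL (w h : ℕ) : List (ℕ × ℕ) :=
  [(w + 1, h + 2)] ++ ((List.range (h + 3)).map (fun i => (w + 2, h + 2 - i)) ++
    ((List.range (w + 2)).map (fun i => (w + 1 - i, 0)) ++ [(0, 1)]))

theorem mem_extL {w h : ℕ} {p : ℕ × ℕ} : p ∈ extL w h ↔
    (p.1 = w + 1 ∧ p.2 = h + 2) ∨ (p.1 = w + 2 ∧ p.2 ≤ h + 2) ∨ (p.1 ≤ w + 1 ∧ p.2 = 0) ∨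
      (p.1 = 0 ∧ p.2 = 1) := by
  obtain ⟨x, y⟩ := p
  unfold extL
  simp only [List.mem_append, List.mem_cons, List.not_mem_nil, or_false, List.mem_map,
    List.mem_range, Prod.mk.injEq]
  constructor
  · rintro (h1 | ⟨i, h1, h2, h3⟩ | ⟨i, h1, h2, h3⟩ | h1) <;> omega
  · rintro (h1 | h1 | h1 | h1)
    · exact Or.inl h1
    · exact Or.inr (Or.inl ⟨h + 2 - y, by omega, by omega, by omega⟩)
    · exact Or.inr (Or.inr (Or.inl ⟨w + 1 - x, by omega, by omega, by omega⟩))
    · exact Or.inr (Or.inr (Or.inr h1))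

theorem extL_nodup (w h : ℕ) : (extL w h).Nodup := by
  unfold extL
  rw [List.nodup_append', List.nodup_append', List.nodup_append']
  refine ⟨by simp, ⟨?_, ⟨?_, by simp, ?_⟩, ?_⟩, ?_⟩
  · rw [List.nodup_map_iff_inj_on List.nodup_range]
    intro i hi j hj hij
    rw [List.mem_range] at hi hj
    have := (Prod.mk.inj hij).2
    omega
  · rw [List.nodup_map_iff_inj_on List.nodup_range]
    intro i hi j hj hij
    rw [List.mem_range] at hi hj
    have := (Prod.mk.inj hij).1
    omega
  · intro p hp hp'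
    simp only [List.mem_map, List.mem_range, List.mem_cons, List.not_mem_nil, or_false] at hp hp'
    obtain ⟨i, hi, rfl⟩ := hp
    simp at hp'
  · intro p hp hp'
    simp only [List.mem_map, List.mem_range, List.mem_append, List.mem_cons, List.not_mem_nil,
      or_false] at hp hp'
    obtain ⟨i, hi, rfl⟩ := hp
    rcases hp' with ⟨j, hj, hij⟩ | hij
    · have := (Prod.mk.inj hij).1
      omega
    · have := (Prod.mk.inj hij).1
      omega
  · intro p hp hp'
    simp only [List.mem_map, List.mem_range, List.mem_append, List.mem_cons, List.not_mem_nil,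
      or_false] at hp hp'
    subst hp
    rcases hp' with ⟨j, hj, hij⟩ | ⟨j, hj, hij⟩ | hij
    · have := (Prod.mk.inj hij).1
      omega
    · have := (Prod.mk.inj hij).2
      omega
    · have := (Prod.mk.inj hij).1
      omega

theorem extL_chain (w h : ℕ) : (extL w h).IsChain UAdj := by
  unfold extL
  have hl1 : ((List.range (h + 3)).map (fun i => (w + 2, h + 2 - i))).getLast? =
      some (w + 2, 0) := by
    rw [List.range_succ, List.map_append]
    simp
  have hh1 : ((List.range (h + 3)).map (fun i => (w + 2, h + 2 - i))).head? =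
      some (w + 2, h + 2) := by
    rw [List.range_succ_eq_map]
    simp
  have hl2 : ((List.range (w + 2)).map (fun i => (w + 1 - i, 0))).getLast? =
      some (0, 0) := by
    rw [List.range_succ, List.map_append]
    simp
  have hh2 : ((List.range (w + 2)).map (fun i => (w + 1 - i, 0))).head? =
      some (w + 1, 0) := by
    rw [List.range_succ_eq_map]
    simp
  rw [List.isChain_append, List.isChain_append, List.isChain_append]
  refine ⟨by simp, ⟨?_, ⟨?_, by simp, ?_⟩, ?_⟩, ?_⟩
  · rw [List.isChain_iff_getElem]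
    intro i hi
    have hi' : i + 1 < h + 3 := by simpa using hi
    rw [List.getElem_map, List.getElem_map, List.getElem_range, List.getElem_range]
    exact Or.inl ⟨rfl, Or.inl (by simp only; omega)⟩
  · rw [List.isChain_iff_getElem]
    intro i hi
    have hi' : i + 1 < w + 2 := by simpa using hi
    rw [List.getElem_map, List.getElem_map, List.getElem_range, List.getElem_range]
    exact Or.inr ⟨rfl, Or.inl (by simp only; omega)⟩
  · intro x hx y hy
    rw [hl2, Option.mem_some_iff] at hx
    simp only [List.head?_cons, Option.mem_some_iff] at hy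
    subst hx hy
    decide
  · intro x hx y hy
    rw [hl1, Option.mem_some_iff] at hx
    rw [List.head?_append_of_ne_nil _ (by simp), hh2, Option.mem_some_iff] at hy
    subst hx hy
    unfold UAdj
    simp
  · intro x hx y hy
    simp only [List.getLast?_singleton, Option.mem_some_iff] at hx
    rw [List.head?_append_of_ne_nil _ (by simp), hh1, Option.mem_some_iff] at hy
    subst hx hy
    unfold UAdj
    simp

/-- Consecutive elements of a periodic sequence. -/
def Cons (v : ℕ → ℕ × ℕ) (a b : ℕ × ℕ) : Prop :=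
  ∃ i, (a = v i ∧ b = v (i + 1)) ∨ (a = v (i + 1) ∧ b = v i)

/-- The gadgets used by a Hamiltonian cycle. -/
def cycU (v : ℕ → ℕ × ℕ) (g : Port × Port × Port × Port) : Prop :=
  Cons v (g.1.1, g.1.2.1) (g.2.2.1.1, g.2.2.1.2.1)

open Classical in
theorem curves_of_hamPath {Q : List Cell} {w h : ℕ} (hw : 0 < w) (hnd : Q.Nodup)
    (hbox : ∀ p ∈ Q, p.1 ≤ w ∧ p.2 ≤ h) (hP : HamPath Q (0, 0) (w, h)) :
    ∃ (U : Port × Port × Port × Port → Prop) (κ : Type) (l : Port → κ),
      Curves (gws (cc Q w h) (w + 2) (h + 2)) (ggs (cc Q w h) (w + 2) (h + 2)) U l ∧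
      ((srcs (gws (cc Q w h) (w + 2) (h + 2))
        (ggs (cc Q w h) (w + 2) (h + 2))).toFinset.image l).card ≤ 2 := by
  obtain ⟨L, hL1, hL2, hL3, hL4⟩ := hP
  let L' : List (ℕ × ℕ) := L.map fun p => (p.1, p.2 + 2)
  let C : List (ℕ × ℕ) := L' ++ extL w h
  have hL'mem : ∀ p : ℕ × ℕ, p ∈ L' ↔ 2 ≤ p.2 ∧ (p.1, p.2 - 2) ∈ Q := by
    rintro ⟨x, y⟩
    simp only [L', List.mem_map]
    constructor
    · rintro ⟨p, hp, h1⟩
      obtain ⟨rfl, rfl⟩ := Prod.mk.inj h1
      exact ⟨by omega, by simpa using hL1.mem_iff.1 hp⟩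
    · rintro ⟨h1, h2⟩
      exact ⟨(x, y - 2), hL1.mem_iff.2 h2, by simp only [Prod.mk.injEq, true_and]; omega⟩
  have hCnd : C.Nodup := by
    rw [List.nodup_append']
    refine ⟨?_, extL_nodup w h, ?_⟩
    · refine (hL1.nodup_iff.2 hnd).map ?_
      intro p q hpq
      have := Prod.mk.inj hpq
      exact Prod.ext this.1 (by omega)
    · intro p hp hp'
      rw [hL'mem] at hp
      rw [mem_extL] at hp'
      have := hbox _ hp.2
      simp only at this
      omega
  have hLne : L ≠ [] := by
    rintro rfl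
    simp at hL3
  have hL'ne : L' ≠ [] := by simpa [L'] using hLne
  have hextne : extL w h ≠ [] := by simp [extL]
  have hCch : C.IsChain UAdj := by
    rw [List.isChain_append]
    refine ⟨?_, extL_chain w h, ?_⟩
    · rw [List.isChain_map]
      refine hL2.imp ?_
      intro a b hab
      unfold UAdj at hab ⊢
      simp only
      omega
    · intro x hx y hy
      have h1 : L'.getLast? = some (w, h + 2) := by
        simp only [L', List.getLast?_map, hL4, Option.map_some]
      have h2 : (extL w h).head? = some (w + 1, h + 2) := by simp [extL]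
      rw [h1, Option.mem_some_iff] at hx
      rw [h2, Option.mem_some_iff] at hy
      subst hx hy
      unfold UAdj
      simp
  set n := C.length with hn
  have hn3 : 3 ≤ n := by
    have h1 : 0 < L'.length := List.length_pos_iff.2 hL'ne
    have h2 : (extL w h).length = 1 + ((h + 3) + ((w + 2) + 1)) := by
      simp [extL]
      omega
    have h3 : n = L'.length + (extL w h).length := by simp [hn, C]
    omega
  have hmod : ∀ i, i % n < C.length := fun i => Nat.mod_lt _ (by omega)
  let v : ℕ → ℕ × ℕ := fun i => C[i % n]'(hmod i)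
  have hvmod : ∀ i j, i % n = j % n → v i = v j := by
    intro i j hij
    simp only [v, hij]
  have hUadj : ∀ i, UAdj (v i) (v (i + 1)) := by
    intro i
    have h1 : i % n < n := Nat.mod_lt _ (by omega)
    rcases Nat.lt_or_ge (i % n + 1) n with h2 | h2
    · have h3 : (i + 1) % n = i % n + 1 := by
        rw [Nat.add_mod, Nat.mod_eq_of_lt (show 1 < n by omega), Nat.mod_eq_of_lt h2]
      have h4 := (List.isChain_iff_getElem.1 hCch) (i % n) (by omega)
      simp only [v, h3]
      exact h4
    · have h3 : i % n = n - 1 := by omega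
      have h4 : (i + 1) % n = 0 := by
        rw [Nat.add_mod, h3, Nat.mod_eq_of_lt (show 1 < n by omega)]
        rw [show n - 1 + 1 = n by omega, Nat.mod_self]
      have h5 : v i = (0, 1) := by
        have h6 : C.getLast? = some (0, 1) := by
          have h9 : C = (L' ++ ([(w + 1, h + 2)] ++
              ((List.range (h + 3)).map (fun i => (w + 2, h + 2 - i)) ++
              (List.range (w + 2)).map (fun i => (w + 1 - i, 0))))) ++ [(0, 1)] := by
            simp [C, extL]
          rw [h9, List.getLast?_concat]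
        rw [List.getLast?_eq_getElem?, List.getElem?_eq_some_iff] at h6
        obtain ⟨h7, h8⟩ := h6
        simp only [v, h3]
        exact h8
      have h6 : v (i + 1) = (0, 2) := by
        have h6 : C.head? = some (0, 2) := by
          rw [List.head?_append_of_ne_nil _ hL'ne]
          simp [L', hL3]
        rw [List.head?_eq_getElem?, List.getElem?_eq_some_iff] at h6
        obtain ⟨h7, h8⟩ := h6
        simp only [v, h4]
        exact h8
      rw [h5, h6]
      decide
  have hvinj : ∀ i j, v i = v j → i % n = j % n := by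
    intro i j hij
    exact (List.Nodup.getElem_inj_iff hCnd).1 hij
  have hvmem : ∀ i, v i ∈ cells (cc Q w h) (w + 2) (h + 2) := by
    intro i
    have h1 : v i ∈ C := List.getElem_mem _
    rw [List.mem_append] at h1
    rw [mem_cells, cc_iff]
    rcases h1 with h1 | h1
    · rw [hL'mem] at h1
      have := hbox _ h1.2
      simp only at this
      exact ⟨by omega, by omega, Or.inr (Or.inr (Or.inr (Or.inr h1)))⟩
    · rw [mem_extL] at h1
      omega
  have hvsurj : ∀ p ∈ cells (cc Q w h) (w + 2) (h + 2), ∃ i, v (i + 1) = p := by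
    intro p hp
    rw [mem_cells, cc_iff] at hp
    have h1 : p ∈ C := by
      rw [List.mem_append, hL'mem, mem_extL]
      rcases hp.2.2 with h2 | h2 | h2 | h2 | h2
      · right; omega
      · right; omega
      · right; omega
      · right; omega
      · left; exact h2
    obtain ⟨i, hi, rfl⟩ := List.mem_iff_getElem.1 h1
    refine ⟨i + (n - 1), ?_⟩
    have h3 : (i + (n - 1) + 1) % n = i := by
      rw [show i + (n - 1) + 1 = i + n by omega, Nat.add_mod_right, Nat.mod_eq_of_lt hi]
    simp only [v, h3]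
  have hAU : ∀ a b, a ∈ cells (cc Q w h) (w + 2) (h + 2) →
      b ∈ cells (cc Q w h) (w + 2) (h + 2) → UAdj a b → Cons v a b →
      AU (cc Q w h) (w + 2) (h + 2) (cycU v) a b := by
    rintro ⟨x, y⟩ ⟨x', y'⟩ ha hb hadj hcons
    rw [mem_cells] at ha hb
    simp only at ha hb
    unfold UAdj at hadj
    simp only at hadj
    have hcons' : Cons v (x', y') (x, y) := by
      obtain ⟨i, h1 | h1⟩ := hcons
      · exact ⟨i, Or.inr ⟨h1.2, h1.1⟩⟩
      · exact ⟨i, Or.inl ⟨h1.2, h1.1⟩⟩
    rcases hadj with ⟨rfl, rfl | rfl⟩ | ⟨rfl, rfl | rfl⟩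
    · exact Or.inr (Or.inr (Or.inr ⟨rfl, rfl, by omega, by simp only; omega, hb.2.2, ha.2.2,
        hcons'⟩))
    · exact Or.inr (Or.inl ⟨rfl, rfl, by omega, by simp only; omega, ha.2.2, hb.2.2, hcons⟩)
    · exact Or.inr (Or.inr (Or.inl ⟨rfl, rfl, by simp only; omega, by simp only; omega,
        hb.2.2, ha.2.2, hcons'⟩))
    · exact Or.inl ⟨rfl, rfl, by simp only; omega, by simp only; omega, ha.2.2, hb.2.2, hcons⟩
  have hAU' : ∀ a b, AU (cc Q w h) (w + 2) (h + 2) (cycU v) a b → Cons v a b := by
    rintro ⟨x, y⟩ ⟨x', y'⟩ hab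
    have hsymm : ∀ a b, Cons v a b → Cons v b a := by
      rintro a b ⟨i, h1 | h1⟩
      · exact ⟨i, Or.inr ⟨h1.2, h1.1⟩⟩
      · exact ⟨i, Or.inl ⟨h1.2, h1.1⟩⟩
    rcases hab with ⟨h1, h2, h3⟩ | ⟨h1, h2, h3⟩ | ⟨h1, h2, h3⟩ | ⟨h1, h2, h3⟩ <;>
      simp only at h1 h2 h3 <;> subst h1 h2
    · exact h3.2.2.2.2
    · exact h3.2.2.2.2
    · exact hsymm _ _ h3.2.2.2.2
    · exact hsymm _ _ h3.2.2.2.2
  have hH : HamCyc (cc Q w h) (w + 2) (h + 2) (cycU v) v n := by
    refine ⟨hn3, hvsurj, hvmem, hvinj, ?_, ?_, ?_⟩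
    · intro i
      exact hvmod _ _ (by simp)
    · intro i
      exact hAU _ _ (hvmem i) (hvmem (i + 1)) (hUadj i) ⟨i, Or.inl ⟨rfl, rfl⟩⟩
    · intro i x hx
      obtain ⟨j, ⟨h1, h2⟩ | ⟨h1, h2⟩⟩ := hAU' _ _ hx
      · right
        rw [h2]
        apply hvmod
        have h3 := hvinj _ _ h1
        have : (i + 1) ≡ j [MOD n] := h3
        exact (this.add_right 1).symm
      · left
        rw [h2]
        apply hvmod
        have h3 := hvinj _ _ h1
        have : (i + 1) ≡ (j + 1) [MOD n] := h3
        exact (Nat.ModEq.add_right_cancel' 1 this).symm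
  have hW : ∀ y ≤ h + 2, cc Q w h (w + 2) y = true := fun y _ => by
    rw [cc_iff]
    exact Or.inr (Or.inl rfl)
  obtain ⟨h1, h2⟩ := curves_of_hamCyc hW hH
  exact ⟨cycU v, _, _, h1, (le_of_eq (card_image_dec _ _)).trans h2⟩

/-- The equivalence: the network has a decomposition into `m + 2` directed cycles if and only if
the cells have a Hamiltonian path. -/
theorem net_iff {Q : List Cell} {w h : ℕ} (hw : 0 < w) (hnd : Q.Nodup)
    (hbox : ∀ p ∈ Q, p.1 ≤ w ∧ p.2 ≤ h) (hs : ((0, 0) : Cell) ∈ Q) (ht : ((w, h) : Cell) ∈ Q) :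
    HamPath Q (0, 0) (w, h) ↔
    Decomp (netArcs (gws (cc Q w h) (w + 2) (h + 2)) (ggs (cc Q w h) (w + 2) (h + 2)))
      ((ggs (cc Q w h) (w + 2) (h + 2)).length + 2) := by
  classical
  constructor
  · intro hP
    obtain ⟨U, κ, l, h1, h2⟩ := curves_of_hamPath hw hnd hbox hP
    refine decomp_of_curves gnet h1 ?_
    exact (le_of_eq (card_image_dec _ _)).trans h2
  · intro hD
    obtain ⟨U, l, h1, h2⟩ := curves_of_decomp gnet hD
    refine hamPath_of_curves hnd hw hbox hs ht h1 ?_
    exact (le_of_eq (card_image_dec _ _)).trans h2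

end Pool.Agent.KS6_48.DCD
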